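import Pool.Agent.CoordMaps.Core

namespace Pool.Agent.CoordMaps

open Set Metric Topology NNReal

lemma coord_inv {n : ℕ} {h : (Fin n → ℝ) ≃ₜ (Fin n → ℝ)} (hh : h ∈ TypeA n) :
    h⁻¹ ∈ TypeA n := by
  obtain ⟨i, hi⟩ := hh
  refine ⟨i, fun x j hj => ?_⟩
  have := hi (h⁻¹ x) j hj
  rw [← this]
  simp

lemma tele {n : ℕ} (g : ℕ → ((Fin n → ℝ) ≃ₜ (Fin n → ℝ))) (h0 : g 0 = 1)
    (hs : ∀ k (hk : k < n), ∀ x j, j ≠ ⟨k, hk⟩ → g (k+1) x j = g k x j) :
    g n ∈ GA n := by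
  have key : ∀ k, k ≤ n → g k ∈ GA n := by
    intro k
    induction k with
    | zero => intro _; rw [h0]; exact Subgroup.one_mem _
    | succ k ih =>
      intro hk
      have h1 : g (k+1) = (g (k+1) * (g k)⁻¹) * g k := by simp
      rw [h1]
      refine Subgroup.mul_mem _ (Subgroup.subset_closure ⟨⟨k, hk⟩, fun x j hj => ?_⟩)
        (ih (Nat.le_of_succ_le hk))
      rw [Homeomorph.mul_apply, hs k hk _ j hj]
      simp
  exact key n le_rfl

lemma toHomeo_apply {n : ℕ} {ψ : (Fin n → ℝ) → (Fin n → ℝ)} {K : ℝ≥0} (hψ : LipschitzWith K ψ)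
    (hK : K < 1) : ∃ h : (Fin n → ℝ) ≃ₜ (Fin n → ℝ), ∀ x, h x = x + ψ x := by
  have h1 : ApproximatesLinearOn (fun x => x + ψ x)
      ((ContinuousLinearEquiv.refl ℝ (Fin n → ℝ) : (Fin n → ℝ) ≃L[ℝ] (Fin n → ℝ)) :
        (Fin n → ℝ) →L[ℝ] (Fin n → ℝ)) univ K := by
    rw [ApproximatesLinearOn.approximatesLinearOn_iff_lipschitzOnWith]
    have : ((fun x => x + ψ x) - ((ContinuousLinearEquiv.refl ℝ (Fin n → ℝ) :
        (Fin n → ℝ) ≃L[ℝ] (Fin n → ℝ)) : (Fin n → ℝ) →L[ℝ] (Fin n → ℝ))) = ψ := by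
      funext x
      simp
    rw [this]
    exact hψ.lipschitzOnWith
  refine ⟨h1.toHomeomorph _ ?_, fun x => rfl⟩
  rcases subsingleton_or_nontrivial (Fin n → ℝ) with h | h
  · exact Or.inl h
  · right
    have : ‖(((ContinuousLinearEquiv.refl ℝ (Fin n → ℝ)).symm :
        (Fin n → ℝ) ≃L[ℝ] (Fin n → ℝ)) : (Fin n → ℝ) →L[ℝ] (Fin n → ℝ))‖₊ = 1 := by
      ext
      rw [coe_nnnorm]
      exact ContinuousLinearMap.norm_id
    rw [this]
    simpa using hK

lemma lip_mem {n : ℕ} {ψ : (Fin n → ℝ) → (Fin n → ℝ)} {K : ℝ≥0} (hψ : LipschitzWith K ψ)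
    (hK : K < 1) : ∃ h ∈ GA n, ∀ x, h x = x + ψ x := by
  have h1 : ∀ k : ℕ, LipschitzWith K (fun x (j : Fin n) => if (j : ℕ) < k then ψ x j else 0) := by
    intro k
    refine LipschitzWith.of_dist_le_mul fun x y => ?_
    refine (dist_pi_le_iff (mul_nonneg K.2 dist_nonneg)).2 fun i => ?_
    by_cases hi : (i : ℕ) < k
    · simp only [hi, if_true]
      exact (dist_le_pi_dist _ _ i).trans (hψ.dist_le_mul x y)
    · simp only [hi, if_false, dist_self]
      exact mul_nonneg K.2 dist_nonneg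
  choose g hg using fun k => toHomeo_apply (h1 k) hK
  refine ⟨g n, tele g ?_ ?_, ?_⟩
  · ext x j
    rw [hg]
    simp
  · intro k hk x j hj
    rw [hg, hg]
    have : (j : ℕ) ≠ k := fun h => hj (Fin.ext h)
    have h2 : ((j : ℕ) < k + 1) ↔ ((j : ℕ) < k) := by omega
    simp only [Pi.add_apply, h2]
  · intro x
    rw [hg]
    ext j
    simp

/-- linear maps -/
def LinP (n : ℕ) (M : Matrix (Fin n) (Fin n) ℝ) : Prop :=
  ∃ h ∈ GA n, ∀ x, h x = M.mulVec x

lemma linP_one (n : ℕ) : LinP n 1 := ⟨1, Subgroup.one_mem _, fun x => by simp⟩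

lemma linP_mul {n : ℕ} {M N : Matrix (Fin n) (Fin n) ℝ} (hM : LinP n M) (hN : LinP n N) :
    LinP n (M * N) := by
  obtain ⟨h, hh, h1⟩ := hM
  obtain ⟨k, hk, k1⟩ := hN
  refine ⟨h * k, Subgroup.mul_mem _ hh hk, fun x => ?_⟩
  rw [Homeomorph.mul_apply, k1, h1, Matrix.mulVec_mulVec]

lemma linP_transvection {n : ℕ} (t : Matrix.TransvectionStruct (Fin n) ℝ) :
    LinP n t.toMatrix := by
  obtain ⟨i, j, hij, c⟩ := t
  have hi : Continuous (fun x : Fin n → ℝ => (Matrix.transvection i j c).mulVec x) := by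
    fun_prop
  have hi' : Continuous (fun x : Fin n → ℝ => (Matrix.transvection i j (-c)).mulVec x) := by
    fun_prop
  refine ⟨⟨⟨fun x => (Matrix.transvection i j c).mulVec x,
    fun x => (Matrix.transvection i j (-c)).mulVec x, fun x => ?_, fun x => ?_⟩, hi, hi'⟩,
    Subgroup.subset_closure ⟨i, fun x k hk => ?_⟩, fun x => rfl⟩
  · simp [Matrix.mulVec_mulVec, Matrix.transvection_mul_transvection_same _ _ hij]
  · simp [Matrix.mulVec_mulVec, Matrix.transvection_mul_transvection_same _ _ hij]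
  · show (Matrix.transvection i j c).mulVec x k = x k
    rw [Matrix.transvection, Matrix.add_mulVec]
    simp [Matrix.single_mulVec, hk]

lemma linP_diagonal {n : ℕ} (D : Fin n → ℝ) (hD : ∀ i, D i ≠ 0) :
    LinP n (Matrix.diagonal D) := by
  have h1 : ∀ k : ℕ, ∃ h : (Fin n → ℝ) ≃ₜ (Fin n → ℝ),
      ∀ x j, h x j = (if (j : ℕ) < k then D j else 1) * x j := by
    intro k
    have hc : Continuous (fun (x : Fin n → ℝ) (j : Fin n) => (if (j : ℕ) < k then D j else 1) * x j) := by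
      fun_prop
    have hc' : Continuous (fun (x : Fin n → ℝ) (j : Fin n) => (if (j : ℕ) < k then D j else 1)⁻¹ * x j) := by
      fun_prop
    refine ⟨⟨⟨fun x j => (if (j : ℕ) < k then D j else 1) * x j,
      fun x j => (if (j : ℕ) < k then D j else 1)⁻¹ * x j, fun x => ?_, fun x => ?_⟩, hc, hc'⟩,
      fun x j => rfl⟩
    · funext j
      have : (if (j : ℕ) < k then D j else 1) ≠ 0 := by split_ifs <;> simp [hD]
      show _⁻¹ * (_ * x j) = x j
      field_simp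
    · funext j
      have : (if (j : ℕ) < k then D j else 1) ≠ 0 := by split_ifs <;> simp [hD]
      show _ * (_⁻¹ * x j) = x j
      field_simp
  choose g hg using h1
  refine ⟨g n, tele g ?_ ?_, ?_⟩
  · ext x j
    rw [hg]
    simp
  · intro k hk x j hj
    rw [hg, hg]
    have : (j : ℕ) ≠ k := fun h => hj (Fin.ext h)
    have h2 : ((j : ℕ) < k + 1) ↔ ((j : ℕ) < k) := by omega
    simp [h2]
  · intro x
    ext j
    rw [hg]
    simp [Matrix.mulVec_diagonal]

lemma linP_list {n : ℕ} (L : List (Matrix.TransvectionStruct (Fin n) ℝ)) :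
    LinP n (L.map Matrix.TransvectionStruct.toMatrix).prod := by
  induction L with
  | nil => simpa using linP_one n
  | cons t L ih =>
    rw [List.map_cons, List.prod_cons]
    exact linP_mul (linP_transvection t) ih

lemma linP_of_det {n : ℕ} (M : Matrix (Fin n) (Fin n) ℝ) (hM : M.det ≠ 0) : LinP n M := by
  obtain ⟨L, L', D, h⟩ := Matrix.Pivot.exists_list_transvec_mul_diagonal_mul_list_transvec M
  rw [h]
  refine linP_mul (linP_mul (linP_list L) (linP_diagonal D ?_)) (linP_list L')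
  intro i hi
  apply hM
  rw [h, Matrix.det_mul, Matrix.det_mul, Matrix.det_diagonal, Finset.prod_eq_zero (Finset.mem_univ i) hi]
  simp


/-- The Alexander-type isotopy `F_t(x) = f(t x)/t`, `F_0 = Df(0)`. -/
noncomputable def Fam {n : ℕ} (f : (Fin n → ℝ) → (Fin n → ℝ)) (t : ℝ) (x : Fin n → ℝ) :
    Fin n → ℝ := if t = 0 then fderiv ℝ f 0 x else t⁻¹ • f (t • x)

lemma fam_hasFDerivAt {n : ℕ} {f : (Fin n → ℝ) → (Fin n → ℝ)} (hf : ContDiff ℝ 1 f) (t : ℝ)
    (x : Fin n → ℝ) : HasFDerivAt (Fam f t) (fderiv ℝ f (t • x)) x := by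
  by_cases ht : t = 0
  · subst ht
    have : Fam f 0 = fun x => fderiv ℝ f 0 x := by funext x; simp [Fam]
    rw [this, zero_smul]
    exact (fderiv ℝ f 0).hasFDerivAt
  · have h0 : Fam f t = fun x => t⁻¹ • f (t • x) := by funext x; simp [Fam, ht]
    rw [h0]
    have h1 : HasFDerivAt f (fderiv ℝ f (t • x)) (t • x) :=
      (hf.differentiable (by norm_num) _).hasFDerivAt
    have h2 : HasFDerivAt (fun y : Fin n → ℝ => t • y) (t • ContinuousLinearMap.id ℝ (Fin n → ℝ)) x :=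
      (hasFDerivAt_id x).const_smul t
    have h3 := (h1.comp x h2).const_smul t⁻¹
    convert! h3 using 1
    ext v
    simp [ht]

lemma exists_bound {n : ℕ} {f : (Fin n → ℝ) → (Fin n → ℝ)} (hf : ContDiff ℝ 1 f) (R : ℝ) :
    ∃ L : ℝ, 0 < L ∧ ∀ x ∈ closedBall (0 : Fin n → ℝ) R, ‖fderiv ℝ f x‖ ≤ L := by
  have hc : Continuous (fun x => ‖fderiv ℝ f x‖) := (hf.continuous_fderiv (by norm_num)).norm
  obtain ⟨C, hC⟩ := (isCompact_closedBall (0 : Fin n → ℝ) R).bddAbove_image hc.continuousOn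
  refine ⟨max C 1, by positivity, fun x hx => le_max_of_le_left (hC (mem_image_of_mem _ hx))⟩

lemma fam_lower {n : ℕ} (f : (Fin n → ℝ) ≃ₜ (Fin n → ℝ)) (hf : ContDiff ℝ 1 f)
    (hf' : ContDiff ℝ 1 f.symm) (h0 : f 0 = 0) (R : ℝ) :
    ∃ L : ℝ, 0 < L ∧ ∀ t ∈ Icc (0:ℝ) 1, ∀ x ∈ closedBall (0 : Fin n → ℝ) R,
      ∀ y ∈ closedBall (0 : Fin n → ℝ) R, ‖x - y‖ ≤ L * ‖Fam f t x - Fam f t y‖ := by
  have hb : ∃ M : ℝ, ∀ x ∈ closedBall (0 : Fin n → ℝ) R, f x ∈ closedBall (0 : Fin n → ℝ) M := by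
    obtain ⟨C, hC⟩ := (isCompact_closedBall (0 : Fin n → ℝ) R).bddAbove_image
      (f.continuous.norm.continuousOn)
    exact ⟨C, fun x hx => by simpa using hC (mem_image_of_mem _ hx)⟩
  obtain ⟨M, hM⟩ := hb
  obtain ⟨L, hL, hLb⟩ := exists_bound hf' (max M 0)
  have hs0 : f.symm 0 = 0 := by rw [Homeomorph.symm_apply_eq, h0]
  refine ⟨L, hL, fun t ht x hx y hy => ?_⟩
  by_cases ht0 : t = 0
  · subst ht0
    have h1 : ∀ v, fderiv ℝ f.symm 0 (fderiv ℝ f 0 v) = v := by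
      intro v
      have e1 : HasFDerivAt f (fderiv ℝ f 0) 0 := (hf.differentiable (by norm_num) _).hasFDerivAt
      have e2 : HasFDerivAt f.symm (fderiv ℝ f.symm 0) (f 0) := by
        rw [h0]; exact (hf'.differentiable (by norm_num) _).hasFDerivAt
      have e3 := e2.comp 0 e1
      have e4 : (f.symm ∘ f) = id := by funext x; simp
      rw [e4] at e3
      have e5 := e3.unique (hasFDerivAt_id 0)
      have := congrArg (fun A : (Fin n → ℝ) →L[ℝ] (Fin n → ℝ) => A v) e5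
      simpa using this
    have h2 : Fam f 0 x - Fam f 0 y = fderiv ℝ f 0 (x - y) := by simp [Fam]
    rw [h2]
    calc ‖x - y‖ = ‖fderiv ℝ f.symm 0 (fderiv ℝ f 0 (x - y))‖ := by rw [h1]
      _ ≤ ‖fderiv ℝ f.symm 0‖ * ‖fderiv ℝ f 0 (x - y)‖ := ContinuousLinearMap.le_opNorm _ _
      _ ≤ L * ‖fderiv ℝ f 0 (x - y)‖ := by
        gcongr
        exact hLb 0 (by simp)
  · have htp : 0 < t := lt_of_le_of_ne ht.1 (Ne.symm ht0)
    have hsc : ∀ z ∈ closedBall (0 : Fin n → ℝ) R, t • z ∈ closedBall (0 : Fin n → ℝ) R := by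
      intro z hz
      rw [mem_closedBall_zero_iff] at hz ⊢
      rw [norm_smul, Real.norm_eq_abs, abs_of_pos htp]
      nlinarith [norm_nonneg z, ht.2]
    have hmem : ∀ z ∈ closedBall (0 : Fin n → ℝ) R, f z ∈ closedBall (0 : Fin n → ℝ) (max M 0) :=
      fun z hz => closedBall_subset_closedBall (le_max_left _ _) (hM z hz)
    have h1 := Convex.norm_image_sub_le_of_norm_fderiv_le (𝕜 := ℝ) (f := f.symm)
      (fun z _ => hf'.differentiable (by norm_num) z) hLb (convex_closedBall (0 : Fin n → ℝ) (max M 0))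
      (hmem _ (hsc y hy)) (hmem _ (hsc x hx))
    rw [Homeomorph.symm_apply_apply, Homeomorph.symm_apply_apply, ← smul_sub, norm_smul,
      Real.norm_eq_abs, abs_of_pos htp] at h1
    have h2 : ‖Fam f t x - Fam f t y‖ = t⁻¹ * ‖f (t • x) - f (t • y)‖ := by
      simp only [Fam, ht0, if_false]
      rw [← smul_sub, norm_smul, Real.norm_eq_abs, abs_of_pos (inv_pos.2 htp)]
    rw [h2]
    calc ‖x - y‖ = t⁻¹ * (t * ‖x - y‖) := by field_simp
      _ ≤ t⁻¹ * (L * ‖f (t • x) - f (t • y)‖) := by gcongr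
      _ = _ := by ring

lemma fam_close {n : ℕ} (f : (Fin n → ℝ) → (Fin n → ℝ)) (hf : ContDiff ℝ 1 f) (R : ℝ) (hR : 0 ≤ R)
    {ε : ℝ} (hε : 0 < ε) : ∃ δ : ℝ, 0 < δ ∧ ∀ s ∈ Icc (0:ℝ) 1, ∀ t ∈ Icc (0:ℝ) 1, |t - s| < δ →
      ∀ x ∈ closedBall (0 : Fin n → ℝ) R, ∀ y ∈ closedBall (0 : Fin n → ℝ) R,
        ‖(Fam f t x - Fam f s x) - (Fam f t y - Fam f s y)‖ ≤ ε * ‖x - y‖ := by
  have huc : UniformContinuousOn (fderiv ℝ f) (closedBall (0 : Fin n → ℝ) R) :=
    (isCompact_closedBall _ _).uniformContinuousOn_of_continuous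
      (hf.continuous_fderiv (by norm_num)).continuousOn
  rw [Metric.uniformContinuousOn_iff_le] at huc
  obtain ⟨δ, hδ, hδ'⟩ := huc ε hε
  refine ⟨δ / (R + 1), by positivity, fun s hs t ht hst x hx y hy => ?_⟩
  have hsc : ∀ r ∈ Icc (0:ℝ) 1, ∀ z ∈ closedBall (0 : Fin n → ℝ) R,
      r • z ∈ closedBall (0 : Fin n → ℝ) R := by
    intro r hr z hz
    rw [mem_closedBall_zero_iff] at hz ⊢
    rw [norm_smul, Real.norm_eq_abs, abs_of_nonneg hr.1]
    nlinarith [norm_nonneg z, hr.2]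
  refine Convex.norm_image_sub_le_of_norm_hasFDerivWithin_le (𝕜 := ℝ)
    (f := fun x => Fam f t x - Fam f s x) (f' := fun x => fderiv ℝ f (t • x) - fderiv ℝ f (s • x))
    (s := closedBall (0 : Fin n → ℝ) R) (C := ε)
    (fun z _ => ((fam_hasFDerivAt hf t z).sub (fam_hasFDerivAt hf s z)).hasFDerivWithinAt) ?_
    (convex_closedBall _ _) hy hx
  intro z hz
  have := hδ' (t • z) (hsc t ht z hz) (s • z) (hsc s hs z hz) ?_
  · rwa [dist_eq_norm] at this
  · rw [dist_eq_norm, ← sub_smul, norm_smul, Real.norm_eq_abs]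
    rw [mem_closedBall_zero_iff] at hz
    calc |t - s| * ‖z‖ ≤ δ / (R + 1) * R := by gcongr
      _ ≤ δ := by
        rw [div_mul_eq_mul_div, div_le_iff₀ (by positivity)]
        nlinarith

lemma diff_mem_aux {n : ℕ} (f : (Fin n → ℝ) ≃ₜ (Fin n → ℝ)) (hf : ContDiff ℝ 1 f)
    (hf' : ContDiff ℝ 1 f.symm) (h0 : f 0 = 0) (R : ℝ) (hR : 0 ≤ R) :
    ∃ h ∈ GA n, ∀ x ∈ closedBall (0 : Fin n → ℝ) R, h x = f x := by
  obtain ⟨L, hL, hlow⟩ := fam_lower f hf hf' h0 R
  obtain ⟨δ, hδ, hclose⟩ := fam_close f hf R hR (ε := 1 / (2 * L)) (by positivity)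
  obtain ⟨N, hN⟩ := exists_nat_gt (1 / δ)
  have hNpos : (0 : ℝ) < N := lt_trans (by positivity) hN
  have key : ∀ k : ℕ, k ≤ N → ∃ h ∈ GA n,
      ∀ x ∈ closedBall (0 : Fin n → ℝ) R, h x = Fam f ((k : ℝ) / N) x := by
    intro k
    induction k with
    | zero =>
      intro _
      have h1 : ∀ v, fderiv ℝ f.symm 0 (fderiv ℝ f 0 v) = v := by
        intro v
        have e1 : HasFDerivAt f (fderiv ℝ f 0) 0 := (hf.differentiable (by norm_num) _).hasFDerivAt
        have e2 : HasFDerivAt f.symm (fderiv ℝ f.symm 0) (f 0) := by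
          rw [h0]; exact (hf'.differentiable (by norm_num) _).hasFDerivAt
        have e3 := e2.comp 0 e1
        have e4 : (f.symm ∘ f) = id := by funext x; simp
        rw [e4] at e3
        have e5 := e3.unique (hasFDerivAt_id 0)
        have := congrArg (fun A : (Fin n → ℝ) →L[ℝ] (Fin n → ℝ) => A v) e5
        simpa using this
      set A : (Fin n → ℝ) →ₗ[ℝ] (Fin n → ℝ) := (fderiv ℝ f 0).toLinearMap with hA
      set B : (Fin n → ℝ) →ₗ[ℝ] (Fin n → ℝ) := (fderiv ℝ f.symm 0).toLinearMap with hB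
      have hBA : B ∘ₗ A = LinearMap.id := by
        apply LinearMap.ext
        intro v
        exact h1 v
      have hdet : (LinearMap.toMatrix' A).det ≠ 0 := by
        intro hd
        have h2 : LinearMap.toMatrix' B * LinearMap.toMatrix' A = 1 := by
          rw [← LinearMap.toMatrix'_comp, hBA, LinearMap.toMatrix'_id]
        have h3 := congrArg Matrix.det h2
        rw [Matrix.det_mul, hd, mul_zero, Matrix.det_one] at h3
        exact zero_ne_one h3
      obtain ⟨h, hh, hx⟩ := linP_of_det _ hdet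
      refine ⟨h, hh, fun x _ => ?_⟩
      rw [hx]
      have : (LinearMap.toMatrix' A).mulVec x = A x := by
        rw [← Matrix.toLin'_apply, Matrix.toLin'_toMatrix']
      rw [this]
      simp [Fam, hA]
    | succ k ih =>
      intro hk
      obtain ⟨h, hh, hx⟩ := ih (Nat.le_of_succ_le hk)
      have hkN : (k : ℝ) + 1 ≤ N := by exact_mod_cast hk
      have hs : (k : ℝ) / N ∈ Icc (0:ℝ) 1 := by
        refine ⟨by positivity, ?_⟩
        rw [div_le_one hNpos]; linarith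
      have ht : ((k + 1 : ℕ) : ℝ) / N ∈ Icc (0:ℝ) 1 := by
        refine ⟨by positivity, ?_⟩
        rw [div_le_one hNpos]; push_cast; linarith
      have hst : |((k + 1 : ℕ) : ℝ) / N - (k : ℝ) / N| < δ := by
        have : ((k + 1 : ℕ) : ℝ) / N - (k : ℝ) / N = 1 / N := by push_cast; ring
        rw [this, abs_of_pos (by positivity)]
        rw [div_lt_iff₀ hNpos]
        rw [div_lt_iff₀ hδ] at hN
        linarith
      have hc := hclose _ hs _ ht hst
      have hlip : LipschitzOnWith (1/2) (fun y => Fam f (((k + 1 : ℕ) : ℝ) / N) (h.symm y) - y)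
          (h '' closedBall (0 : Fin n → ℝ) R) := by
        refine LipschitzOnWith.of_dist_le_mul ?_
        rintro _ ⟨x, hxm, rfl⟩ _ ⟨y, hym, rfl⟩
        rw [Homeomorph.symm_apply_apply, Homeomorph.symm_apply_apply, dist_eq_norm, dist_eq_norm,
          hx x hxm, hx y hym]
        calc _ ≤ 1 / (2 * L) * ‖x - y‖ := hc x hxm y hym
          _ ≤ 1 / (2 * L) * (L * ‖Fam f ((k : ℝ) / N) x - Fam f ((k : ℝ) / N) y‖) := by
            gcongr
            exact hlow _ hs x hxm y hym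
          _ = _ := by
            push_cast
            field_simp
      obtain ⟨ψ, hψ, hψe⟩ := hlip.extend_pi
      obtain ⟨H, hH, hHx⟩ := lip_mem hψ (by rw [← NNReal.coe_lt_coe]; norm_num)
      refine ⟨H * h, Subgroup.mul_mem _ hH hh, fun x hxm => ?_⟩
      rw [Homeomorph.mul_apply, hHx, ← hψe (mem_image_of_mem _ hxm)]
      simp
  obtain ⟨h, hh, hx⟩ := key N le_rfl
  refine ⟨h, hh, fun x hxm => ?_⟩
  rw [hx x hxm, div_self hNpos.ne']
  simp [Fam]

lemma translation_mem {n : ℕ} (a : Fin n → ℝ) :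
    ∃ h ∈ GA n, ∀ x, h x = x + a :=
  lip_mem (ψ := fun _ => a) (K := 0) (LipschitzWith.const a) zero_lt_one

theorem diff_mem {n : ℕ} (f : (Fin n → ℝ) ≃ₜ (Fin n → ℝ)) (hf : ContDiff ℝ 1 f)
    (hf' : ContDiff ℝ 1 f.symm) (B : Set (Fin n → ℝ)) (hB : Bornology.IsBounded B) :
    ∃ h ∈ GA n, ∀ x ∈ B, h x = f x := by
  obtain ⟨R, hR⟩ := hB.subset_closedBall 0
  obtain ⟨τ, hτ, hτx⟩ := translation_mem (-(f 0))
  set f₁ : (Fin n → ℝ) ≃ₜ (Fin n → ℝ) := τ * f with hf₁
  have e1 : ∀ x, f₁ x = f x + -(f 0) := fun x => by rw [hf₁, Homeomorph.mul_apply, hτx]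
  have e2 : ∀ x, f₁.symm x = f.symm (x + f 0) := by
    intro x
    rw [Homeomorph.symm_apply_eq, e1]
    simp
  have c1 : ContDiff ℝ 1 f₁ := by
    have : (f₁ : (Fin n → ℝ) → (Fin n → ℝ)) = fun x => f x + -(f 0) := funext e1
    rw [this]
    exact hf.add contDiff_const
  have c2 : ContDiff ℝ 1 f₁.symm := by
    have : (f₁.symm : (Fin n → ℝ) → (Fin n → ℝ)) = fun x => f.symm (x + f 0) := funext e2
    rw [this]
    exact hf'.comp (contDiff_id.add contDiff_const)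
  obtain ⟨h, hh, hx⟩ := diff_mem_aux f₁ c1 c2 (by rw [e1]; simp) (max R 0) (le_max_right _ _)
  refine ⟨τ⁻¹ * h, Subgroup.mul_mem _ (Subgroup.inv_mem _ hτ) hh, fun x hxB => ?_⟩
  rw [Homeomorph.mul_apply, hx x (closedBall_subset_closedBall (le_max_left _ _) (hR hxB)), hf₁,
    Homeomorph.mul_apply]
  simp

end Pool.Agent.CoordMaps
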