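import Pool.Agent.CoordMaps.TypeB
import Pool.Agent.CoordMaps.Smooth

namespace Pool.Agent.CoordMaps

open Set Metric Topology NNReal

lemma approxBy_iff {n : ℕ} (S : Set (Homeo n)) (h : Homeo n) : ApproxBy S h ↔
    ∀ R ε : ℝ, 0 < ε → ∃ g ∈ S, ∀ p ∈ closedBall (0 : Fin n → ℝ) R, ‖g p - h p‖ < ε := by
  constructor
  · intro H R ε hε
    obtain ⟨g, hg, h1⟩ := H (closedBall 0 R) isBounded_closedBall ε hε
    refine ⟨g, hg, fun p hp => (pi_norm_lt_iff hε).2 fun i => ?_⟩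
    refine lt_of_le_of_lt ?_ (h1 p hp)
    rw [Pi.sub_apply, Real.norm_eq_abs]
    apply Real.abs_le_sqrt
    exact Finset.single_le_sum (f := fun i => (g p i - h p i) ^ 2) (fun i _ => sq_nonneg _)
      (Finset.mem_univ i)
  · intro H B hB ε hε
    obtain ⟨R, hR⟩ := hB.subset_closedBall 0
    obtain ⟨g, hg, h1⟩ := H R (ε / (n + 1)) (by positivity)
    refine ⟨g, hg, fun p hp => ?_⟩
    have h2 := h1 p (hR hp)
    rw [Real.sqrt_lt' hε]
    have hn : (0 : ℝ) < n + 1 := by positivity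
    calc ∑ i, (g p i - h p i) ^ 2 ≤ ∑ i : Fin n, (ε / (n + 1)) ^ 2 := by
          refine Finset.sum_le_sum fun i _ => ?_
          have h3 : |g p i - h p i| ≤ ε / (n + 1) := (norm_le_pi_norm (g p - h p) i).trans h2.le
          exact sq_le_sq' (abs_le.1 h3).1 (abs_le.1 h3).2
      _ = n * (ε / (n + 1)) ^ 2 := by simp
      _ < ε ^ 2 := by
        rw [div_pow, ← mul_div_assoc, div_lt_iff₀ (by positivity)]
        have h4 : (n : ℝ) < (n + 1) ^ 2 := by nlinarith [Nat.cast_nonneg (α := ℝ) n]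
        have h5 : 0 < ε ^ 2 := by positivity
        nlinarith

lemma approxBy_group {n : ℕ} (G : Subgroup (Homeo n)) (h : Homeo n) :
    ApproxBy (G : Set (Homeo n)) h ↔ h ∈ cl G := approxBy_iff _ _

lemma ApproxBy.of_subset_cl {n : ℕ} {S : Set (Homeo n)} {G : Subgroup (Homeo n)}
    (hS : ∀ g ∈ S, g ∈ cl G) {h : Homeo n} (H : ApproxBy S h) : ApproxBy (G : Set (Homeo n)) h := by
  rw [approxBy_group]
  refine Appr.of_cl fun R ε hε => ?_
  obtain ⟨g, hg, h1⟩ := (approxBy_iff _ _).1 H R ε hε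
  exact ⟨g, hS g hg, h1⟩

lemma ga_hasLip (n : ℕ) : HasLip (GA n) := by
  intro ψ K hK hψ
  have h1 : LipschitzWith ⟨max K 0, le_max_right _ _⟩ ψ := by
    refine LipschitzWith.of_dist_le_mul fun x y => ?_
    rw [dist_eq_norm, dist_eq_norm]
    refine (hψ x y).trans ?_
    exact mul_le_mul_of_nonneg_right (le_max_left _ _) (norm_nonneg _)
  refine lip_mem h1 ?_
  rw [← NNReal.coe_lt_coe]
  exact max_lt hK zero_lt_one

lemma ga_hasLin (n : ℕ) : HasLin (GA n) :=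
  hasLin_of (GA n) (fun t => linP_transvection t) (fun D hD => linP_diagonal D hD)

lemma piecewiseAffine_isPL {n : ℕ} {h : Homeo n} (hh : h ∈ PiecewiseAffine n) : IsPL h := by
  obtain ⟨ι, T, hT, hcov, haff⟩ := hh
  choose M b hMb using haff
  intro R
  have hfin := hT.finite_nonempty_inter_compact (isCompact_closedBall (0 : Fin n → ℝ) R)
  refine ⟨(fun i => (LinearMap.toContinuousLinearMap (Matrix.toLin' (M i)), b i)) ''
    {i | (T i ∩ closedBall 0 R).Nonempty}, hfin.image _, fun x hx => ?_⟩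
  have hx' : x ∈ ⋃ i, T i := by rw [hcov]; exact mem_univ x
  obtain ⟨i, hi⟩ := mem_iUnion.1 hx'
  refine ⟨_, mem_image_of_mem _ (show (T i ∩ closedBall 0 R).Nonempty from ⟨x, hi, hx⟩), ?_⟩
  rw [hMb i x hi]
  rfl

theorem piecewiseAffine_mem {n : ℕ} {h : Homeo n} (hh : h ∈ PiecewiseAffine n) : h ∈ cl (GA n) :=
  pl_mem (ga_hasLip n) (ga_hasLin n) h (piecewiseAffine_isPL hh)

theorem diffeo_mem {n : ℕ} {k : ℕ∞} (hk : 1 ≤ k) {h : Homeo n} (hh : h ∈ Diffeo n k) :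
    h ∈ cl (GA n) := by
  have hk' : (1 : WithTop ℕ∞) ≤ ((k : ℕ∞) : WithTop ℕ∞) := by exact_mod_cast hk
  intro R ε hε
  obtain ⟨g, hg, h1⟩ := diff_mem h (hh.1.of_le hk') (hh.2.of_le hk') (closedBall 0 R)
    isBounded_closedBall
  exact ⟨g, hg, fun p hp => by rw [h1 p hp, sub_self, norm_zero]; exact hε⟩

end Pool.Agent.CoordMaps
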