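import Pool.Agent.CoordMaps.Bridge

namespace Pool.Agent.CoordMaps

open Set Metric Topology NNReal MeasureTheory Convolution ContinuousLinearMap

/-- smoothing of a function that is monotone in the `i`-th coordinate. -/
lemma exists_smooth {n : ℕ} (i : Fin n) (φ : (Fin n → ℝ) → ℝ) (hφ : Continuous φ) (σ : ℝ)
    (hσ : σ = 1 ∨ σ = -1)
    (hmono : ∀ x s t, s ≤ t → σ * φ (Function.update x i s) ≤ σ * φ (Function.update x i t))
    (R : ℝ) {ε : ℝ} (hε : 0 < ε) :
    ∃ (ψ : (Fin n → ℝ) → ℝ) (η : ℝ), 0 < η ∧ ContDiff ℝ ((⊤ : ℕ∞) : WithTop ℕ∞) ψ ∧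
      (∀ x s t, s ≤ t → η * (t - s) ≤
        σ * ψ (Function.update x i t) - σ * ψ (Function.update x i s)) ∧
      ∀ x ∈ closedBall (0 : Fin n → ℝ) R, |ψ x - φ x| < ε := by
  classical
  -- uniform continuity
  have huc : UniformContinuousOn φ (closedBall (0 : Fin n → ℝ) (R + 1)) :=
    (isCompact_closedBall _ _).uniformContinuousOn_of_continuous hφ.continuousOn
  rw [Metric.uniformContinuousOn_iff_le] at huc
  obtain ⟨δ, hδ, hu⟩ := huc (ε / 2) (half_pos hε)
  set r : ℝ := min δ 1 with hr
  have hrp : 0 < r := lt_min hδ one_pos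
  let b : ContDiffBump (0 : Fin n → ℝ) := ⟨r / 2, r, half_pos hrp, half_lt_self hrp⟩
  let μ : Measure (Fin n → ℝ) := volume
  set w : (Fin n → ℝ) → ℝ := b.normed μ with hw
  have hwc : HasCompactSupport w := b.hasCompactSupport_normed
  have hws : ContDiff ℝ ((⊤ : ℕ∞) : WithTop ℕ∞) w := b.contDiff_normed
  have hw0 : ∀ x, 0 ≤ w x := fun x => b.nonneg_normed x
  have hφl : LocallyIntegrable φ μ := hφ.locallyIntegrable
  set c : (Fin n → ℝ) → ℝ := (w ⋆[lsmul ℝ ℝ, μ] φ : (Fin n → ℝ) → ℝ) with hc
  have hcs : ContDiff ℝ ((⊤ : ℕ∞) : WithTop ℕ∞) c := hwc.contDiff_convolution_left _ hws hφl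
  have hcd : ∀ x, c x = ∫ y, w y * φ (x - y) ∂μ := by
    intro x
    rw [hc, convolution_def]
    rfl
  have hint : ∀ x, Integrable (fun y => w y * φ (x - y)) μ := by
    intro x
    have := hwc.convolutionExists_left (lsmul ℝ ℝ) hws.continuous hφl x
    exact this
  have hcm : ∀ x s t, s ≤ t → σ * c (Function.update x i s) ≤ σ * c (Function.update x i t) := by
    intro x s t hst
    rw [hcd, hcd, ← integral_const_mul, ← integral_const_mul]
    refine integral_mono ((hint _).const_mul σ) ((hint _).const_mul σ) fun y => ?_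
    have e : ∀ s, Function.update x i s - y = Function.update (x - y) i (s - y i) := by
      intro s
      ext j
      by_cases hj : j = i
      · subst hj; simp
      · simp [hj]
    simp only
    rw [e, e]
    have h1 := hmono (x - y) (s - y i) (t - y i) (by linarith)
    have h2 := mul_le_mul_of_nonneg_left h1 (hw0 y)
    linarith
  have hca : ∀ x ∈ closedBall (0 : Fin n → ℝ) R, |c x - φ x| ≤ ε / 2 := by
    intro x hx
    have := b.dist_normed_convolution_le (μ := μ) (g := φ) (x₀ := x) (ε := ε / 2)
      hφ.aestronglyMeasurable (fun y hy => by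
        have hy' : dist y x < r := hy
        refine hu y ?_ x ?_ (hy'.le.trans (min_le_left _ _))
        · rw [mem_closedBall_zero_iff] at hx ⊢
          rw [dist_eq_norm] at hy'
          calc ‖y‖ = ‖(y - x) + x‖ := by simp
            _ ≤ ‖y - x‖ + ‖x‖ := norm_add_le _ _
            _ ≤ 1 + R := add_le_add (hy'.le.trans (min_le_right _ _)) hx
            _ = R + 1 := by ring
        · exact closedBall_subset_closedBall (by linarith) hx)
    rwa [Real.dist_eq] at this
  have hσ2 : σ * σ = 1 := by rcases hσ with h | h <;> rw [h] <;> norm_num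
  have hσa : |σ| = 1 := by rcases hσ with h | h <;> rw [h] <;> simp
  set η : ℝ := ε / (4 * (max R 0 + 1)) with hη
  have hη0 : 0 < η := by rw [hη]; positivity
  refine ⟨fun x => c x + σ * η * x i, η, hη0, ?_, ?_, ?_⟩
  · exact hcs.add (contDiff_const.mul (contDiff_apply ℝ ℝ i))
  · intro x s t hst
    have h1 := hcm x s t hst
    simp only [Function.update_self]
    have e : σ * (c (Function.update x i t) + σ * η * t) - σ * (c (Function.update x i s) + σ * η * s)
      = (σ * c (Function.update x i t) - σ * c (Function.update x i s)) + (σ * σ) * η * (t - s) := by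
      ring
    rw [e, hσ2]
    linarith
  · intro x hx
    have h1 := hca x hx
    have h2 : |x i| ≤ max R 0 := by
      rw [mem_closedBall_zero_iff] at hx
      exact ((norm_le_pi_norm x i).trans hx).trans (le_max_left _ _)
    have e : c x + σ * η * x i - φ x = (c x - φ x) + σ * η * x i := by ring
    rw [e]
    calc _ ≤ |c x - φ x| + |σ * η * x i| := abs_add_le _ _
      _ = |c x - φ x| + η * |x i| := by rw [abs_mul, abs_mul, hσa, abs_of_pos hη0, one_mul]
      _ ≤ ε / 2 + η * max R 0 := by gcongr
      _ < ε := by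
        have h3 : η * max R 0 ≤ ε / 4 := by
          rw [hη, div_mul_eq_mul_div, div_le_div_iff₀ (by positivity) (by norm_num)]
          have := le_max_right R 0
          nlinarith
        linarith


lemma exists_diffeo {n : ℕ} (i : Fin n) (ψ : (Fin n → ℝ) → ℝ)
    (hψ : ContDiff ℝ ((⊤ : ℕ∞) : WithTop ℕ∞) ψ) (σ : ℝ) (hσ : σ = 1 ∨ σ = -1) {η : ℝ} (hη : 0 < η)
    (hmono : ∀ x s t, s ≤ t → η * (t - s) ≤
        σ * ψ (Function.update x i t) - σ * ψ (Function.update x i s)) :
    ∃ g : Homeo n, ContDiff ℝ ((⊤ : ℕ∞) : WithTop ℕ∞) g ∧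
      ContDiff ℝ ((⊤ : ℕ∞) : WithTop ℕ∞) g.symm ∧ ∀ x, g x = Function.update x i (ψ x) := by
  classical
  have hσ0 : σ ≠ 0 := by rcases hσ with h | h <;> rw [h] <;> norm_num
  set G : (Fin n → ℝ) → (Fin n → ℝ) := fun x => Function.update x i (ψ x) with hG
  set e : Fin n → ℝ := Pi.single i 1 with he
  have hGe : ∀ x, G x = x + (ψ x - x i) • e := by
    intro x
    ext j
    by_cases hj : j = i
    · subst hj; simp [hG, he]
    · simp [hG, he, hj]
  have hGs : ContDiff ℝ ((⊤ : ℕ∞) : WithTop ℕ∞) G := by
    have : G = fun x => x + (ψ x - x i) • e := funext hGe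
    rw [this]
    exact contDiff_id.add ((hψ.sub (contDiff_apply ℝ ℝ i)).smul contDiff_const)
  -- injectivity
  have hinj : Function.Injective G := by
    intro x x' h
    have h1 : ∀ j, j ≠ i → x j = x' j := by
      intro j hj
      have := congrFun h j
      simpa [hG, hj] using this
    have h2 : ψ x = ψ x' := by
      have := congrFun h i
      simpa [hG] using this
    have hx : x = Function.update x i (x i) := by simp
    have hx' : x' = Function.update x i (x' i) := by
      ext j
      by_cases hj : j = i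
      · subst hj; simp
      · simp [hj, h1 j hj]
    have h3 : x i = x' i := by
      rcases lt_trichotomy (x i) (x' i) with h4 | h4 | h4
      · have := hmono x (x i) (x' i) h4.le
        rw [← hx, ← hx', h2, sub_self] at this
        have : 0 < η * (x' i - x i) := mul_pos hη (by linarith)
        linarith
      · exact h4
      · have := hmono x (x' i) (x i) h4.le
        rw [← hx, ← hx', h2, sub_self] at this
        have : 0 < η * (x i - x' i) := mul_pos hη (by linarith)
        linarith
    rw [hx', ← h3, ← hx]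
  -- surjectivity
  have hsurj : Function.Surjective G := by
    intro y
    have hcont : Continuous fun t : ℝ => σ * ψ (Function.update y i t) :=
      continuous_const.mul (hψ.continuous.comp (continuous_const.update i continuous_id))
    have htop : Filter.Tendsto (fun t : ℝ => σ * ψ (Function.update y i t)) Filter.atTop
        Filter.atTop := by
      have h1 : Filter.Tendsto (fun t : ℝ => η * t + σ * ψ (Function.update y i 0)) Filter.atTop
          Filter.atTop :=
        Filter.tendsto_atTop_add_const_right _ _ (Filter.tendsto_id.const_mul_atTop hη)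
      refine Filter.tendsto_atTop_mono' _ ?_ h1
      filter_upwards [Filter.eventually_ge_atTop (0:ℝ)] with t ht
      have := hmono y 0 t ht
      linarith
    have hbot : Filter.Tendsto (fun t : ℝ => σ * ψ (Function.update y i t)) Filter.atBot
        Filter.atBot := by
      have h1 : Filter.Tendsto (fun t : ℝ => η * t + σ * ψ (Function.update y i 0)) Filter.atBot
          Filter.atBot :=
        Filter.tendsto_atBot_add_const_right _ _ (Filter.tendsto_id.const_mul_atBot hη)
      refine Filter.tendsto_atBot_mono' _ ?_ h1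
      filter_upwards [Filter.eventually_le_atBot (0:ℝ)] with t ht
      have := hmono y t 0 ht
      linarith
    obtain ⟨t, ht⟩ := hcont.surjective htop hbot (σ * y i)
    refine ⟨Function.update y i t, ?_⟩
    have ht' : ψ (Function.update y i t) = y i := mul_left_cancel₀ hσ0 ht
    show Function.update (Function.update y i t) i (ψ (Function.update y i t)) = y
    rw [ht']
    simp
  -- the derivative
  have hder : ∀ x, HasFDerivAt G (ContinuousLinearMap.id ℝ (Fin n → ℝ) +
      ((fderiv ℝ ψ x - ContinuousLinearMap.proj i).smulRight e)) x := by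
    intro x
    have : G = fun x => x + (ψ x - x i) • e := funext hGe
    rw [this]
    have h1 : HasFDerivAt ψ (fderiv ℝ ψ x) x :=
      (hψ.differentiable (by simp) x).hasFDerivAt
    have h2 : HasFDerivAt (fun x : Fin n → ℝ => x i) (ContinuousLinearMap.proj (R := ℝ) i) x :=
      (ContinuousLinearMap.proj (R := ℝ) (φ := fun _ : Fin n => ℝ) i).hasFDerivAt
    exact (hasFDerivAt_id x).add ((h1.sub h2).smul_const e)
  have hpos : ∀ x, fderiv ℝ ψ x e ≠ 0 := by
    intro x
    have h1 : HasFDerivAt ψ (fderiv ℝ ψ x) x :=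
      (hψ.differentiable (by simp) x).hasFDerivAt
    have h2 : HasDerivAt (fun t : ℝ => σ * ψ (x + t • e)) (σ * fderiv ℝ ψ x e) 0 := by
      have h3 : HasDerivAt (fun t : ℝ => x + t • e) e 0 := by
        simpa using ((hasDerivAt_id (0:ℝ)).smul_const e).const_add x
      have h4 : HasFDerivAt ψ (fderiv ℝ ψ x) (x + (0:ℝ) • e) := by simpa using h1
      exact (h4.comp_hasDerivAt (0:ℝ) h3).const_mul σ
    have h5 := h2.tendsto_slope_zero_right
    have h6 : η ≤ σ * fderiv ℝ ψ x e := by
      refine ge_of_tendsto h5 ?_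
      filter_upwards [self_mem_nhdsWithin] with t ht
      rw [mem_Ioi] at ht
      have e1 : ∀ t : ℝ, x + t • e = Function.update x i (x i + t) := by
        intro t
        ext j
        by_cases hj : j = i
        · subst hj; simp [he]
        · simp [he, hj]
      have h7 := hmono x (x i) (x i + t) (by linarith)
      rw [zero_add, e1, e1, add_zero, smul_eq_mul, inv_mul_eq_div, le_div_iff₀ ht]
      linarith
    intro h8
    rw [h8, mul_zero] at h6
    linarith
  have hequiv : ∀ x, ∃ A : (Fin n → ℝ) ≃L[ℝ] (Fin n → ℝ), HasFDerivAt G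
      (A : (Fin n → ℝ) →L[ℝ] (Fin n → ℝ)) x := by
    intro x
    set D : (Fin n → ℝ) →L[ℝ] (Fin n → ℝ) := ContinuousLinearMap.id ℝ (Fin n → ℝ) +
      ((fderiv ℝ ψ x - ContinuousLinearMap.proj i).smulRight e) with hD
    have hDi : Function.Injective D := by
      rw [injective_iff_map_eq_zero]
      intro v hv
      have hDv : D v = v + (fderiv ℝ ψ x v - v i) • e := by simp [hD]
      rw [hDv] at hv
      have h1 : ∀ j, j ≠ i → v j = 0 := by
        intro j hj
        have := congrFun hv j
        simpa [he, hj] using this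
      have h2 : v = v i • e := by
        ext j
        by_cases hj : j = i
        · subst hj; simp [he]
        · simp [he, hj, h1 j hj]
      have h3 : fderiv ℝ ψ x v = 0 := by
        have := congrFun hv i
        simpa [he] using this
      rw [h2, map_smul, smul_eq_mul] at h3
      rcases mul_eq_zero.1 h3 with h4 | h4
      · rw [h2, h4, zero_smul]
      · exact absurd h4 (hpos x)
    refine ⟨(LinearEquiv.ofInjectiveEndo D.toLinearMap hDi).toContinuousLinearEquiv, ?_⟩
    have : (((LinearEquiv.ofInjectiveEndo D.toLinearMap hDi).toContinuousLinearEquiv :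
        (Fin n → ℝ) ≃L[ℝ] (Fin n → ℝ)) : (Fin n → ℝ) →L[ℝ] (Fin n → ℝ)) = D := by
      ext v
      simp
    rw [this]
    exact hder x
  choose A hA using hequiv
  have hopen : IsOpenMap G := by
    refine isOpenMap_of_hasStrictFDerivAt_equiv (𝕜 := ℝ) (f' := A) fun x => ?_
    exact hGs.contDiffAt.hasStrictFDerivAt' (hA x) (by simp)
  let E : (Fin n → ℝ) ≃ (Fin n → ℝ) := Equiv.ofBijective G ⟨hinj, hsurj⟩
  let H : Homeo n := E.toHomeomorphOfContinuousOpen hGs.continuous hopen
  have hH : (H : (Fin n → ℝ) → (Fin n → ℝ)) = G := rfl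
  refine ⟨H, ?_, ?_, fun x => rfl⟩
  · rw [hH]; exact hGs
  · exact H.contDiff_symm (f₀' := A) (fun x => by rw [hH]; exact hA x) (by rw [hH]; exact hGs)


lemma typeA_form {n : ℕ} {g : Homeo n} {i : Fin n} (hi : ∀ x j, j ≠ i → g x j = x j)
    (x : Fin n → ℝ) : g x = Function.update x i (g x i) := by
  ext j
  by_cases hj : j = i
  · subst hj; simp
  · rw [hi x j hj]; simp [hj]

lemma typeA_sign {n : ℕ} {g : Homeo n} {i : Fin n} (hi : ∀ x j, j ≠ i → g x j = x j) :
    ∃ σ : ℝ, (σ = 1 ∨ σ = -1) ∧ ∀ x s t, s < t →
      σ * g (Function.update x i s) i < σ * g (Function.update x i t) i := by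
  have hcont : ∀ x : Fin n → ℝ, Continuous fun t : ℝ => g (Function.update x i t) i := fun x =>
    (continuous_apply i).comp (g.continuous.comp (continuous_const.update i continuous_id))
  have hinj : ∀ x : Fin n → ℝ, Function.Injective fun t : ℝ => g (Function.update x i t) i := by
    intro x s t h
    have h1 : g (Function.update x i s) = g (Function.update x i t) := by
      rw [typeA_form hi (Function.update x i s), typeA_form hi (Function.update x i t)]
      have h' : g (Function.update x i s) i = g (Function.update x i t) i := h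
      rw [h']
      simp
    have h2 := congrFun (g.injective h1) i
    simpa using h2
  have hdich : ∀ x : Fin n → ℝ, (StrictMono fun t : ℝ => g (Function.update x i t) i) ∨
      (StrictAnti fun t : ℝ => g (Function.update x i t) i) := fun x =>
    (hcont x).strictMono_of_inj (hinj x)
  set u : (Fin n → ℝ) → ℝ := fun x => g (Function.update x i 1) i - g (Function.update x i 0) i
    with hu
  have huc : Continuous u := by
    have h1 : ∀ t : ℝ, Continuous fun x : Fin n → ℝ => g (Function.update x i t) i := fun t =>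
      (continuous_apply i).comp (g.continuous.comp (continuous_id.update i continuous_const))
    exact (h1 1).sub (h1 0)
  have hu0 : ∀ x, u x ≠ 0 := by
    intro x h
    have h1 : (1 : ℝ) = 0 := hinj x (sub_eq_zero.1 h)
    exact one_ne_zero h1
  have hsign : (∀ x, 0 < u x) ∨ (∀ x, u x < 0) := by
    by_contra hcon
    push Not at hcon
    obtain ⟨⟨w₁, h1⟩, ⟨w₂, h2⟩⟩ := hcon
    obtain ⟨w, -, hw⟩ := isPreconnected_univ.intermediate_value (mem_univ w₁) (mem_univ w₂)
      huc.continuousOn ⟨h1, h2⟩
    exact hu0 w hw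
  rcases hsign with h | h
  · refine ⟨1, Or.inl rfl, fun x s t hst => ?_⟩
    rw [one_mul, one_mul]
    rcases hdich x with h1 | h1
    · exact h1 hst
    · have h2 : g (Function.update x i 1) i < g (Function.update x i 0) i :=
        h1 (show (0:ℝ) < 1 by norm_num)
      have h3 : 0 < g (Function.update x i 1) i - g (Function.update x i 0) i := h x
      linarith
  · refine ⟨-1, Or.inr rfl, fun x s t hst => ?_⟩
    rw [neg_one_mul, neg_one_mul]
    rcases hdich x with h1 | h1
    · have h2 : g (Function.update x i 0) i < g (Function.update x i 1) i :=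
        h1 (show (0:ℝ) < 1 by norm_num)
      have h3 : g (Function.update x i 1) i - g (Function.update x i 0) i < 0 := h x
      linarith
    · have := h1 hst
      simp only at this
      linarith

/-- the group of `C^k` diffeomorphisms -/
def DiffSub (n : ℕ) (k : ℕ∞) : Subgroup (Homeo n) where
  carrier := Diffeo n k
  mul_mem' := fun ha hb => ⟨ha.1.comp hb.1, hb.2.comp ha.2⟩
  one_mem' := ⟨contDiff_id, contDiff_id⟩
  inv_mem' := fun ha => ⟨ha.2, ha.1⟩

lemma mem_diffSub {n : ℕ} {k : ℕ∞} {h : Homeo n} : h ∈ DiffSub n k ↔ h ∈ Diffeo n k := Iff.rfl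

theorem typeA_mem_cl_diff {n : ℕ} (k : ℕ∞) {g : Homeo n} (hg : g ∈ TypeA n) :
    g ∈ cl (DiffSub n k) := by
  obtain ⟨i, hi⟩ := hg
  obtain ⟨σ, hσ, hσm⟩ := typeA_sign hi
  intro R ε hε
  obtain ⟨ψ, η, hη, hψ, hmono, happ⟩ := exists_smooth i (fun x => g x i)
    ((continuous_apply i).comp g.continuous) σ hσ (fun x s t hst => by
      rcases hst.lt_or_eq with h | h
      · exact (hσm x s t h).le
      · rw [h]) R hε
  obtain ⟨g', h1, h2, h3⟩ := exists_diffeo i ψ hψ σ hσ hη hmono
  have hk : ((k : ℕ∞) : WithTop ℕ∞) ≤ ((⊤ : ℕ∞) : WithTop ℕ∞) := by exact_mod_cast le_top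
  refine ⟨g', ⟨h1.of_le hk, h2.of_le hk⟩, fun p hp => ?_⟩
  refine (pi_norm_lt_iff hε).2 fun j => ?_
  rw [Pi.sub_apply, h3]
  by_cases hj : j = i
  · subst hj
    rw [Function.update_self]
    exact happ p hp
  · rw [Function.update_of_ne hj, hi p j hj, sub_self, norm_zero]
    exact hε

theorem ga_le_cl_diff (n : ℕ) (k : ℕ∞) : GA n ≤ cl (DiffSub n k) := by
  rw [GA, Subgroup.closure_le]
  intro g hg
  exact typeA_mem_cl_diff k hg

theorem approx_iff {n : ℕ} {k : ℕ∞} (hk : 1 ≤ k) (h : Homeo n) :
    ApproxBy (GA n : Set (Homeo n)) h ↔ ApproxBy (Diffeo n k) h := by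
  constructor
  · intro H
    exact H.of_subset_cl (G := DiffSub n k) fun g hg => ga_le_cl_diff n k hg
  · intro H
    exact H.of_subset_cl fun g hg => diffeo_mem hk hg

end Pool.Agent.CoordMaps
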