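import Pool.Agent.CoordMaps.Defs

namespace Pool.Agent.CoordMaps

open Set Metric Topology NNReal

section General

variable {V : Type*} [NormedAddCommGroup V] [NormedSpace ℝ V]

/-- `h` is a uniform limit on balls of elements of `G`. -/
def Appr (G : Subgroup (V ≃ₜ V)) (h : V ≃ₜ V) : Prop :=
  ∀ R : ℝ, ∀ ε : ℝ, 0 < ε → ∃ g ∈ G, ∀ p ∈ closedBall (0 : V) R, ‖g p - h p‖ < ε

lemma Appr.of_mem {G : Subgroup (V ≃ₜ V)} {h : V ≃ₜ V} (hh : h ∈ G) : Appr G h :=
  fun R ε hε => ⟨h, hh, fun p _ => by simpa using hε⟩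

variable [ProperSpace V]

lemma exists_image_bound (h : V → V) (hc : Continuous h) (R : ℝ) :
    ∃ M : ℝ, 0 ≤ M ∧ ∀ x ∈ closedBall (0 : V) R, h x ∈ closedBall (0 : V) M := by
  obtain ⟨C, hC⟩ := (isCompact_closedBall (0 : V) R).bddAbove_image hc.norm.continuousOn
  exact ⟨max C 0, le_max_right _ _, fun x hx => by
    rw [mem_closedBall_zero_iff]; exact le_max_of_le_left (hC (mem_image_of_mem _ hx))⟩

lemma exists_unif (h : V → V) (hc : Continuous h) (R : ℝ) {ε : ℝ} (hε : 0 < ε) :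
    ∃ δ : ℝ, 0 < δ ∧ ∀ x ∈ closedBall (0 : V) R, ∀ y ∈ closedBall (0 : V) R, ‖x - y‖ < δ →
      ‖h x - h y‖ < ε := by
  have huc : UniformContinuousOn h (closedBall (0 : V) R) :=
    (isCompact_closedBall _ _).uniformContinuousOn_of_continuous hc.continuousOn
  rw [Metric.uniformContinuousOn_iff] at huc
  obtain ⟨δ, hδ, h1⟩ := huc ε hε
  exact ⟨δ, hδ, fun x hx y hy hxy => by
    have := h1 x hx y hy (by rwa [dist_eq_norm]); rwa [dist_eq_norm] at this⟩

lemma Appr.mul {G : Subgroup (V ≃ₜ V)} {h₁ h₂ : V ≃ₜ V} (a₁ : Appr G h₁) (a₂ : Appr G h₂) :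
    Appr G (h₁ * h₂) := by
  intro R ε hε
  obtain ⟨M, hM0, hM⟩ := exists_image_bound h₂ h₂.continuous R
  obtain ⟨δ, hδ, hu⟩ := exists_unif h₁ h₁.continuous (M + 1) (half_pos hε)
  obtain ⟨g₂, hg₂, b₂⟩ := a₂ R (min δ 1) (by positivity)
  obtain ⟨g₁, hg₁, b₁⟩ := a₁ (M + 1) (ε / 2) (by positivity)
  refine ⟨g₁ * g₂, G.mul_mem hg₁ hg₂, fun p hp => ?_⟩
  have e1 : h₂ p ∈ closedBall (0 : V) (M + 1) :=
    closedBall_subset_closedBall (by linarith) (hM p hp)
  have e2 : ‖g₂ p - h₂ p‖ < min δ 1 := b₂ p hp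
  have e3 : g₂ p ∈ closedBall (0 : V) (M + 1) := by
    rw [mem_closedBall_zero_iff]
    have := hM p hp
    rw [mem_closedBall_zero_iff] at this
    calc ‖g₂ p‖ = ‖(g₂ p - h₂ p) + h₂ p‖ := by simp
      _ ≤ ‖g₂ p - h₂ p‖ + ‖h₂ p‖ := norm_add_le _ _
      _ ≤ 1 + M := add_le_add (e2.le.trans (min_le_right _ _)) this
      _ = M + 1 := by ring
  rw [Homeomorph.mul_apply, Homeomorph.mul_apply]
  calc ‖g₁ (g₂ p) - h₁ (h₂ p)‖ = ‖(g₁ (g₂ p) - h₁ (g₂ p)) + (h₁ (g₂ p) - h₁ (h₂ p))‖ := by simp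
    _ ≤ ‖g₁ (g₂ p) - h₁ (g₂ p)‖ + ‖h₁ (g₂ p) - h₁ (h₂ p)‖ := norm_add_le _ _
    _ < ε / 2 + ε / 2 := add_lt_add (b₁ _ e3)
        (hu _ e3 _ e1 (e2.trans_le (min_le_left _ _)))
    _ = ε := by ring

lemma Appr.inv {G : Subgroup (V ≃ₜ V)} {h : V ≃ₜ V} (a : Appr G h) : Appr G h⁻¹ := by
  intro R ε hε
  obtain ⟨M, hM0, hM⟩ := exists_image_bound h.symm h.symm.continuous R
  obtain ⟨M', hM'0, hM'⟩ := exists_image_bound h h.continuous (M + ε)
  obtain ⟨m, hm, hu⟩ := exists_unif h.symm h.symm.continuous M' hε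
  obtain ⟨g, hg, b⟩ := a (M + ε) (m / 2) (by positivity)
  refine ⟨g⁻¹, G.inv_mem hg, fun y hy => ?_⟩
  set x := h.symm y with hx
  have hxM := hM y hy
  have hxM' : x ∈ closedBall (0 : V) (M + ε) :=
    closedBall_subset_closedBall (by linarith) hxM
  have hhx : h x = y := by rw [hx]; simp
  show ‖g.symm y - h.symm y‖ < ε
  rw [← hx]
  by_contra hcon
  push Not at hcon
  have hD : IsOpen (g '' ball x ε) := g.isOpenMap _ isOpen_ball
  have hy1 : y ∉ g '' ball x ε := by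
    rintro ⟨z, hz, hzy⟩
    rw [← hzy, Homeomorph.symm_apply_apply] at hcon
    rw [mem_ball, dist_eq_norm] at hz
    linarith
  have hy2 : y ∉ closure (g '' ball x ε) ∨ y ∈ g '' sphere x ε := by
    by_cases h1 : y ∈ closure (g '' ball x ε)
    · right
      rw [← g.image_closure] at h1
      obtain ⟨z, hz, hzy⟩ := h1
      refine ⟨z, ?_, hzy⟩
      have hz1 : z ∈ closedBall x ε := closure_ball_subset_closedBall hz
      rw [mem_closedBall] at hz1
      rw [mem_sphere]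
      rcases hz1.lt_or_eq with h2 | h2
      · exact absurd ⟨z, h2, hzy⟩ hy1
      · exact h2
    · exact Or.inl h1
  have key : ∃ z ∈ sphere x ε, ‖g z - y‖ < m / 2 := by
    have hgx : ‖g x - y‖ < m / 2 := by
      have := b x hxM'
      rwa [hhx] at this
    rcases hy2 with h2 | h2
    · by_contra hno
      push Not at hno
      have hseg : IsPreconnected (segment ℝ (g x) y) := (convex_segment _ _).isPreconnected
      have hsub : segment ℝ (g x) y ⊆ (g '' ball x ε) ∪ (closure (g '' ball x ε))ᶜ := by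
        intro z hz
        by_cases h3 : z ∈ closure (g '' ball x ε)
        · left
          rw [← g.image_closure] at h3
          obtain ⟨w, hw, rfl⟩ := h3
          refine ⟨w, ?_, rfl⟩
          have hw1 : w ∈ closedBall x ε := closure_ball_subset_closedBall hw
          rw [mem_closedBall] at hw1
          rw [mem_ball]
          refine lt_of_le_of_ne hw1 fun h4 => ?_
          have h5 := hno w h4
          have h6 : ‖g w - y‖ ≤ ‖g x - y‖ := by
            obtain ⟨s, t, hs, ht, hst, hz⟩ := hz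
            have : g w - y = s • (g x - y) := by
              rw [← hz]
              have : t = 1 - s := by linarith
              rw [this, sub_smul, one_smul, smul_sub]
              abel
            rw [this, norm_smul, Real.norm_eq_abs, abs_of_nonneg hs]
            have : s ≤ 1 := by linarith
            nlinarith [norm_nonneg (g x - y)]
          linarith
        · right; exact h3
      have := hseg.subset_left_of_subset_union hD isClosed_closure.isOpen_compl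
        (disjoint_compl_right.mono_right (compl_subset_compl.2 subset_closure)) hsub
        ⟨g x, left_mem_segment _ _ _, mem_image_of_mem _ (mem_ball_self hε)⟩
      exact hy1 (this (right_mem_segment _ _ _))
    · obtain ⟨z, hz, hzy⟩ := h2
      exact ⟨z, hz, by rw [hzy]; simpa using half_pos hm⟩
  obtain ⟨z, hz, hzy⟩ := key
  rw [mem_sphere, dist_eq_norm] at hz
  have hzM : z ∈ closedBall (0 : V) (M + ε) := by
    rw [mem_closedBall_zero_iff] at hxM ⊢
    calc ‖z‖ = ‖(z - x) + x‖ := by simp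
      _ ≤ ‖z - x‖ + ‖x‖ := norm_add_le _ _
      _ ≤ ε + M := add_le_add hz.le hxM
      _ = M + ε := by ring
  have h7 : m ≤ ‖h z - h x‖ := by
    by_contra h8
    push Not at h8
    have := hu _ (hM' z hzM) _ (hM' x hxM') h8
    rw [Homeomorph.symm_apply_apply, Homeomorph.symm_apply_apply] at this
    linarith
  have h9 := b z hzM
  have h10 : ‖h z - h x‖ ≤ ‖g z - h z‖ + ‖g z - y‖ := by
    rw [hhx]
    calc ‖h z - y‖ = ‖(g z - y) - (g z - h z)‖ := by congr 1; abel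
      _ ≤ ‖g z - y‖ + ‖g z - h z‖ := norm_sub_le _ _
      _ = _ := by ring
  linarith

/-- the closure of a group of homeomorphisms, itself a group. -/
def cl (G : Subgroup (V ≃ₜ V)) : Subgroup (V ≃ₜ V) where
  carrier := {h | Appr G h}
  mul_mem' := fun h₁ h₂ => Appr.mul h₁ h₂
  one_mem' := Appr.of_mem G.one_mem
  inv_mem' := fun h => Appr.inv h

lemma mem_cl {G : Subgroup (V ≃ₜ V)} {h : V ≃ₜ V} : h ∈ cl G ↔ Appr G h := Iff.rfl

lemma le_cl (G : Subgroup (V ≃ₜ V)) : G ≤ cl G := fun _ h => Appr.of_mem h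

lemma Appr.of_cl {G : Subgroup (V ≃ₜ V)} {h : V ≃ₜ V} (a : Appr (cl G) h) : Appr G h := by
  intro R ε hε
  obtain ⟨g, hg, b⟩ := a R (ε / 2) (by positivity)
  obtain ⟨g', hg', b'⟩ := hg R (ε / 2) (by positivity)
  refine ⟨g', hg', fun p hp => ?_⟩
  calc ‖g' p - h p‖ = ‖(g' p - g p) + (g p - h p)‖ := by simp
    _ ≤ ‖g' p - g p‖ + ‖g p - h p‖ := norm_add_le _ _
    _ < ε / 2 + ε / 2 := add_lt_add (b' p hp) (b p hp)
    _ = ε := by ring

lemma cl_le_of_le {G G' : Subgroup (V ≃ₜ V)} (h : G ≤ cl G') : cl G ≤ cl G' := by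
  intro f hf
  refine Appr.of_cl (fun R ε hε => ?_)
  obtain ⟨g, hg, b⟩ := hf R ε hε
  exact ⟨g, h hg, b⟩

end General


section Tangent

variable {V : Type*} [NormedAddCommGroup V] [NormedSpace ℝ V]

/-- at every point the value of `F` is given by one of the finitely many linear maps in `S`. -/
def FinLin (S : Set (V →L[ℝ] V)) (F : V → V) : Prop := ∀ x, ∃ A ∈ S, F x = A x

/-- near `x₀`, increments of `F` are given by finitely many linear maps. -/
def LocLin (S : Set (V →L[ℝ] V)) (F : V → V) (x₀ : V) (ρ : ℝ) : Prop :=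
  ∀ v, ‖v‖ < ρ → ∃ A ∈ S, F (x₀ + v) - F x₀ = A v

lemma const_of_finite {S : Set (V →L[ℝ] V)} (hS : S.Finite) {f : ℝ → V} {v : V} {I : Set ℝ}
    (hI : IsPreconnected I) (hf : ContinuousOn f I) (h : ∀ t ∈ I, ∃ A ∈ S, f t = A v)
    {s t : ℝ} (hs : s ∈ I) (ht : t ∈ I) : f s = f t := by
  have hfin : ((fun A : V →L[ℝ] V => A v) '' S).Finite := hS.image _
  refine hI.constant_of_mapsTo (T := (fun A : V →L[ℝ] V => A v) '' S) hfin.isDiscrete hf ?_ hs ht
  intro r hr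
  obtain ⟨A, hA, h1⟩ := h r hr
  exact ⟨A, hA, h1.symm⟩

lemma LocLin.hom {S : Set (V →L[ℝ] V)} (hS : S.Finite) {F : V → V} (hF : Continuous F) {x₀ : V}
    {ρ : ℝ} (h : LocLin S F x₀ ρ) {v : V} (hv : ‖v‖ < ρ) {t : ℝ} (ht0 : 0 < t) (ht1 : t ≤ 1) :
    F (x₀ + t • v) - F x₀ = t • (F (x₀ + v) - F x₀) := by
  have h1 : (fun t : ℝ => t⁻¹ • (F (x₀ + t • v) - F x₀)) t =
      (fun t : ℝ => t⁻¹ • (F (x₀ + t • v) - F x₀)) 1 := by
    refine const_of_finite hS (f := fun t : ℝ => t⁻¹ • (F (x₀ + t • v) - F x₀)) (v := v)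
      (I := Ioc 0 1) isPreconnected_Ioc ?_ ?_ ⟨ht0, ht1⟩ ⟨one_pos, le_rfl⟩
    · refine ContinuousOn.smul (continuousOn_inv₀.mono fun s hs => hs.1.ne') ?_
      exact (by fun_prop : Continuous fun s : ℝ => F (x₀ + s • v) - F x₀).continuousOn
    · intro s hs
      have h2 : ‖s • v‖ < ρ := by
        rw [norm_smul, Real.norm_eq_abs, abs_of_pos hs.1]
        nlinarith [norm_nonneg v, hs.2]
      obtain ⟨A, hA, h3⟩ := h (s • v) h2
      refine ⟨A, hA, ?_⟩
      rw [h3, map_smul, smul_smul, inv_mul_cancel₀ hs.1.ne', one_smul]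
  simp only [inv_one, one_smul] at h1
  rw [← h1, smul_smul, mul_inv_cancel₀ ht0.ne', one_smul]

lemma FinLin.hom {S : Set (V →L[ℝ] V)} (hS : S.Finite) {F : V → V} (hF : Continuous F)
    (h : FinLin S F) (v : V) {t : ℝ} (ht0 : 0 < t) :
    F (t • v) = t • F v := by
  have h1 : (fun t : ℝ => t⁻¹ • (F (t • v))) t = (fun t : ℝ => t⁻¹ • (F (t • v))) 1 := by
    refine const_of_finite hS (f := fun t : ℝ => t⁻¹ • (F (t • v))) (v := v)
      (I := Ioi 0) isPreconnected_Ioi ?_ ?_ (mem_Ioi.2 ht0) (mem_Ioi.2 one_pos)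
    · refine ContinuousOn.smul (continuousOn_inv₀.mono fun s (hs : 0 < s) => hs.ne') ?_
      exact (by fun_prop : Continuous fun s : ℝ => F (s • v)).continuousOn
    · intro s hs
      obtain ⟨A, hA, h3⟩ := h (s • v)
      refine ⟨A, hA, ?_⟩
      rw [h3, map_smul, smul_smul, inv_mul_cancel₀ (ne_of_gt hs), one_smul]
  simp only [inv_one, one_smul] at h1
  rw [← h1, smul_smul, mul_inv_cancel₀ ht0.ne', one_smul]

lemma FinLin.zero {S : Set (V →L[ℝ] V)} {F : V → V} (h : FinLin S F) : F 0 = 0 := by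
  obtain ⟨A, _, h1⟩ := h 0
  rw [h1, map_zero]

lemma FinLin.locLin {S : Set (V →L[ℝ] V)} (hS : S.Finite) {F : V → V} (hF : Continuous F)
    (h : FinLin S F) (x₀ : V) : ∃ ρ > 0, LocLin S F x₀ ρ := by
  have h1 : ∀ᶠ x in 𝓝 x₀, ∀ A ∈ S, A x₀ ≠ F x₀ → F x ≠ A x := by
    rw [Filter.eventually_all_finite hS]
    intro A _
    by_cases hA : A x₀ = F x₀
    · exact Filter.Eventually.of_forall fun x hx => absurd hA hx
    · have : ∀ᶠ x in 𝓝 x₀, F x ≠ A x :=
        (hF.continuousAt.ne_iff_eventually_ne A.continuous.continuousAt).1 (Ne.symm hA)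
      exact this.mono fun x hx _ => hx
  obtain ⟨ρ, hρ, h2⟩ := Metric.eventually_nhds_iff.1 h1
  refine ⟨ρ, hρ, fun v hv => ?_⟩
  obtain ⟨A, hA, h3⟩ := h (x₀ + v)
  have h4 : A x₀ = F x₀ := by
    by_contra h5
    exact h2 (y := x₀ + v) (by simpa using hv) A hA h5 h3
  exact ⟨A, hA, by rw [h3, map_add, h4]; abel⟩

lemma tangent {S : Set (V →L[ℝ] V)} (hS : S.Finite) (F : V ≃ₜ V) {x₀ : V} {ρ : ℝ} (hρ : 0 < ρ)
    (h : LocLin S F x₀ ρ) : ∃ P : V ≃ₜ V, FinLin S P ∧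
      (∀ (v : V) (t : ℝ), 0 < t → ‖t • v‖ < ρ → F (x₀ + t • v) = F x₀ + t • P v) := by
  -- homogeneity of the inverse
  obtain ⟨ρ', hρ', h'⟩ : ∃ ρ' > 0, ∀ z : V, ‖z‖ < ρ' → ‖F.symm (F x₀ + z) - x₀‖ < ρ := by
    have hc : ContinuousAt (fun z : V => F.symm (F x₀ + z) - x₀) 0 := by
      apply Continuous.continuousAt
      fun_prop
    rw [Metric.continuousAt_iff] at hc
    obtain ⟨δ, hδ, h1⟩ := hc ρ hρ
    refine ⟨δ, hδ, fun z hz => ?_⟩
    have := h1 (x := z) (by simpa using hz)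
    simpa using this
  have hinv : ∀ z : V, ‖z‖ < ρ' → ∀ t : ℝ, 0 < t → t ≤ 1 →
      F.symm (F x₀ + t • z) - x₀ = t • (F.symm (F x₀ + z) - x₀) := by
    intro z hz t ht0 ht1
    set v := F.symm (F x₀ + z) - x₀ with hv
    have h1 := h.hom hS F.continuous (h' z hz) ht0 ht1
    have h2 : F (x₀ + v) = F x₀ + z := by
      rw [hv]; simp
    rw [← hv, h2] at h1
    have h3 : F (x₀ + t • v) = F x₀ + t • z := by
      have : F (x₀ + t • v) = F x₀ + (F (x₀ + t • v) - F x₀) := by abel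
      rw [this, h1]
      congr 1
      simp
    rw [← h3]
    simp
  set s : V → ℝ := fun v => ρ / (1 + ‖v‖) with hs
  set s' : V → ℝ := fun v => ρ' / (1 + ‖v‖) with hs'
  have hspos : ∀ v, 0 < s v := fun v => by rw [hs]; positivity
  have hs'pos : ∀ v, 0 < s' v := fun v => by rw [hs']; positivity
  have hsn : ∀ v, ‖s v • v‖ < ρ := fun v => by
    rw [norm_smul, Real.norm_eq_abs, abs_of_pos (hspos v), hs]
    simp only
    rw [div_mul_eq_mul_div, div_lt_iff₀ (by positivity)]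
    nlinarith [norm_nonneg v]
  have hs'n : ∀ v, ‖s' v • v‖ < ρ' := fun v => by
    rw [norm_smul, Real.norm_eq_abs, abs_of_pos (hs'pos v), hs']
    simp only
    rw [div_mul_eq_mul_div, div_lt_iff₀ (by positivity)]
    nlinarith [norm_nonneg v]
  set P : V → V := fun v => (s v)⁻¹ • (F (x₀ + s v • v) - F x₀) with hP
  set P' : V → V := fun y => (s' y)⁻¹ • (F.symm (F x₀ + s' y • y) - x₀) with hP'
  -- smaller parameters
  have hsmall : ∀ (v : V) (t r : ℝ), 0 < r → r ≤ t → ‖t • v‖ < ρ →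
      t⁻¹ • (F (x₀ + t • v) - F x₀) = r⁻¹ • (F (x₀ + r • v) - F x₀) := by
    intro v t r hr hrt ht
    have htp : 0 < t := hr.trans_le hrt
    have := h.hom hS F.continuous ht (t := r / t) (div_pos hr htp) ((div_le_one htp).2 hrt)
    rw [smul_smul, div_mul_cancel₀ _ htp.ne'] at this
    rw [this, smul_smul]
    congr 1
    field_simp
  have hsmall' : ∀ (v : V) (t r : ℝ), 0 < r → r ≤ t → ‖t • v‖ < ρ' →
      t⁻¹ • (F.symm (F x₀ + t • v) - x₀) = r⁻¹ • (F.symm (F x₀ + r • v) - x₀) := by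
    intro v t r hr hrt ht
    have htp : 0 < t := hr.trans_le hrt
    have := hinv _ ht (r / t) (div_pos hr htp) ((div_le_one htp).2 hrt)
    rw [smul_smul, div_mul_cancel₀ _ htp.ne'] at this
    rw [this, smul_smul]
    congr 1
    field_simp
  have P1 : ∀ (v : V) (t : ℝ), 0 < t → ‖t • v‖ < ρ → F (x₀ + t • v) = F x₀ + t • P v := by
    intro v t ht htv
    have h1 : t⁻¹ • (F (x₀ + t • v) - F x₀) = P v := by
      rw [hP]
      simp only
      rw [hsmall v t (min t (s v)) (lt_min ht (hspos v)) (min_le_left _ _) htv,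
        hsmall v (s v) (min t (s v)) (lt_min ht (hspos v)) (min_le_right _ _) (hsn v)]
    rw [← h1, smul_smul, mul_inv_cancel₀ ht.ne', one_smul]
    abel
  have P2 : ∀ (v : V) (t : ℝ), 0 < t → ‖t • v‖ < ρ' → F.symm (F x₀ + t • v) = x₀ + t • P' v := by
    intro v t ht htv
    have h1 : t⁻¹ • (F.symm (F x₀ + t • v) - x₀) = P' v := by
      rw [hP']
      simp only
      rw [hsmall' v t (min t (s' v)) (lt_min ht (hs'pos v)) (min_le_left _ _) htv,
        hsmall' v (s' v) (min t (s' v)) (lt_min ht (hs'pos v)) (min_le_right _ _) (hs'n v)]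
    rw [← h1, smul_smul, mul_inv_cancel₀ ht.ne', one_smul]
    abel
  have hpair : ∀ v w : V, ∀ ρ₁ ρ₂ : ℝ, 0 < ρ₁ → 0 < ρ₂ →
      ∃ t : ℝ, 0 < t ∧ ‖t • v‖ < ρ₁ ∧ ‖t • w‖ < ρ₂ := by
    intro v w ρ₁ ρ₂ h₁ h₂
    refine ⟨min (ρ₁ / (1 + ‖v‖)) (ρ₂ / (1 + ‖w‖)), by positivity, ?_, ?_⟩
    · rw [norm_smul, Real.norm_eq_abs, abs_of_pos (by positivity)]
      calc _ ≤ (ρ₁ / (1 + ‖v‖)) * ‖v‖ := by gcongr; exact min_le_left _ _
        _ < ρ₁ := by
          rw [div_mul_eq_mul_div, div_lt_iff₀ (by positivity)]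
          nlinarith [norm_nonneg v]
    · rw [norm_smul, Real.norm_eq_abs, abs_of_pos (by positivity)]
      calc _ ≤ (ρ₂ / (1 + ‖w‖)) * ‖w‖ := by gcongr; exact min_le_right _ _
        _ < ρ₂ := by
          rw [div_mul_eq_mul_div, div_lt_iff₀ (by positivity)]
          nlinarith [norm_nonneg w]
  have hleft : ∀ v, P' (P v) = v := by
    intro v
    obtain ⟨t, ht, h1, h2⟩ := hpair v (P v) ρ ρ' hρ hρ'
    have e1 := P1 v t ht h1
    have e2 := P2 (P v) t ht h2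
    rw [← e1, Homeomorph.symm_apply_apply] at e2
    have e3 : t • v = t • P' (P v) := add_left_cancel e2
    exact (smul_right_injective V ht.ne' e3).symm
  have hright : ∀ y, P (P' y) = y := by
    intro y
    obtain ⟨t, ht, h1, h2⟩ := hpair (P' y) y ρ ρ' hρ hρ'
    have e1 := P1 (P' y) t ht h1
    have e2 := P2 y t ht h2
    rw [← e2, Homeomorph.apply_symm_apply] at e1
    have e3 : t • y = t • P (P' y) := add_left_cancel e1
    exact (smul_right_injective V ht.ne' e3).symm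
  have hsc : Continuous s := by
    rw [hs]
    exact continuous_const.div (by fun_prop) (fun v => by positivity)
  have hs'c : Continuous s' := by
    rw [hs']
    exact continuous_const.div (by fun_prop) (fun v => by positivity)
  have hPc : Continuous P := by
    rw [hP]
    exact (hsc.inv₀ fun v => (hspos v).ne').smul
      ((F.continuous.comp (continuous_const.add (hsc.smul continuous_id))).sub continuous_const)
  have hP'c : Continuous P' := by
    rw [hP']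
    exact (hs'c.inv₀ fun v => (hs'pos v).ne').smul
      ((F.symm.continuous.comp (continuous_const.add (hs'c.smul continuous_id))).sub
        continuous_const)
  refine ⟨⟨⟨P, P', hleft, hright⟩, hPc, hP'c⟩, ?_, P1⟩
  intro v
  obtain ⟨A, hA, h1⟩ := h _ (hsn v)
  refine ⟨A, hA, ?_⟩
  show P v = A v
  rw [hP]
  simp only
  rw [h1, map_smul, smul_smul, inv_mul_cancel₀ (hspos v).ne', one_smul]

end Tangent


section Lip

variable {V : Type*} [NormedAddCommGroup V] [NormedSpace ℝ V]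

lemma lip_of_local {F : V → V} (hF : Continuous F) {K : ℝ}
    (h : ∀ x₀, ∃ ρ > 0, ∀ v, ‖v‖ < ρ → ‖F (x₀ + v) - F x₀‖ ≤ K * ‖v‖) (x y : V) :
    ‖F y - F x‖ ≤ K * ‖y - x‖ := by
  set w := y - x with hw
  have key : Icc (0:ℝ) 1 ⊆ {t : ℝ | ‖F (x + t • w) - F x‖ ≤ K * (t * ‖w‖)} := by
    apply IsClosed.Icc_subset_of_forall_exists_gt
    · refine IsClosed.inter ?_ isClosed_Icc
      exact isClosed_le (by fun_prop) (by fun_prop)
    · simp
    · rintro t ⟨ht, ht0, ht1⟩ t' htt'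
      obtain ⟨ρ, hρ, h1⟩ := h (x + t • w)
      rw [mem_Ioi] at htt'
      set δ := min (t' - t) (ρ / (1 + ‖w‖) ) with hδ
      have hδp : 0 < δ := by
        rw [hδ]
        exact lt_min (by linarith) (by positivity)
      refine ⟨t + δ, ?_, by linarith, by linarith [min_le_left (t' - t) (ρ / (1 + ‖w‖))]⟩
      have h2 : ‖δ • w‖ < ρ := by
        rw [norm_smul, Real.norm_eq_abs, abs_of_pos hδp]
        calc δ * ‖w‖ ≤ (ρ / (1 + ‖w‖)) * ‖w‖ := by gcongr; exact min_le_right _ _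
          _ < ρ := by
            rw [div_mul_eq_mul_div, div_lt_iff₀ (by positivity)]
            nlinarith [norm_nonneg w]
      have h3 := h1 _ h2
      rw [norm_smul, Real.norm_eq_abs, abs_of_pos hδp] at h3
      have h4 : x + (t + δ) • w = x + t • w + δ • w := by rw [add_smul]; abel
      show ‖F (x + (t + δ) • w) - F x‖ ≤ K * ((t + δ) * ‖w‖)
      rw [h4]
      calc _ = ‖(F (x + t • w + δ • w) - F (x + t • w)) + (F (x + t • w) - F x)‖ := by
            congr 1; abel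
        _ ≤ ‖F (x + t • w + δ • w) - F (x + t • w)‖ + ‖F (x + t • w) - F x‖ := norm_add_le _ _
        _ ≤ K * (δ * ‖w‖) + K * (t * ‖w‖) := add_le_add h3 ht
        _ = _ := by ring
  have h5 := key (right_mem_Icc.2 zero_le_one)
  simp only [mem_ofPred_eq, one_smul, one_mul] at h5
  rw [hw] at h5
  simpa using h5

lemma FinLin.exists_lip {S : Set (V →L[ℝ] V)} (hS : S.Finite) {F : V → V} (hF : Continuous F)
    (h : FinLin S F) : ∃ K : ℝ, 0 < K ∧ ∀ x y, ‖F x - F y‖ ≤ K * ‖x - y‖ := by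
  obtain ⟨K, hK⟩ := (hS.image (fun A : V →L[ℝ] V => ‖A‖)).bddAbove
  refine ⟨max K 1, by positivity, fun x y => ?_⟩
  refine lip_of_local hF (fun x₀ => ?_) y x
  obtain ⟨ρ, hρ, h1⟩ := h.locLin hS hF x₀
  refine ⟨ρ, hρ, fun v hv => ?_⟩
  obtain ⟨A, hA, h2⟩ := h1 v hv
  rw [h2]
  calc ‖A v‖ ≤ ‖A‖ * ‖v‖ := A.le_opNorm v
    _ ≤ max K 1 * ‖v‖ := by
      gcongr
      exact le_max_of_le_left (hK (mem_image_of_mem _ hA))

lemma FinLin.symm [FiniteDimensional ℝ V] {S : Set (V →L[ℝ] V)} (hS : S.Finite) (F : V ≃ₜ V)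
    (h : FinLin S F) : FinLin (Ring.inverse '' S) F.symm := by
  have key : ∀ x, ∃ A ∈ S, IsUnit A ∧ F x = A x := by
    intro x₀
    by_contra hcon
    push Not at hcon
    have h1 : ∀ᶠ x in 𝓝 x₀, ∀ A ∈ S, IsUnit A → F x ≠ A x := by
      rw [Filter.eventually_all_finite hS]
      intro A hA
      by_cases hu : IsUnit A
      · have : ∀ᶠ x in 𝓝 x₀, F x ≠ A x :=
          (F.continuous.continuousAt.ne_iff_eventually_ne A.continuous.continuousAt).1
            (hcon A hA hu)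
        exact this.mono fun x hx _ => hx
      · exact Filter.Eventually.of_forall fun x hx => absurd hx hu
    obtain ⟨U, hU, hUo, hxU⟩ := _root_.eventually_nhds_iff.1 h1
    borelize V
    let μ : MeasureTheory.Measure V := MeasureTheory.Measure.addHaar
    have h2 : F '' U ⊆ ⋃ A ∈ {A ∈ S | ¬ IsUnit A}, (LinearMap.range (A : V →ₗ[ℝ] V) : Set V) := by
      rintro _ ⟨x, hx, rfl⟩
      obtain ⟨A, hA, h3⟩ := h x
      refine mem_biUnion (x := A) ⟨hA, fun hu => hU x hx A hA hu h3⟩ ?_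
      rw [h3]
      exact LinearMap.mem_range_self _ x
    have h4 : μ (⋃ A ∈ {A ∈ S | ¬ IsUnit A}, (LinearMap.range (A : V →ₗ[ℝ] V) : Set V)) = 0 := by
      rw [MeasureTheory.measure_biUnion_null_iff (hS.subset (sep_subset _ _)).countable]
      rintro A ⟨_, hu⟩
      refine MeasureTheory.Measure.addHaar_submodule μ _ fun htop => hu ?_
      rw [ContinuousLinearMap.isUnit_iff_bijective]
      have hsurj : Function.Surjective (A : V →ₗ[ℝ] V) := LinearMap.range_eq_top.1 htop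
      exact ⟨LinearMap.injective_iff_surjective.2 hsurj, hsurj⟩
    have h5 : IsOpen (F '' U) := F.isOpenMap _ hUo
    have h6 : 0 < μ (F '' U) := h5.measure_pos μ ⟨F x₀, mem_image_of_mem _ hxU⟩
    have h7 := MeasureTheory.measure_mono_null h2 h4
    exact h6.ne' h7
  intro y
  obtain ⟨A, hA, hu, h1⟩ := key (F.symm y)
  refine ⟨Ring.inverse A, mem_image_of_mem _ hA, ?_⟩
  rw [Homeomorph.apply_symm_apply] at h1
  have h2 : (Ring.inverse A) (A (F.symm y)) = F.symm y := by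
    have := Ring.inverse_mul_cancel A hu
    have h3 := congrArg (fun B : V →L[ℝ] V => B (F.symm y)) this
    simpa using h3
  rw [← h1] at h2
  exact h2.symm

lemma FinLin.exists_lip_symm [FiniteDimensional ℝ V] {S : Set (V →L[ℝ] V)} (hS : S.Finite)
    (F : V ≃ₜ V) (h : FinLin S F) : ∃ K : ℝ, 0 < K ∧ ∀ x y, ‖F.symm x - F.symm y‖ ≤ K * ‖x - y‖ :=
  FinLin.exists_lip (hS.image _) F.symm.continuous (FinLin.symm hS F h)

end Lip


section Normalise

variable {V : Type*} [NormedAddCommGroup V] [NormedSpace ℝ V]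

/-- the group `G₀` contains all perturbations of the identity with Lipschitz constant `< 1` -/
def HasLip (G₀ : Subgroup (V ≃ₜ V)) : Prop :=
  ∀ (ψ : V → V) (K : ℝ), K < 1 → (∀ x y, ‖ψ x - ψ y‖ ≤ K * ‖x - y‖) →
    ∃ h ∈ G₀, ∀ x, h x = x + ψ x

/-- bi-Lipschitz homeomorphisms that are positively homogeneous and equivariant under
translations by the kernel of `π`. -/
def EqH (π : V →L[ℝ] V) : Subgroup (V ≃ₜ V) where
  carrier := {g | (∀ x l, π l = 0 → g (x + l) = g x + l) ∧ (∀ x (t : ℝ), 0 < t → g (t • x) = t • g x)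
    ∧ (∃ K : ℝ, 0 < K ∧ ∀ x y, ‖g x - g y‖ ≤ K * ‖x - y‖) ∧
      (∃ K : ℝ, 0 < K ∧ ∀ x y, ‖g.symm x - g.symm y‖ ≤ K * ‖x - y‖)}
  mul_mem' := by
    rintro g h ⟨g1, g2, ⟨K, hK, g3⟩, ⟨K', hK', g4⟩⟩ ⟨h1, h2, ⟨L, hL, h3⟩, ⟨L', hL', h4⟩⟩
    refine ⟨fun x l hl => ?_, fun x t ht => ?_, ⟨K * L, by positivity, fun x y => ?_⟩,
      ⟨L' * K', by positivity, fun x y => ?_⟩⟩
    · rw [Homeomorph.mul_apply, Homeomorph.mul_apply, h1 _ _ hl, g1 _ _ hl]
    · rw [Homeomorph.mul_apply, Homeomorph.mul_apply, h2 _ _ ht, g2 _ _ ht]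
    · rw [Homeomorph.mul_apply, Homeomorph.mul_apply]
      calc _ ≤ K * ‖h x - h y‖ := g3 _ _
        _ ≤ K * (L * ‖x - y‖) := by gcongr; exact h3 _ _
        _ = _ := by ring
    · show ‖h.symm (g.symm x) - h.symm (g.symm y)‖ ≤ _
      calc _ ≤ L' * ‖g.symm x - g.symm y‖ := h4 _ _
        _ ≤ L' * (K' * ‖x - y‖) := by gcongr; exact g4 _ _
        _ = _ := by ring
  one_mem' := by
    refine ⟨fun x l _ => rfl, fun x t _ => rfl, ⟨1, one_pos, fun x y => by simp⟩,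
      ⟨1, one_pos, fun x y => ?_⟩⟩
    show ‖x - y‖ ≤ _
    simp
  inv_mem' := by
    rintro g ⟨g1, g2, g3, g4⟩
    refine ⟨fun x l hl => ?_, fun x t ht => ?_, g4, g3⟩
    · show g.symm (x + l) = g.symm x + l
      rw [Homeomorph.symm_apply_eq, g1 _ _ hl, Homeomorph.apply_symm_apply]
    · show g.symm (t • x) = t • g.symm x
      rw [Homeomorph.symm_apply_eq, g2 _ _ ht, Homeomorph.apply_symm_apply]

lemma EqH.add {π : V →L[ℝ] V} {g : V ≃ₜ V} (hg : g ∈ EqH π) {x l : V} (hl : π l = 0) :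
    g (x + l) = g x + l := hg.1 x l hl

lemma EqH.smul {π : V →L[ℝ] V} {g : V ≃ₜ V} (hg : g ∈ EqH π) (x : V) {t : ℝ} (ht : 0 < t) :
    g (t • x) = t • g x := hg.2.1 x t ht

lemma EqH.zero {π : V →L[ℝ] V} {g : V ≃ₜ V} (hg : g ∈ EqH π) : g 0 = 0 := by
  have := EqH.smul hg 0 (t := 2) (by norm_num)
  rw [smul_zero, two_smul] at this
  simpa using this

lemma EqH.symm {π : V →L[ℝ] V} {g : V ≃ₜ V} (hg : g ∈ EqH π) : g.symm ∈ EqH π :=
  (EqH π).inv_mem hg

/-- shears -/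
lemma shear_mem {G₀ : Subgroup (V ≃ₜ V)} (hG : HasLip G₀) (σ : V → V) {K : ℝ}
    (hσ : ∀ x y, ‖σ x - σ y‖ ≤ K * ‖x - y‖) (hσ2 : ∀ x y (t : ℝ), σ (x + t • σ y) = σ x) :
    ∃ h ∈ G₀, ∀ x, h x = x + σ x := by
  obtain ⟨N, hN⟩ := exists_nat_gt (max K 0)
  have hNp : (0:ℝ) < N := lt_of_le_of_lt (le_max_right _ _) hN
  obtain ⟨h, hh, h1⟩ := hG (fun x => (N:ℝ)⁻¹ • σ x) (K / N)
    (by rw [div_lt_one hNp]; exact lt_of_le_of_lt (le_max_left _ _) hN)
    (fun x y => by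
      rw [← smul_sub, norm_smul, norm_inv, Real.norm_eq_abs, abs_of_pos hNp]
      calc (N:ℝ)⁻¹ * ‖σ x - σ y‖ ≤ (N:ℝ)⁻¹ * (K * ‖x - y‖) := by gcongr; exact hσ x y
        _ = _ := by ring)
  refine ⟨h ^ N, G₀.pow_mem hh N, fun x => ?_⟩
  have key : ∀ k : ℕ, ∀ x, (h ^ k) x = x + ((k:ℝ) * (N:ℝ)⁻¹) • σ x := by
    intro k
    induction k with
    | zero => intro x; simp
    | succ k ih =>
      intro x
      rw [pow_succ', Homeomorph.mul_apply, ih, h1, hσ2]
      rw [add_assoc, ← add_smul]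
      congr 2
      push_cast; ring
  rw [key, mul_inv_cancel₀ hNp.ne', one_smul]

lemma quot_lip {p q : V → ℝ} {π : V →L[ℝ] V} {K C c : ℝ} (hK : 0 ≤ K) (hC : 0 ≤ C) (hc : 0 < c)
    (hp : ∀ x y, |p x - p y| ≤ K * ‖x - y‖) (hq : ∀ x y, |q x - q y| ≤ K * ‖x - y‖)
    (hpC : ∀ x, |p x| ≤ C * ‖π x‖) (hqc : ∀ x, c * ‖π x‖ ≤ q x)
    (hπ : ∀ x y, ‖π x - π y‖ ≤ K * ‖x - y‖) (x y : V) :
    ‖(p x / q x) • π x - (p y / q y) • π y‖ ≤ (C / c * K + K / c + C * K / c ^ 2) * ‖x - y‖ := by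
  wlog hxy : ‖π y‖ ≤ ‖π x‖ generalizing x y
  · have := this y x (by linarith)
    rwa [norm_sub_rev, norm_sub_rev y x] at this
  have hd : 0 ≤ ‖x - y‖ := norm_nonneg _
  by_cases hx : π x = 0
  · have hy : π y = 0 := by
      rw [hx, norm_zero] at hxy
      exact norm_le_zero_iff.1 hxy
    rw [hx, hy]
    simp only [smul_zero, sub_zero, norm_zero]
    positivity
  have hX : 0 < ‖π x‖ := norm_pos_iff.2 hx
  have hqx : 0 < q x := lt_of_lt_of_le (by positivity) (hqc x)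
  have hpq : |p x / q x| ≤ C / c := by
    rw [abs_div, abs_of_pos hqx, div_le_div_iff₀ hqx hc]
    calc |p x| * c ≤ (C * ‖π x‖) * c := by gcongr; exact hpC x
      _ = C * (c * ‖π x‖) := by ring
      _ ≤ C * q x := by gcongr; exact hqc x
  by_cases hy : π y = 0
  · rw [hy, smul_zero, sub_zero, norm_smul, Real.norm_eq_abs]
    have h1 : ‖π x‖ ≤ K * ‖x - y‖ := by
      have := hπ x y
      rwa [hy, sub_zero] at this
    calc |p x / q x| * ‖π x‖ ≤ (C / c) * (K * ‖x - y‖) := by gcongr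
      _ ≤ (C / c * K + K / c + C * K / c ^ 2) * ‖x - y‖ := by
        have : 0 ≤ (K / c + C * K / c ^ 2) * ‖x - y‖ := by positivity
        nlinarith
  have hY : 0 < ‖π y‖ := norm_pos_iff.2 hy
  have hqy : 0 < q y := lt_of_lt_of_le (by positivity) (hqc y)
  have e1 : (p x / q x) • π x - (p y / q y) • π y
      = (p x / q x) • (π x - π y) + (p x / q x - p y / q y) • π y := by
    rw [smul_sub, sub_smul]; abel
  have e2 : p x / q x - p y / q y = (p x - p y) / q x + p y * (q y - q x) / (q x * q y) := by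
    field_simp
    ring
  have e3 : |p x / q x - p y / q y| * ‖π y‖ ≤ (K / c + C * K / c ^ 2) * ‖x - y‖ := by
    rw [e2]
    calc |(p x - p y) / q x + p y * (q y - q x) / (q x * q y)| * ‖π y‖
        ≤ (|(p x - p y) / q x| + |p y * (q y - q x) / (q x * q y)|) * ‖π y‖ := by
          gcongr; exact abs_add_le _ _
      _ = |p x - p y| / q x * ‖π y‖ + |p y| * |q y - q x| / (q x * q y) * ‖π y‖ := by
          rw [abs_div, abs_div, abs_mul, abs_of_pos hqx, abs_of_pos (mul_pos hqx hqy)]; ring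
      _ ≤ (K * ‖x - y‖) / (c * ‖π x‖) * ‖π x‖ +
          (C * ‖π y‖) * (K * ‖x - y‖) / ((c * ‖π x‖) * (c * ‖π y‖)) * ‖π x‖ := by
          have a1 := hp x y
          have a2 := hq y x
          rw [norm_sub_rev] at a2
          have a3 := hpC y
          have a4 := hqc x
          have a5 := hqc y
          gcongr
      _ = (K / c + C * K / c ^ 2) * ‖x - y‖ := by
          field_simp
  rw [e1]
  calc _ ≤ ‖(p x / q x) • (π x - π y)‖ + ‖(p x / q x - p y / q y) • π y‖ := norm_add_le _ _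
    _ = |p x / q x| * ‖π x - π y‖ + |p x / q x - p y / q y| * ‖π y‖ := by
      rw [norm_smul, norm_smul, Real.norm_eq_abs, Real.norm_eq_abs]
    _ ≤ (C / c) * (K * ‖x - y‖) + (K / c + C * K / c ^ 2) * ‖x - y‖ := by
      gcongr
      exact hπ x y
    _ = _ := by ring

end Normalise


section Normalise2

variable {V : Type*} [NormedAddCommGroup V] [NormedSpace ℝ V]

lemma radial_mem {G₀ : Subgroup (V ≃ₜ V)} (hG : HasLip G₀) {π : V →L[ℝ] V}
    (hπ : ∀ x, π (π x) = π x) (q : V → ℝ) {K c : ℝ} (hK : 0 ≤ K) (hc : 0 < c)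
    (hq : ∀ x y, |q x - q y| ≤ K * ‖x - y‖) (hql : ∀ x l, π l = 0 → q (x + l) = q x)
    (hqt : ∀ x (t : ℝ), 0 < t → q (t • x) = t * q x) (hqc : ∀ x, c * ‖π x‖ ≤ q x) :
    ∃ h ∈ G₀, ∀ x, h x = (x - π x) + (q x / ‖π x‖) • π x := by
  have hq0 : q 0 = 0 := by
    have := hqt 0 2 (by norm_num)
    rw [smul_zero] at this
    linarith
  have hqπ : ∀ x, q x = q (π x) := by
    intro x
    have := hql (π x) (x - π x) (by rw [map_sub, hπ, sub_self])
    rwa [add_sub_cancel] at this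
  have hqK : ∀ x, q x ≤ K * ‖π x‖ := by
    intro x
    have := hq (π x) 0
    rw [hq0, sub_zero, sub_zero, ← hqπ] at this
    exact (le_abs_self _).trans this
  have hπn : ∀ x y, ‖π x - π y‖ ≤ (K + ‖π‖) * ‖x - y‖ := by
    intro x y
    rw [← map_sub]
    calc ‖π (x - y)‖ ≤ ‖π‖ * ‖x - y‖ := π.le_opNorm _
      _ ≤ (K + ‖π‖) * ‖x - y‖ := by gcongr; linarith
  have hnn : ∀ x y, |‖π x‖ - ‖π y‖| ≤ ‖π‖ * ‖x - y‖ := by
    intro x y
    calc |‖π x‖ - ‖π y‖| ≤ ‖π x - π y‖ := abs_norm_sub_norm_le _ _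
      _ = ‖π (x - y)‖ := by rw [map_sub]
      _ ≤ ‖π‖ * ‖x - y‖ := π.le_opNorm _
  set p : V → ℝ := fun x => q x - ‖π x‖ with hp
  have hpl : ∀ x y, |p x - p y| ≤ (K + ‖π‖) * ‖x - y‖ := by
    intro x y
    calc |p x - p y| = |(q x - q y) - (‖π x‖ - ‖π y‖)| := by rw [hp]; congr 1; ring
      _ ≤ |q x - q y| + |‖π x‖ - ‖π y‖| := abs_sub _ _
      _ ≤ K * ‖x - y‖ + ‖π‖ * ‖x - y‖ := add_le_add (hq x y) (hnn x y)
      _ = _ := by ring
  have hpC : ∀ x, |p x| ≤ (K + 1) * ‖π x‖ := by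
    intro x
    have h1 := hqK x
    have h2 := hqc x
    have h3 : 0 ≤ ‖π x‖ := norm_nonneg _
    rw [hp, abs_le]
    constructor
    · simp only; nlinarith [mul_nonneg hc.le h3]
    · simp only; nlinarith
  set qs : ℝ → V → ℝ := fun s x => (1 - s) * ‖π x‖ + s * q x with hqs
  have hqsl : ∀ s ∈ Icc (0:ℝ) 1, ∀ x y, |qs s x - qs s y| ≤ (K + ‖π‖) * ‖x - y‖ := by
    intro s hs x y
    calc |qs s x - qs s y| = |(1 - s) * (‖π x‖ - ‖π y‖) + s * (q x - q y)| := by
          rw [hqs]; congr 1; ring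
      _ ≤ |(1 - s) * (‖π x‖ - ‖π y‖)| + |s * (q x - q y)| := abs_add_le _ _
      _ = (1 - s) * |‖π x‖ - ‖π y‖| + s * |q x - q y| := by
          rw [abs_mul, abs_mul, abs_of_nonneg hs.1, abs_of_nonneg (sub_nonneg.2 hs.2)]
      _ ≤ 1 * (‖π‖ * ‖x - y‖) + 1 * (K * ‖x - y‖) := by
          have a1 := hq x y
          have a2 := hnn x y
          have a3 := hs.1
          have a4 := hs.2
          gcongr <;> linarith
      _ = _ := by ring
  have hqsc : ∀ s ∈ Icc (0:ℝ) 1, ∀ x, min c 1 * ‖π x‖ ≤ qs s x := by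
    intro s hs x
    have h1 : min c 1 * ‖π x‖ ≤ q x := le_trans (by gcongr; exact min_le_left _ _) (hqc x)
    have h2 : min c 1 * ‖π x‖ ≤ ‖π x‖ := by
      calc min c 1 * ‖π x‖ ≤ 1 * ‖π x‖ := by gcongr; exact min_le_right _ _
        _ = _ := one_mul _
    have h3 : min c 1 * ‖π x‖ = (1 - s) * (min c 1 * ‖π x‖) + s * (min c 1 * ‖π x‖) := by ring
    rw [h3, hqs]
    have a3 := hs.1
    have a4 : 0 ≤ 1 - s := sub_nonneg.2 hs.2
    simp only
    gcongr
  have hm : 0 < min c 1 := lt_min hc one_pos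
  set L : ℝ := (K + 1) / min c 1 * (K + ‖π‖) + (K + ‖π‖) / min c 1 +
    (K + 1) * (K + ‖π‖) / (min c 1) ^ 2 with hL
  have hquot : ∀ s ∈ Icc (0:ℝ) 1, ∀ x y,
      ‖(p x / qs s x) • π x - (p y / qs s y) • π y‖ ≤ L * ‖x - y‖ := fun s hs x y =>
    quot_lip (by positivity) (by positivity) hm hpl (hqsl s hs) hpC (hqsc s hs) hπn x y
  obtain ⟨N, hN⟩ := exists_nat_gt (max L 0)
  have hNp : (0:ℝ) < N := lt_of_le_of_lt (le_max_right _ _) hN
  have key : ∀ k : ℕ, k ≤ N → ∃ h ∈ G₀, ∀ x,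
      h x = (x - π x) + (qs ((k:ℝ) / N) x / ‖π x‖) • π x := by
    intro k
    induction k with
    | zero =>
      intro _
      refine ⟨1, G₀.one_mem, fun x => ?_⟩
      rw [Homeomorph.one_apply, hqs]
      by_cases hx : π x = 0
      · simp [hx]
      · have : ‖π x‖ ≠ 0 := norm_ne_zero_iff.2 hx
        simp [this]
    | succ k ih =>
      intro hk
      obtain ⟨h, hh, h1⟩ := ih (Nat.le_of_succ_le hk)
      have hkN : (k : ℝ) + 1 ≤ N := by exact_mod_cast hk
      have hs : (k : ℝ) / N ∈ Icc (0:ℝ) 1 := by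
        refine ⟨by positivity, ?_⟩
        rw [div_le_one hNp]; linarith
      set s := (k : ℝ) / N with hsdef
      obtain ⟨u, hu, h2⟩ := hG (fun x => (N:ℝ)⁻¹ • ((p x / qs s x) • π x)) (L / N)
        (by rw [div_lt_one hNp]; exact lt_of_le_of_lt (le_max_left _ _) hN)
        (fun x y => by
          rw [← smul_sub, norm_smul, norm_inv, Real.norm_eq_abs, abs_of_pos hNp]
          calc _ ≤ (N:ℝ)⁻¹ * (L * ‖x - y‖) := by gcongr; exact hquot s hs x y
            _ = _ := by ring)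
      refine ⟨u * h, G₀.mul_mem hu hh, fun x => ?_⟩
      rw [Homeomorph.mul_apply, h2, h1]
      by_cases hx : π x = 0
      · simp [hx]
      · have hX : 0 < ‖π x‖ := norm_pos_iff.2 hx
        have hqsx : 0 < qs s x := lt_of_lt_of_le (by positivity) (hqsc s hs x)
        set r := qs s x / ‖π x‖ with hr
        have hrp : 0 < r := div_pos hqsx hX
        set z := (x - π x) + r • π x with hz
        have hπz : π z = r • π x := by
          rw [hz, map_add, map_smul, map_sub, hπ, sub_self, zero_add]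
        have hqz : q z = r * q x := by
          rw [hqπ z, hπz, hqt _ _ hrp, ← hqπ]
        have hnz : ‖π z‖ = r * ‖π x‖ := by
          rw [hπz, norm_smul, Real.norm_eq_abs, abs_of_pos hrp]
        have hpz : p z = r * p x := by
          rw [hp]; simp only; rw [hqz, hnz]; ring
        have hqsz : qs s z = r * qs s x := by
          rw [hqs]; simp only; rw [hqz, hnz]; ring
        rw [hpz, hqsz, hπz, mul_div_mul_left _ _ hrp.ne', hz, add_assoc, smul_smul, smul_smul,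
          ← add_smul]
        congr 2
        have e1 : p x / qs s x * r = p x / ‖π x‖ := by
          rw [hr]; field_simp
        rw [mul_assoc, e1, hr, hqs, hp, hsdef]
        simp only
        push_cast
        field_simp
        ring
  obtain ⟨h, hh, h1⟩ := key N le_rfl
  refine ⟨h, hh, fun x => ?_⟩
  rw [h1, div_self hNp.ne', hqs]
  simp

/-- every element of `EqH π` can be made norm preserving (in the `π`-direction) by an element
of `G₀`. -/
lemma normalise {G₀ : Subgroup (V ≃ₜ V)} (hG : HasLip G₀) {π : V →L[ℝ] V}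
    (hπ : ∀ x, π (π x) = π x) {g : V ≃ₜ V} (hg : g ∈ EqH π) :
    ∃ u ∈ G₀, ∀ x, u (g x) = (x - π x) + (‖π x‖ / ‖π (g x)‖) • π (g x) := by
  obtain ⟨K, hK, hgl⟩ := hg.2.2.1
  obtain ⟨K', hK', hgl'⟩ := hg.2.2.2
  have hgs := EqH.symm hg
  have hg0 := EqH.zero hg
  have hgs0 := EqH.zero hgs
  have hker : ∀ x, π (x - π x) = 0 := fun x => by rw [map_sub, hπ, sub_self]
  -- the inverse at `π (g x)`
  have hinv : ∀ x, g.symm (π (g x)) = x - (g x - π (g x)) := by
    intro x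
    have h1 : π (g x) = g x + (-(g x - π (g x))) := by abel
    have h2 : π (-(g x - π (g x))) = 0 := by rw [map_neg, hker, neg_zero]
    rw [h1, EqH.add hgs h2, Homeomorph.symm_apply_apply]
    abel
  obtain ⟨S, hS, hS1⟩ := shear_mem hG (fun x => g.symm (π x) - π (g.symm (π x)))
    (K := (1 + ‖π‖) * (K' * ‖π‖)) (fun x y => by
      have e : (g.symm (π x) - π (g.symm (π x))) - (g.symm (π y) - π (g.symm (π y)))
        = (g.symm (π x) - g.symm (π y)) - π (g.symm (π x) - g.symm (π y)) := by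
          rw [map_sub]; abel
      rw [e]
      have h1 : ‖g.symm (π x) - g.symm (π y)‖ ≤ K' * ‖π‖ * ‖x - y‖ := by
        calc _ ≤ K' * ‖π x - π y‖ := hgl' _ _
          _ = K' * ‖π (x - y)‖ := by rw [map_sub]
          _ ≤ K' * (‖π‖ * ‖x - y‖) := by gcongr; exact π.le_opNorm _
          _ = _ := by ring
      calc _ ≤ ‖g.symm (π x) - g.symm (π y)‖ + ‖π (g.symm (π x) - g.symm (π y))‖ := norm_sub_le _ _
        _ ≤ ‖g.symm (π x) - g.symm (π y)‖ + ‖π‖ * ‖g.symm (π x) - g.symm (π y)‖ := by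
          gcongr; exact π.le_opNorm _
        _ = (1 + ‖π‖) * ‖g.symm (π x) - g.symm (π y)‖ := by ring
        _ ≤ (1 + ‖π‖) * (K' * ‖π‖ * ‖x - y‖) := by gcongr
        _ = _ := by ring)
    (fun x y t => by
      rw [map_add, map_smul, hker, smul_zero, add_zero])
  have hSg : ∀ x, S (g x) = (x - π x) + π (g x) := by
    intro x
    rw [hS1, hinv, map_sub, hker]
    abel
  have hq1 : ∀ x, ‖π x‖ ≤ ‖π‖ * K * ‖π (g.symm (π x))‖ := by
    intro x
    set z := g.symm (π x) with hz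
    have h1 : g z = π x := by rw [hz]; simp
    have h2 : g (π z) = π x - (z - π z) := by
      have : π z = z + (-(z - π z)) := by abel
      rw [this, EqH.add hg (by rw [map_neg, hker, neg_zero]), h1]
      abel
    have h3 : π (g (π z)) = π x := by rw [h2, map_sub, hπ, hker, sub_zero]
    calc ‖π x‖ = ‖π (g (π z))‖ := by rw [h3]
      _ ≤ ‖π‖ * ‖g (π z)‖ := π.le_opNorm _
      _ = ‖π‖ * ‖g (π z) - g 0‖ := by rw [hg0, sub_zero]
      _ ≤ ‖π‖ * (K * ‖π z - 0‖) := by gcongr; exact hgl _ _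
      _ = _ := by rw [sub_zero]; ring
  by_cases hπ0 : ‖π‖ * K = 0
  · have hz : ∀ x, π x = 0 := fun x => by
      have := hq1 x
      rw [hπ0, zero_mul] at this
      exact norm_le_zero_iff.1 this
    refine ⟨S, hS, fun x => ?_⟩
    rw [hSg, hz, hz]
    simp
  have hπK : 0 < ‖π‖ * K := lt_of_le_of_ne (by positivity) (Ne.symm hπ0)
  obtain ⟨R, hR, hR1⟩ := radial_mem hG hπ (fun x => ‖π (g.symm (π x))‖)
    (K := ‖π‖ * (K' * ‖π‖)) (c := (‖π‖ * K)⁻¹) (by positivity) (by positivity)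
    (fun x y => by
      calc |‖π (g.symm (π x))‖ - ‖π (g.symm (π y))‖|
          ≤ ‖π (g.symm (π x)) - π (g.symm (π y))‖ := abs_norm_sub_norm_le _ _
        _ = ‖π (g.symm (π x) - g.symm (π y))‖ := by rw [map_sub]
        _ ≤ ‖π‖ * ‖g.symm (π x) - g.symm (π y)‖ := π.le_opNorm _
        _ ≤ ‖π‖ * (K' * ‖π x - π y‖) := by gcongr; exact hgl' _ _
        _ = ‖π‖ * (K' * ‖π (x - y)‖) := by rw [map_sub]
        _ ≤ ‖π‖ * (K' * (‖π‖ * ‖x - y‖)) := by gcongr; exact π.le_opNorm _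
        _ = _ := by ring)
    (fun x l hl => by rw [map_add, hl, add_zero])
    (fun x t ht => by
      rw [map_smul, EqH.smul hgs _ ht, map_smul, norm_smul, Real.norm_eq_abs, abs_of_pos ht])
    (fun x => by
      rw [inv_mul_le_iff₀ hπK]
      exact hq1 x)
  refine ⟨R * S, G₀.mul_mem hR hS, fun x => ?_⟩
  rw [Homeomorph.mul_apply, hR1, hSg]
  have h1 : π ((x - π x) + π (g x)) = π (g x) := by rw [map_add, hker, hπ, zero_add]
  have h2 : π (g.symm (π (g x))) = π x := by rw [hinv, map_sub, hker, sub_zero]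
  rw [h1, h2]
  congr 1
  abel

end Normalise2


section Push

variable {V : Type*} [NormedAddCommGroup V] [NormedSpace ℝ V]

/-- `F` agrees on `X` with an element of `H`. -/
def Good (H : Subgroup (V ≃ₜ V)) (F : V ≃ₜ V) (X : Set V) : Prop := ∃ g ∈ H, ∀ x ∈ X, F x = g x

lemma Good.mono {H : Subgroup (V ≃ₜ V)} {F : V ≃ₜ V} {X Y : Set V} (h : Good H F X) (hY : Y ⊆ X) :
    Good H F Y := by
  obtain ⟨g, hg, h1⟩ := h
  exact ⟨g, hg, fun x hx => h1 x (hY hx)⟩

lemma Good.push {H : Subgroup (V ≃ₜ V)} {F : V ≃ₜ V} {X : Set V} (h : Good H F X)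
    {u c : V ≃ₜ V} (hu : u ∈ H) (hc : c ∈ H) {N : Set V} (hN : ∀ x ∈ N, F x = u x)
    (hcN : ∀ x, x ∉ N → c x = x) : Good H F (c '' X) := by
  obtain ⟨g, hg, h1⟩ := h
  refine ⟨u * c * u⁻¹ * g * c⁻¹,
    H.mul_mem (H.mul_mem (H.mul_mem (H.mul_mem hu hc) (H.inv_mem hu)) hg) (H.inv_mem hc), ?_⟩
  rintro _ ⟨x, hx, rfl⟩
  have e : (u * c * u⁻¹ * g * c⁻¹) (c x) = u (c (u.symm (g (c.symm (c x))))) := rfl
  rw [e, Homeomorph.symm_apply_apply, ← h1 x hx]
  by_cases hxN : x ∈ N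
  · have hcx : c x ∈ N := by
      by_contra h2
      have h3 := hcN _ h2
      have h4 : c x = x := c.injective h3
      rw [h4] at h2
      exact h2 hxN
    rw [hN _ hcx, hN _ hxN, Homeomorph.symm_apply_apply]
  · rw [hcN x hxN]
    have h2 : u.symm (F x) ∉ N := by
      intro h3
      have h4 := hN _ h3
      rw [Homeomorph.apply_symm_apply] at h4
      have h5 := F.injective h4
      rw [h5] at h3
      exact hxN h3
    rw [hcN _ h2, Homeomorph.apply_symm_apply]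

lemma push_mem {G₀ : Subgroup (V ≃ₜ V)} (hG : HasLip G₀) {π : V →L[ℝ] V} {ψ : V → V} {K : ℝ}
    (hK0 : 0 ≤ K) (hK : K < 1) (hψ : ∀ x y, ‖ψ x - ψ y‖ ≤ K * ‖x - y‖)
    (hψl : ∀ x l, π l = 0 → ψ (x + l) = ψ x) (hψt : ∀ x (t : ℝ), 0 < t → ψ (t • x) = t • ψ x) :
    ∃ c ∈ G₀, c ∈ EqH π ∧ ∀ x, c x = x + ψ x := by
  obtain ⟨c, hc, h1⟩ := hG ψ K hK hψ
  refine ⟨c, hc, ⟨fun x l hl => ?_, fun x t ht => ?_, ⟨1 + K, by positivity, fun x y => ?_⟩,
    ⟨(1 - K)⁻¹, inv_pos.2 (by linarith), fun x y => ?_⟩⟩, h1⟩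
  · rw [h1, h1, hψl _ _ hl]; abel
  · rw [h1, h1, hψt _ _ ht, smul_add]
  · rw [h1, h1]
    calc ‖x + ψ x - (y + ψ y)‖ = ‖(x - y) + (ψ x - ψ y)‖ := by congr 1; abel
      _ ≤ ‖x - y‖ + ‖ψ x - ψ y‖ := norm_add_le _ _
      _ ≤ ‖x - y‖ + K * ‖x - y‖ := by gcongr; exact hψ x y
      _ = _ := by ring
  · set x' := c.symm x with hx'
    set y' := c.symm y with hy'
    have ex : x = x' + ψ x' := by rw [← h1, hx']; simp
    have ey : y = y' + ψ y' := by rw [← h1, hy']; simp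
    have h2 : ‖x' - y'‖ ≤ ‖x - y‖ + K * ‖x' - y'‖ := by
      calc ‖x' - y'‖ = ‖(x - y) - (ψ x' - ψ y')‖ := by
            congr 1; rw [ex, ey]; abel
        _ ≤ ‖x - y‖ + ‖ψ x' - ψ y'‖ := norm_sub_le _ _
        _ ≤ _ := by gcongr; exact hψ _ _
    rw [inv_mul_eq_div, le_div_iff₀ (by linarith)]
    linarith

end Push

/-- a decomposition of the space as `ker π ⊕ ℝ p ⊕ range Y`. -/
structure Frame (V : Type*) [NormedAddCommGroup V] [NormedSpace ℝ V] where
  π : V →L[ℝ] V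
  idem : ∀ x, π (π x) = π x
  p : V
  hp : π p = p
  a : V →L[ℝ] ℝ
  hap : a p = 1
  haπ : ∀ x, a (π x) = a x

namespace Frame

variable {V : Type*} [NormedAddCommGroup V] [NormedSpace ℝ V] (f : Frame V)

/-- the projection to the third summand -/
noncomputable def Y : V →L[ℝ] V := f.π - f.a.smulRight f.p

lemma Y_apply (x : V) : f.Y x = f.π x - f.a x • f.p := by simp [Y]

lemma Y_p : f.Y f.p = 0 := by rw [Y_apply, f.hp, f.hap, one_smul, sub_self]

lemma π_Y (x : V) : f.π (f.Y x) = f.Y x := by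
  rw [Y_apply, map_sub, f.idem, map_smul, f.hp]

lemma a_Y (x : V) : f.a (f.Y x) = 0 := by
  rw [Y_apply, map_sub, f.haπ, map_smul, f.hap, smul_eq_mul, mul_one, sub_self]

lemma Y_Y (x : V) : f.Y (f.Y x) = f.Y x := by
  rw [Y_apply f (f.Y x), π_Y, a_Y, zero_smul, sub_zero]

lemma decomp (x : V) : f.π x = f.a x • f.p + f.Y x := by rw [Y_apply]; abel

lemma a_ker {l : V} (hl : f.π l = 0) : f.a l = 0 := by rw [← f.haπ, hl, map_zero]

lemma Y_ker {l : V} (hl : f.π l = 0) : f.Y l = 0 := by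
  rw [Y_apply, hl, f.a_ker hl, zero_smul, sub_zero]

lemma Y_sub_p (x : V) (d : ℝ) : f.Y (x - d • f.p) = f.Y x := by
  rw [map_sub, map_smul, Y_p, smul_zero, sub_zero]

lemma Y_add_p (x : V) (d : ℝ) : f.Y (x + d • f.p) = f.Y x := by
  rw [map_add, map_smul, Y_p, smul_zero, add_zero]

lemma a_sub_p (x : V) (d : ℝ) : f.a (x - d • f.p) = f.a x - d := by
  rw [map_sub, map_smul, f.hap, smul_eq_mul, mul_one]

lemma a_add_p (x : V) (d : ℝ) : f.a (x + d • f.p) = f.a x + d := by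
  rw [map_add, map_smul, f.hap, smul_eq_mul, mul_one]

/-- homogeneous bump function -/
noncomputable def mu (z : V) (r : ℝ) (x : V) : ℝ :=
  max 0 (min ‖f.Y x‖ (2 * ‖f.Y x‖ - ‖f.π x - ‖f.Y x‖ • z‖ / r))

lemma mu_nonneg (z : V) (r : ℝ) (x : V) : 0 ≤ f.mu z r x := le_max_left _ _

lemma mu_le (z : V) (r : ℝ) (x : V) : f.mu z r x ≤ ‖f.Y x‖ :=
  max_le (norm_nonneg _) (min_le_left _ _)

lemma mu_eq {z : V} {r : ℝ} (hr : 0 < r) {x : V} (h : ‖f.π x - ‖f.Y x‖ • z‖ ≤ r * ‖f.Y x‖) :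
    f.mu z r x = ‖f.Y x‖ := by
  have h1 : ‖f.π x - ‖f.Y x‖ • z‖ / r ≤ ‖f.Y x‖ := by
    rw [div_le_iff₀ hr]; linarith
  rw [mu, min_eq_left (by linarith), max_eq_right (norm_nonneg _)]

lemma mu_zero {z : V} {r : ℝ} (hr : 0 < r) {x : V}
    (h : ¬ ‖f.π x - ‖f.Y x‖ • z‖ < 2 * r * ‖f.Y x‖) : f.mu z r x = 0 := by
  push Not at h
  have h1 : 2 * ‖f.Y x‖ ≤ ‖f.π x - ‖f.Y x‖ • z‖ / r := by
    rw [le_div_iff₀ hr]; linarith
  rw [mu]
  exact max_eq_left ((min_le_right _ _).trans (by linarith))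

lemma mu_ker (z : V) (r : ℝ) (x l : V) (hl : f.π l = 0) : f.mu z r (x + l) = f.mu z r x := by
  rw [mu, mu, map_add, map_add, hl, f.Y_ker hl, add_zero, add_zero]

lemma mu_smul (z : V) (r : ℝ) (x : V) (t : ℝ) (ht : 0 < t) :
    f.mu z r (t • x) = t * f.mu z r x := by
  rw [mu, mu, map_smul, map_smul, norm_smul, Real.norm_eq_abs, abs_of_pos ht, mul_smul, ← smul_sub,
    norm_smul, Real.norm_eq_abs, abs_of_pos ht, mul_max_of_nonneg _ _ ht.le,
    mul_min_of_nonneg _ _ ht.le, mul_zero]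
  congr 2
  ring

/-- Lipschitz constant of `mu` -/
noncomputable def muL (z : V) (r : ℝ) : ℝ := 2 * ‖f.Y‖ + (‖f.π‖ + ‖f.Y‖ * ‖z‖) / r

lemma muL_nonneg (z : V) {r : ℝ} (hr : 0 < r) : 0 ≤ f.muL z r := by
  rw [muL]; positivity

lemma mu_lip (z : V) {r : ℝ} (hr : 0 < r) (x y : V) :
    |f.mu z r x - f.mu z r y| ≤ f.muL z r * ‖x - y‖ := by
  have hY : ∀ x y, |‖f.Y x‖ - ‖f.Y y‖| ≤ ‖f.Y‖ * ‖x - y‖ := by
    intro x y
    calc |‖f.Y x‖ - ‖f.Y y‖| ≤ ‖f.Y x - f.Y y‖ := abs_norm_sub_norm_le _ _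
      _ = ‖f.Y (x - y)‖ := by rw [map_sub]
      _ ≤ _ := f.Y.le_opNorm _
  have h1 : |(2 * ‖f.Y x‖ - ‖f.π x - ‖f.Y x‖ • z‖ / r) - (2 * ‖f.Y y‖ - ‖f.π y - ‖f.Y y‖ • z‖ / r)|
      ≤ f.muL z r * ‖x - y‖ := by
    have h2 : |‖f.π x - ‖f.Y x‖ • z‖ - ‖f.π y - ‖f.Y y‖ • z‖| ≤ (‖f.π‖ + ‖f.Y‖ * ‖z‖) * ‖x - y‖ := by
      calc _ ≤ ‖(f.π x - ‖f.Y x‖ • z) - (f.π y - ‖f.Y y‖ • z)‖ := abs_norm_sub_norm_le _ _
        _ = ‖f.π (x - y) - (‖f.Y x‖ - ‖f.Y y‖) • z‖ := by
          congr 1; rw [map_sub, sub_smul]; abel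
        _ ≤ ‖f.π (x - y)‖ + ‖(‖f.Y x‖ - ‖f.Y y‖) • z‖ := norm_sub_le _ _
        _ ≤ ‖f.π‖ * ‖x - y‖ + (‖f.Y‖ * ‖x - y‖) * ‖z‖ := by
          rw [norm_smul, Real.norm_eq_abs]
          gcongr
          · exact f.π.le_opNorm _
          · exact hY x y
        _ = _ := by ring
    calc _ = |2 * (‖f.Y x‖ - ‖f.Y y‖) -
          (‖f.π x - ‖f.Y x‖ • z‖ - ‖f.π y - ‖f.Y y‖ • z‖) / r| := by congr 1; ring
      _ ≤ |2 * (‖f.Y x‖ - ‖f.Y y‖)| +
          |(‖f.π x - ‖f.Y x‖ • z‖ - ‖f.π y - ‖f.Y y‖ • z‖) / r| := abs_sub _ _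
      _ = 2 * |‖f.Y x‖ - ‖f.Y y‖| +
          |‖f.π x - ‖f.Y x‖ • z‖ - ‖f.π y - ‖f.Y y‖ • z‖| / r := by
        rw [abs_mul, abs_div, abs_of_pos hr, abs_two]
      _ ≤ 2 * (‖f.Y‖ * ‖x - y‖) + ((‖f.π‖ + ‖f.Y‖ * ‖z‖) * ‖x - y‖) / r := by
        gcongr
        exact hY x y
      _ = _ := by rw [muL]; ring
  have h3 : |‖f.Y x‖ - ‖f.Y y‖| ≤ f.muL z r * ‖x - y‖ := by
    refine (hY x y).trans ?_
    rw [muL]
    gcongr
    have : 0 ≤ (‖f.π‖ + ‖f.Y‖ * ‖z‖) / r := by positivity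
    linarith [norm_nonneg f.Y]
  calc |f.mu z r x - f.mu z r y|
      ≤ max |(0:ℝ) - 0| |min ‖f.Y x‖ (2 * ‖f.Y x‖ - ‖f.π x - ‖f.Y x‖ • z‖ / r) -
        min ‖f.Y y‖ (2 * ‖f.Y y‖ - ‖f.π y - ‖f.Y y‖ • z‖ / r)| := abs_max_sub_max_le_max _ _ _ _
    _ ≤ f.muL z r * ‖x - y‖ := by
      refine max_le ?_ ?_
      · rw [sub_zero, abs_zero]
        exact mul_nonneg (f.muL_nonneg z hr) (norm_nonneg _)
      · exact (abs_min_sub_min_le_max _ _ _ _).trans (max_le h3 h1)

end Frame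


section Push2

variable {V : Type*} [NormedAddCommGroup V] [NormedSpace ℝ V] [ProperSpace V]

/-- homogeneous elements of the closure of `G₀` -/
def Hg (G₀ : Subgroup (V ≃ₜ V)) (π : V →L[ℝ] V) : Subgroup (V ≃ₜ V) := EqH π ⊓ cl G₀

lemma chain {G₀ : Subgroup (V ≃ₜ V)} (hG : HasLip G₀) (f : Frame V) (F : V ≃ₜ V) {η : ℝ}
    (hη : 0 < η) (N : ℕ) (r : V → ℝ) (u : V → (V ≃ₜ V)) :
    ∀ l : List V, l.length ≤ N → (∀ z ∈ l, 0 < r z ∧ u z ∈ Hg G₀ f.π ∧
      (∀ x, ‖f.π x - ‖f.Y x‖ • z‖ < 2 * r z * ‖f.Y x‖ → F x = u z x) ∧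
      η * f.muL z (r z) * ‖f.p‖ < 1 ∧ N * η * ‖f.p‖ ≤ r z / 2) →
    ∃ C : V ≃ₜ V, C ∈ Hg G₀ f.π ∧ (∀ X, Good (Hg G₀ f.π) F X → Good (Hg G₀ f.π) F (C '' X)) ∧
      (∀ x, ∃ d, 0 ≤ d ∧ d ≤ l.length * η * ‖f.Y x‖ ∧ C x = x - d • f.p ∧
        ∀ z ∈ l, ‖f.π x - ‖f.Y x‖ • z‖ ≤ r z / 2 * ‖f.Y x‖ → η * ‖f.Y x‖ ≤ d) ∧
      (∀ (x : V) (s : ℝ), 0 < s → f.a (C x) < f.a (C (x + s • f.p))) := by
  intro l
  induction l with
  | nil =>
    intro _ _
    refine ⟨1, (Hg G₀ f.π).one_mem, fun X hX => ?_, fun x => ⟨0, le_rfl, by simp, by simp, by simp⟩,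
      fun x s hs => ?_⟩
    · refine hX.mono ?_
      rintro _ ⟨x, hx, rfl⟩
      exact hx
    · rw [Homeomorph.one_apply, Homeomorph.one_apply, f.a_add_p]
      linarith
  | cons z l ih =>
    intro hlen hl
    have hlen' : l.length ≤ N := by
      rw [List.length_cons] at hlen; omega
    obtain ⟨C, hC, hgood, hd, hmono⟩ := ih hlen' (fun w hw => hl w (List.mem_cons_of_mem _ hw))
    obtain ⟨hr, hu, hFu, hη1, hη2⟩ := hl z List.mem_cons_self
    have hLn := f.muL_nonneg z hr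
    obtain ⟨c, hc, hcE, hc1⟩ := push_mem hG (π := f.π)
      (ψ := fun x => -((η * f.mu z (r z) x) • f.p)) (K := η * f.muL z (r z) * ‖f.p‖)
      (by positivity) hη1
      (fun x y => by
        have e : -((η * f.mu z (r z) x) • f.p) - -((η * f.mu z (r z) y) • f.p)
            = -((η * (f.mu z (r z) x - f.mu z (r z) y)) • f.p) := by
          rw [mul_sub, sub_smul]; abel
        rw [e, norm_neg, norm_smul, Real.norm_eq_abs, abs_mul, abs_of_pos hη]
        calc η * |f.mu z (r z) x - f.mu z (r z) y| * ‖f.p‖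
            ≤ η * (f.muL z (r z) * ‖x - y‖) * ‖f.p‖ := by gcongr; exact f.mu_lip z hr x y
          _ = _ := by ring)
      (fun x l hl => by rw [f.mu_ker _ _ _ _ hl])
      (fun x t ht => by
        rw [f.mu_smul _ _ _ _ ht, smul_neg, smul_smul]; congr 2; ring)
    have hc2 : ∀ x, c x = x - (η * f.mu z (r z) x) • f.p := fun x => by
      rw [hc1, sub_eq_add_neg]
    have hcH : c ∈ Hg G₀ f.π := ⟨hcE, le_cl _ hc⟩
    have hcmono : ∀ (x : V) (s : ℝ), 0 < s → f.a (c x) < f.a (c (x + s • f.p)) := by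
      intro x s hs
      rw [hc2, hc2, f.a_sub_p, f.a_sub_p, f.a_add_p]
      have h1 := f.mu_lip z hr (x + s • f.p) x
      have h2 : ‖x + s • f.p - x‖ = s * ‖f.p‖ := by
        rw [add_sub_cancel_left, norm_smul, Real.norm_eq_abs, abs_of_pos hs]
      rw [h2] at h1
      have h3 := (le_abs_self _).trans h1
      have h4 : η * (f.mu z (r z) (x + s • f.p) - f.mu z (r z) x) ≤
          η * (f.muL z (r z) * (s * ‖f.p‖)) := by gcongr
      have h5 : η * (f.muL z (r z) * (s * ‖f.p‖)) = (η * f.muL z (r z) * ‖f.p‖) * s := by ring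
      have h6 : (η * f.muL z (r z) * ‖f.p‖) * s < 1 * s := by gcongr
      nlinarith
    refine ⟨c * C, (Hg G₀ f.π).mul_mem hcH hC, fun X hX => ?_, fun x => ?_, fun x s hs => ?_⟩
    · have h1 := (hgood X hX).push hu hcH (N := {x | ‖f.π x - ‖f.Y x‖ • z‖ < 2 * r z * ‖f.Y x‖})
        (fun x hx => hFu x hx) (fun x hx => by
          rw [hc2, f.mu_zero hr hx, mul_zero, zero_smul, sub_zero])
      refine h1.mono ?_
      rintro _ ⟨x, hx, rfl⟩
      exact ⟨C x, mem_image_of_mem _ hx, rfl⟩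
    · obtain ⟨d, hd0, hd1, hd2, hd3⟩ := hd x
      have hYC : f.Y (C x) = f.Y x := by rw [hd2, f.Y_sub_p]
      refine ⟨d + η * f.mu z (r z) (C x), ?_, ?_, ?_, ?_⟩
      · have := f.mu_nonneg z (r z) (C x)
        positivity
      · have h1 := f.mu_le z (r z) (C x)
        rw [hYC] at h1
        have h2 : η * f.mu z (r z) (C x) ≤ η * ‖f.Y x‖ := by gcongr
        rw [List.length_cons]
        push_cast
        nlinarith
      · rw [Homeomorph.mul_apply, hc2, add_smul]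
        nth_rewrite 1 [hd2]
        abel
      · intro w hw hw1
        have hmu0 : 0 ≤ η * f.mu z (r z) (C x) := mul_nonneg hη.le (f.mu_nonneg z (r z) (C x))
        rcases List.mem_cons.1 hw with rfl | hw'
        · have h1 : f.mu w (r w) (C x) = ‖f.Y x‖ := by
            rw [f.mu_eq hr, hYC]
            rw [hYC, hd2, map_sub, map_smul, f.hp]
            have hNd : (l.length : ℝ) ≤ N := by exact_mod_cast hlen'
            have h2 : d * ‖f.p‖ ≤ r w / 2 * ‖f.Y x‖ := by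
              calc d * ‖f.p‖ ≤ (l.length * η * ‖f.Y x‖) * ‖f.p‖ := by gcongr
                _ ≤ (N * η * ‖f.Y x‖) * ‖f.p‖ := by gcongr
                _ = (N * η * ‖f.p‖) * ‖f.Y x‖ := by ring
                _ ≤ _ := by gcongr
            calc ‖f.π x - d • f.p - ‖f.Y x‖ • w‖ = ‖(f.π x - ‖f.Y x‖ • w) - d • f.p‖ := by
                  congr 1; abel
              _ ≤ ‖f.π x - ‖f.Y x‖ • w‖ + ‖d • f.p‖ := norm_sub_le _ _
              _ = ‖f.π x - ‖f.Y x‖ • w‖ + d * ‖f.p‖ := by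
                rw [norm_smul, Real.norm_eq_abs, abs_of_nonneg hd0]
              _ ≤ r w / 2 * ‖f.Y x‖ + r w / 2 * ‖f.Y x‖ := add_le_add hw1 h2
              _ = r w * ‖f.Y x‖ := by ring
          rw [h1]
          linarith
        · have := hd3 w hw' hw1
          linarith
    · rw [Homeomorph.mul_apply, Homeomorph.mul_apply]
      obtain ⟨d, _, _, hd2, _⟩ := hd x
      obtain ⟨d', _, _, hd2', _⟩ := hd (x + s • f.p)
      have h1 := hmono x s hs
      have h2 : C (x + s • f.p) = C x + (s - d' + d) • f.p := by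
        rw [hd2, hd2', add_smul, sub_smul]; abel
      rw [h2, f.a_add_p] at h1
      rw [h2]
      exact hcmono _ _ (by linarith)

end Push2


section Sweep

variable {V : Type*} [NormedAddCommGroup V] [NormedSpace ℝ V]

lemma eq_of_eq_cone {π : V →L[ℝ] V} (hπ : ∀ x, π (π x) = π x) {F u : V ≃ₜ V} (hF : F ∈ EqH π)
    (hu : u ∈ EqH π) {x : V} {t : ℝ} (ht : 0 < t) (h : F (t⁻¹ • π x) = u (t⁻¹ • π x)) :
    F x = u x := by
  have h1 : F (π x) = u (π x) := by
    have e : π x = t • (t⁻¹ • π x) := by rw [smul_smul, mul_inv_cancel₀ ht.ne', one_smul]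
    rw [e, EqH.smul hF _ ht, EqH.smul hu _ ht, h]
  have h2 : π (x - π x) = 0 := by rw [map_sub, hπ, sub_self]
  have e2 : x = π x + (x - π x) := by abel
  rw [e2, EqH.add hF h2, EqH.add hu h2, h1]

variable [ProperSpace V]

lemma sweep {G₀ : Subgroup (V ≃ₜ V)} (hG : HasLip G₀) (f : Frame V) (F : V ≃ₜ V)
    (hF : F ∈ EqH f.π)
    (hloc : ∀ x₀, f.π x₀ = x₀ → x₀ ≠ 0 → ∃ u, u ∈ Hg G₀ f.π ∧ ∃ ρ : ℝ, 0 < ρ ∧
      ∀ x, ‖x - x₀‖ < ρ → F x = u x) (T : ℝ) :
    Good (Hg G₀ f.π) F {x | -T * ‖f.Y x‖ ≤ f.a x} := by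
  choose! u hu ρ hρ hFu using hloc
  have hp0 : f.p ≠ 0 := by
    intro h
    have := f.hap
    rw [h, map_zero] at this
    exact zero_ne_one this
  have hρp := hρ f.p f.hp hp0
  set τ₀ : ℝ := 2 / ρ f.p with hτ₀
  have hτ₀p : 0 < τ₀ := by rw [hτ₀]; positivity
  -- initial step
  have hinit : Good (Hg G₀ f.π) F {x | τ₀ * ‖f.Y x‖ ≤ f.a x} := by
    refine ⟨u f.p, hu f.p f.hp hp0, fun x hx => ?_⟩
    have hx' : τ₀ * ‖f.Y x‖ ≤ f.a x := hx
    have hux : u f.p ∈ EqH f.π := (hu f.p f.hp hp0).1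
    rcases (mul_nonneg hτ₀p.le (norm_nonneg (f.Y x))).trans hx' |>.lt_or_eq with ha | ha
    · refine eq_of_eq_cone f.idem hF hux ha (hFu f.p f.hp hp0 _ ?_)
      have e : (f.a x)⁻¹ • f.π x - f.p = (f.a x)⁻¹ • f.Y x := by
        rw [f.decomp, smul_add, smul_smul, inv_mul_cancel₀ ha.ne', one_smul]
        abel
      rw [e, norm_smul, norm_inv, Real.norm_eq_abs, abs_of_pos ha, inv_mul_lt_iff₀ ha]
      have h1 : ‖f.Y x‖ ≤ f.a x / τ₀ := by rw [le_div_iff₀ hτ₀p]; linarith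
      have h2 : f.a x / τ₀ = f.a x * ρ f.p / 2 := by rw [hτ₀]; field_simp
      have h3 : 0 < f.a x * ρ f.p := mul_pos ha hρp
      linarith
    · have hY0 : f.Y x = 0 := by
        rw [← ha] at hx'
        have : ‖f.Y x‖ ≤ 0 := by
          by_contra h
          push Not at h
          have := mul_pos hτ₀p h
          linarith
        exact norm_le_zero_iff.1 this
      have hπ0 : f.π x = 0 := by rw [f.decomp, hY0, ← ha, zero_smul, add_zero]
      refine eq_of_eq_cone f.idem hF hux one_pos ?_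
      rw [hπ0, smul_zero, EqH.zero hF, EqH.zero hux]
  set T' : ℝ := max T τ₀ with hT'
  -- compactness
  set K : Set V := {x | f.π x = x ∧ ‖f.Y x‖ = 1 ∧ |f.a x| ≤ T'} with hK
  have hKc : IsCompact K := by
    apply Metric.isCompact_of_isClosed_isBounded
    · exact (isClosed_eq f.π.continuous continuous_id).inter
        ((isClosed_eq f.Y.continuous.norm continuous_const).inter
          (isClosed_le f.a.continuous.abs continuous_const))
    · refine isBounded_iff_forall_norm_le.2 ⟨T' * ‖f.p‖ + 1, ?_⟩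
      rintro x ⟨h1, h2, h3⟩
      rw [← h1, f.decomp]
      calc ‖f.a x • f.p + f.Y x‖ ≤ ‖f.a x • f.p‖ + ‖f.Y x‖ := norm_add_le _ _
        _ = |f.a x| * ‖f.p‖ + 1 := by rw [norm_smul, Real.norm_eq_abs, h2]
        _ ≤ T' * ‖f.p‖ + 1 := by gcongr
  have hK0 : ∀ x ∈ K, x ≠ 0 := by
    rintro x ⟨_, h2, _⟩ rfl
    rw [map_zero, norm_zero] at h2
    exact zero_ne_one h2
  obtain ⟨t, htK, hcov⟩ := hKc.elim_nhds_subcover (fun x => ball x (ρ x / 4))
    (fun x hx => ball_mem_nhds x (by have := hρ x hx.1 (hK0 x hx); positivity))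
  -- choice of `η`
  have hη : ∃ η : ℝ, 0 < η ∧ ∀ z ∈ t, η * f.muL z (ρ z / 2) * ‖f.p‖ < 1 ∧
      (t.card : ℝ) * η * ‖f.p‖ ≤ ρ z / 2 / 2 := by
    have h1 : ∀ᶠ η in 𝓝[>] (0:ℝ), ∀ z ∈ t, η * f.muL z (ρ z / 2) * ‖f.p‖ < 1 ∧
      (t.card : ℝ) * η * ‖f.p‖ ≤ ρ z / 2 / 2 := by
      rw [Filter.eventually_all_finset]
      intro z hz
      have hz1 := hρ z (htK z hz).1 (hK0 z (htK z hz))
      refine Filter.Eventually.and ?_ ?_
      · have : Filter.Tendsto (fun η : ℝ => η * f.muL z (ρ z / 2) * ‖f.p‖) (𝓝[>] 0) (𝓝 0) := by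
          have h2 : Continuous (fun η : ℝ => η * f.muL z (ρ z / 2) * ‖f.p‖) := by fun_prop
          have h3 := h2.tendsto 0
          simp only [zero_mul] at h3
          exact h3.mono_left nhdsWithin_le_nhds
        exact this.eventually_lt_const one_pos
      · have : Filter.Tendsto (fun η : ℝ => (t.card : ℝ) * η * ‖f.p‖) (𝓝[>] 0) (𝓝 0) := by
          have h2 : Continuous (fun η : ℝ => (t.card : ℝ) * η * ‖f.p‖) := by fun_prop
          have h3 := h2.tendsto 0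
          simp only [mul_zero, zero_mul] at h3
          exact h3.mono_left nhdsWithin_le_nhds
        exact (this.eventually_lt_const (u := ρ z / 2 / 2) (by positivity)).mono fun _ h => h.le
    obtain ⟨η, h2, h3⟩ := (h1.and self_mem_nhdsWithin).exists
    exact ⟨η, h3, h2⟩
  obtain ⟨η, hη0, hη1⟩ := hη
  obtain ⟨C, hC, hgood, hd, hmono⟩ := chain hG f F hη0 t.card (fun z => ρ z / 2) u t.toList
    (by rw [Finset.length_toList]) (fun z hz => by
      have hzt : z ∈ t := Finset.mem_toList.1 hz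
      have hzK := htK z hzt
      have hz0 := hK0 z hzK
      have hz1 := hρ z hzK.1 hz0
      refine ⟨by positivity, hu z hzK.1 hz0, fun x hx => ?_, (hη1 z hzt).1, (hη1 z hzt).2⟩
      have hYx : 0 < ‖f.Y x‖ := by
        rcases (norm_nonneg (f.Y x)).lt_or_eq with h | h
        · exact h
        · rw [← h, mul_zero] at hx
          exact absurd hx (not_lt.2 (norm_nonneg _))
      refine eq_of_eq_cone f.idem hF (hu z hzK.1 hz0).1 hYx (hFu z hzK.1 hz0 _ ?_)
      have e : ‖f.Y x‖⁻¹ • f.π x - z = ‖f.Y x‖⁻¹ • (f.π x - ‖f.Y x‖ • z) := by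
        rw [smul_sub, smul_smul, inv_mul_cancel₀ hYx.ne', one_smul]
      rw [e, norm_smul, norm_inv, norm_norm, inv_mul_lt_iff₀ hYx]
      linarith)
  -- one step
  have hstep : ∀ τ, |τ| ≤ T' → Good (Hg G₀ f.π) F {x | τ * ‖f.Y x‖ ≤ f.a x} →
      Good (Hg G₀ f.π) F {x | (τ - η) * ‖f.Y x‖ ≤ f.a x} := by
    intro τ hτ hX
    refine (hgood _ hX).mono ?_
    intro x' hx'
    obtain ⟨x, rfl⟩ := C.surjective x'
    refine ⟨x, ?_, rfl⟩
    obtain ⟨d, hd0, hd1, hd2, _⟩ := hd x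
    have hYC : f.Y (C x) = f.Y x := by rw [hd2, f.Y_sub_p]
    have hx1 : (τ - η) * ‖f.Y x‖ ≤ f.a (C x) := by
      have : (τ - η) * ‖f.Y (C x)‖ ≤ f.a (C x) := hx'
      rwa [hYC] at this
    show τ * ‖f.Y x‖ ≤ f.a x
    by_contra hcon
    push Not at hcon
    rcases (norm_nonneg (f.Y x)).lt_or_eq with hY | hY
    · set s := τ * ‖f.Y x‖ - f.a x with hs
      have hsp : 0 < s := by rw [hs]; linarith
      obtain ⟨d', _, _, hd2', hd3'⟩ := hd (x + s • f.p)
      have hYb : f.Y (x + s • f.p) = f.Y x := f.Y_add_p _ _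
      have hab : f.a (x + s • f.p) = τ * ‖f.Y x‖ := by rw [f.a_add_p, hs]; ring
      set w := ‖f.Y x‖⁻¹ • f.π (x + s • f.p) with hw
      have hwK : w ∈ K := by
        refine ⟨?_, ?_, ?_⟩
        · rw [hw, map_smul, f.idem]
        · have : f.Y (f.π (x + s • f.p)) = f.Y x := by
            rw [f.Y_apply (f.π _), f.idem, f.haπ, ← f.Y_apply, hYb]
          rw [hw, map_smul, this, norm_smul, norm_inv, norm_norm, inv_mul_cancel₀ hY.ne']
        · rw [hw, map_smul, f.haπ, hab, smul_eq_mul]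
          have : ‖f.Y x‖⁻¹ * (τ * ‖f.Y x‖) = τ := by field_simp
          rw [this]
          exact hτ
      obtain ⟨z, hz, hwz⟩ : ∃ z ∈ t, w ∈ ball z (ρ z / 4) := by
        have := hcov hwK
        simpa using this
      have h1 := hd3' z (Finset.mem_toList.2 hz) (by
        rw [hYb]
        have e : f.π (x + s • f.p) - ‖f.Y x‖ • z = ‖f.Y x‖ • (w - z) := by
          rw [hw, smul_sub, smul_smul, mul_inv_cancel₀ hY.ne', one_smul]
        rw [e, norm_smul, norm_norm, mul_comm]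
        rw [mem_ball, dist_eq_norm] at hwz
        gcongr
        linarith)
      rw [hYb] at h1
      have h2 := hmono x s hsp
      have h3 : f.a (C (x + s • f.p)) = τ * ‖f.Y x‖ - d' := by
        rw [hd2', f.a_sub_p, hab]
      rw [h3] at h2
      nlinarith
    · rw [← hY] at hx1 hd1 hcon
      have hd' : d = 0 := le_antisymm (by simpa using hd1) hd0
      rw [hd2, hd', zero_smul, sub_zero] at hx1
      simp only [mul_zero] at hx1 hcon
      linarith
  -- iteration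
  have hT'0 : 0 < T' := lt_of_lt_of_le hτ₀p (le_max_right _ _)
  have hiter : ∀ k : ℕ, Good (Hg G₀ f.π) F {x | max (τ₀ - k * η) (-T') * ‖f.Y x‖ ≤ f.a x} := by
    intro k
    induction k with
    | zero =>
      have : max (τ₀ - ((0:ℕ):ℝ) * η) (-T') = τ₀ := by
        rw [Nat.cast_zero, zero_mul, sub_zero]
        exact max_eq_left (by linarith)
      rw [this]
      exact hinit
    | succ k ih =>
      have h1 : |max (τ₀ - k * η) (-T')| ≤ T' := by
        rw [abs_le]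
        refine ⟨le_max_right _ _, max_le ?_ (by linarith)⟩
        have : τ₀ ≤ T' := le_max_right _ _
        have : 0 ≤ (k:ℝ) * η := by positivity
        linarith
      refine (hstep _ h1 ih).mono ?_
      intro x hx
      have hx' : max (τ₀ - ((k+1:ℕ):ℝ) * η) (-T') * ‖f.Y x‖ ≤ f.a x := hx
      show (max (τ₀ - k * η) (-T') - η) * ‖f.Y x‖ ≤ f.a x
      refine le_trans ?_ hx'
      have h2 : max (τ₀ - k * η) (-T') - η ≤ max (τ₀ - ((k+1:ℕ):ℝ) * η) (-T') := by
        rw [sub_le_iff_le_add]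
        refine max_le ?_ ?_
        · have := le_max_left (τ₀ - ((k+1:ℕ):ℝ) * η) (-T')
          push_cast at this ⊢
          linarith
        · have := le_max_right (τ₀ - ((k+1:ℕ):ℝ) * η) (-T')
          linarith
      exact mul_le_mul_of_nonneg_right h2 (norm_nonneg _)
  obtain ⟨k, hk⟩ := exists_nat_gt ((τ₀ + T') / η)
  have hk' : τ₀ - k * η ≤ -T' := by
    rw [div_lt_iff₀ hη0] at hk
    linarith
  have h1 := hiter k
  rw [max_eq_right hk'] at h1
  refine h1.mono ?_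
  intro x hx
  have hx' : -T * ‖f.Y x‖ ≤ f.a x := hx
  show -T' * ‖f.Y x‖ ≤ f.a x
  refine le_trans ?_ hx'
  have : -T' ≤ -T := neg_le_neg (le_max_left _ _)
  exact mul_le_mul_of_nonneg_right this (norm_nonneg _)

end Sweep


section Cone

variable {V : Type*} [NormedAddCommGroup V] [NormedSpace ℝ V]

lemma dir_sub {v v₀ : V} (hv : v ≠ 0) (hv₀ : v₀ ≠ 0) :
    ‖‖v‖⁻¹ • v - ‖v₀‖⁻¹ • v₀‖ ≤ 2 * ‖v - v₀‖ / ‖v₀‖ := by
  have h1 : 0 < ‖v‖ := norm_pos_iff.2 hv
  have h2 : 0 < ‖v₀‖ := norm_pos_iff.2 hv₀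
  have e : ‖v‖⁻¹ • v - ‖v₀‖⁻¹ • v₀ = ‖v₀‖⁻¹ • (v - v₀) + (‖v‖⁻¹ - ‖v₀‖⁻¹) • v := by
    rw [smul_sub, sub_smul]; abel
  rw [e]
  calc _ ≤ ‖‖v₀‖⁻¹ • (v - v₀)‖ + ‖(‖v‖⁻¹ - ‖v₀‖⁻¹) • v‖ := norm_add_le _ _
    _ = ‖v₀‖⁻¹ * ‖v - v₀‖ + |‖v₀‖ - ‖v‖| / ‖v₀‖ := by
      rw [norm_smul, norm_smul, norm_inv, norm_norm, Real.norm_eq_abs]
      congr 1
      have : ‖v‖⁻¹ - ‖v₀‖⁻¹ = (‖v₀‖ - ‖v‖) / (‖v‖ * ‖v₀‖) := by field_simp
      rw [this, abs_div, abs_of_pos (mul_pos h1 h2)]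
      field_simp
    _ ≤ ‖v₀‖⁻¹ * ‖v - v₀‖ + ‖v - v₀‖ / ‖v₀‖ := by
      gcongr
      rw [norm_sub_rev v v₀]
      exact abs_norm_sub_norm_le _ _
    _ = _ := by field_simp; ring

variable [ProperSpace V]

lemma cone_mem {G₀ : Subgroup (V ≃ₜ V)} (hG : HasLip G₀) (f : Frame V) (F : V ≃ₜ V)
    (hF : F ∈ EqH f.π)
    (hloc : ∀ x₀, f.π x₀ = x₀ → x₀ ≠ 0 → ∃ u, u ∈ Hg G₀ f.π ∧ ∃ ρ : ℝ, 0 < ρ ∧
      ∀ x, ‖x - x₀‖ < ρ → F x = u x) : F ∈ cl G₀ := by
  obtain ⟨K, hK, hFl⟩ := hF.2.2.1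
  have hker : ∀ x, f.π (x - f.π x) = 0 := fun x => by rw [map_sub, f.idem, sub_self]
  have hp0 : f.p ≠ 0 := by
    intro h
    have := f.hap
    rw [h, map_zero] at this
    exact zero_ne_one this
  -- `π (F w) ≠ 0` off the kernel
  have hne : ∀ w, f.π w ≠ 0 → f.π (F w) ≠ 0 := by
    intro w hw h
    apply hw
    have h1 : F (0 + F w) = F 0 + F w := EqH.add hF h
    rw [EqH.zero hF, zero_add] at h1
    have h2 := F.injective h1
    rw [← h2]
    exact h
  have hFπ : ∀ w, f.π (F w) = f.π (F (f.π w)) := by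
    intro w
    have e : w = f.π w + (w - f.π w) := by abel
    conv_lhs => rw [e]
    rw [EqH.add hF (hker w), map_add, hker, add_zero]
  set v₀ := f.π (F (-f.p)) with hv₀
  have hv₀0 : v₀ ≠ 0 := hne _ (by rw [map_neg, f.hp, neg_ne_zero]; exact hp0)
  have hv₀p : 0 < ‖v₀‖ := norm_pos_iff.2 hv₀0
  obtain ⟨uF, huF, huF1⟩ := normalise hG f.idem hF
  suffices h : uF * F ∈ cl G₀ by
    have := (cl G₀).mul_mem ((cl G₀).inv_mem (le_cl _ huF)) h
    rwa [inv_mul_cancel_left] at this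
  refine Appr.of_cl fun R ε hε => ?_
  set κ : ℝ := 2 * (‖f.π‖ * K) / ‖v₀‖ with hκ
  have hκ0 : 0 ≤ κ := by rw [hκ]; positivity
  set T : ℝ := (‖f.π‖ * max R 0 * (2 * κ)) / ε + 1 with hT
  have hTp : 0 < T := by rw [hT]; positivity
  obtain ⟨g, hg, hFg⟩ := sweep hG f F hF hloc T
  obtain ⟨ug, hug, hug1⟩ := normalise hG f.idem hg.1
  refine ⟨ug * g, (cl G₀).mul_mem (le_cl _ hug) hg.2, fun x hx => ?_⟩
  rw [Homeomorph.mul_apply, Homeomorph.mul_apply, hug1, huF1]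
  by_cases hxT : x ∈ {x | -T * ‖f.Y x‖ ≤ f.a x}
  · rw [hFg x hxT, sub_self, norm_zero]
    exact hε
  -- directions
  have hdir : ∀ w, w ∉ {x | -T * ‖f.Y x‖ ≤ f.a x} →
      ‖‖f.π (F w)‖⁻¹ • f.π (F w) - ‖v₀‖⁻¹ • v₀‖ ≤ κ / T := by
    intro w hw
    have hw' : f.a w < -T * ‖f.Y w‖ := by
      simpa using hw
    set t := - f.a w with ht
    have htp : 0 < t := by
      have : 0 ≤ T * ‖f.Y w‖ := by positivity
      rw [ht]; linarith
    have hYt : ‖f.Y w‖ ≤ t / T := by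
      rw [le_div_iff₀ hTp, ht]; linarith
    have hw0 : f.π w ≠ 0 := by
      intro h
      have := f.haπ w
      rw [h, map_zero] at this
      rw [ht, ← this] at htp
      simp at htp
    set v := t⁻¹ • f.π (F w) with hv
    have hv1 : v = f.π (F (t⁻¹ • f.π w)) := by
      rw [hv, hFπ w]
      have e : f.π w = t • (t⁻¹ • f.π w) := by
        rw [smul_smul, mul_inv_cancel₀ htp.ne', one_smul]
      conv_lhs => rw [e]
      rw [EqH.smul hF _ htp, map_smul, smul_smul, inv_mul_cancel₀ htp.ne', one_smul]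
    have hv0 : v ≠ 0 := by
      rw [hv]
      exact smul_ne_zero (inv_ne_zero htp.ne') (hne w hw0)
    have e1 : t⁻¹ • f.π w = -f.p + t⁻¹ • f.Y w := by
      rw [f.decomp, smul_add, smul_smul]
      congr 1
      have : t⁻¹ * f.a w = -1 := by
        have : f.a w = -t := by rw [ht]; ring
        rw [this]; field_simp
      rw [this, neg_one_smul]
    have h1 : ‖v - v₀‖ ≤ ‖f.π‖ * K / T := by
      rw [hv1, hv₀, ← map_sub]
      calc _ ≤ ‖f.π‖ * ‖F (t⁻¹ • f.π w) - F (-f.p)‖ := f.π.le_opNorm _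
        _ ≤ ‖f.π‖ * (K * ‖t⁻¹ • f.π w - -f.p‖) := by gcongr; exact hFl _ _
        _ = ‖f.π‖ * (K * (t⁻¹ * ‖f.Y w‖)) := by
          rw [e1, add_sub_cancel_left, norm_smul, norm_inv, Real.norm_eq_abs, abs_of_pos htp]
        _ ≤ ‖f.π‖ * (K * (t⁻¹ * (t / T))) := by gcongr
        _ = _ := by field_simp
    have h2 : ‖f.π (F w)‖⁻¹ • f.π (F w) = ‖v‖⁻¹ • v := by
      rw [hv, norm_smul, norm_inv, Real.norm_eq_abs, abs_of_pos htp, smul_smul, mul_inv, inv_inv]
      congr 1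
      field_simp
    rw [h2]
    refine (dir_sub hv0 hv₀0).trans ?_
    calc 2 * ‖v - v₀‖ / ‖v₀‖ ≤ 2 * (‖f.π‖ * K / T) / ‖v₀‖ := by gcongr
      _ = κ / T := by rw [hκ]; field_simp
  have hd1 := hdir x hxT
  have hd2 : ‖‖f.π (g x)‖⁻¹ • f.π (g x) - ‖v₀‖⁻¹ • v₀‖ ≤ κ / T := by
    have hw : F.symm (g x) ∉ {x | -T * ‖f.Y x‖ ≤ f.a x} := by
      intro h
      have h1 := hFg _ h
      rw [Homeomorph.apply_symm_apply] at h1
      have h2 := g.injective h1
      rw [← h2] at h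
      exact hxT h
    have := hdir _ hw
    rwa [Homeomorph.apply_symm_apply] at this
  have e : (x - f.π x + (‖f.π x‖ / ‖f.π (g x)‖) • f.π (g x)) -
      (x - f.π x + (‖f.π x‖ / ‖f.π (F x)‖) • f.π (F x)) =
      ‖f.π x‖ • ((‖f.π (g x)‖⁻¹ • f.π (g x) - ‖v₀‖⁻¹ • v₀) -
        (‖f.π (F x)‖⁻¹ • f.π (F x) - ‖v₀‖⁻¹ • v₀)) := by
    rw [smul_sub, smul_sub, smul_sub, smul_smul ‖f.π x‖ ‖f.π (g x)‖⁻¹,
      smul_smul ‖f.π x‖ ‖f.π (F x)‖⁻¹, ← div_eq_mul_inv, ← div_eq_mul_inv]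
    abel
  rw [e, norm_smul, norm_norm]
  have hxR : ‖f.π x‖ ≤ ‖f.π‖ * max R 0 := by
    rw [mem_closedBall_zero_iff] at hx
    calc ‖f.π x‖ ≤ ‖f.π‖ * ‖x‖ := f.π.le_opNorm _
      _ ≤ _ := by gcongr; exact hx.trans (le_max_left _ _)
  calc _ ≤ (‖f.π‖ * max R 0) * (κ / T + κ / T) := by
        gcongr
        exact (norm_sub_le _ _).trans (add_le_add hd2 hd1)
    _ = (‖f.π‖ * max R 0 * (2 * κ)) / T := by ring
    _ < ε := by
      rw [div_lt_iff₀ hTp, hT]
      have : ε * ((‖f.π‖ * max R 0 * (2 * κ)) / ε + 1) = ‖f.π‖ * max R 0 * (2 * κ) + ε := by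
        field_simp
      rw [this]
      linarith

end Cone


section Induct

variable {V : Type*} [NormedAddCommGroup V] [NormedSpace ℝ V]

/-- `G₀` contains all invertible linear maps -/
def HasLin (G₀ : Subgroup (V ≃ₜ V)) : Prop := ∀ A : V ≃ₗ[ℝ] V, ∃ h ∈ G₀, ∀ x, h x = A x

lemma exists_linear_of_additive (L : Submodule ℝ V) (F : V → V) (hF : Continuous F)
    (h : ∀ l ∈ L, ∀ x, F (x + l) = F x + F l) : ∃ B : L →ₗ[ℝ] V, ∀ l : L, B l = F l := by
  have h0 : F 0 = 0 := by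
    have := h 0 L.zero_mem 0
    rw [add_zero] at this
    simpa using this
  let B₀ : L →+ V :=
    { toFun := fun l => F l
      map_zero' := by simpa using h0
      map_add' := fun l l' => by
        show F ((l : V) + (l' : V)) = _
        exact h _ l'.2 _ }
  have hB : Continuous B₀ := hF.comp continuous_subtype_val
  exact ⟨(B₀.toRealLinearMap hB).toLinearMap, fun l => rfl⟩

lemma exists_extend_equiv [FiniteDimensional ℝ V] (L : Submodule ℝ V) (B : L →ₗ[ℝ] V)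
    (hB : Function.Injective B) : ∃ A : V ≃ₗ[ℝ] V, ∀ l : L, A (B l) = l := by
  obtain ⟨W, hW⟩ := L.exists_isCompl
  set M := LinearMap.range B with hM
  obtain ⟨W', hW'⟩ := M.exists_isCompl
  let e : L ≃ₗ[ℝ] M := LinearEquiv.ofInjective B hB
  have h1 : Module.finrank ℝ W = Module.finrank ℝ W' := by
    have a1 := Submodule.finrank_add_eq_of_isCompl hW
    have a2 := Submodule.finrank_add_eq_of_isCompl hW'
    have a3 : Module.finrank ℝ L = Module.finrank ℝ M := e.finrank_eq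
    omega
  let e' : W ≃ₗ[ℝ] W' := LinearEquiv.ofFinrankEq _ _ h1
  let A : V ≃ₗ[ℝ] V := (Submodule.prodEquivOfIsCompl M W' hW').symm ≪≫ₗ
    (LinearEquiv.prodCongr e.symm e'.symm) ≪≫ₗ (Submodule.prodEquivOfIsCompl L W hW)
  refine ⟨A, fun l => ?_⟩
  have h2 : B l = ((e l : M) : V) := rfl
  show (Submodule.prodEquivOfIsCompl L W hW) ((LinearEquiv.prodCongr e.symm e'.symm)
    ((Submodule.prodEquivOfIsCompl M W' hW').symm (B l))) = l
  rw [h2, Submodule.prodEquivOfIsCompl_symm_apply_left]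
  simp

lemma exists_frame [FiniteDimensional ℝ V] (L : Submodule ℝ V) (hL : L ≠ ⊤) :
    ∃ f : Frame V, ∀ x, f.π x = 0 ↔ x ∈ L := by
  obtain ⟨W, hW⟩ := L.exists_isCompl
  have hW0 : W ≠ ⊥ := by
    rintro rfl
    exact hL (eq_top_of_isCompl_bot hW)
  obtain ⟨p, hpW, hp0⟩ := W.exists_mem_ne_zero_of_ne_bot hW0
  let π₀ : V →ₗ[ℝ] V := W.subtype ∘ₗ (Submodule.projectionOnto W L hW.symm)
  have hπW : ∀ w ∈ W, π₀ w = w := by
    intro w hw
    show ((Submodule.projectionOnto W L hW.symm) w : V) = w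
    have := Submodule.projectionOnto_apply_left hW.symm ⟨w, hw⟩
    rw [this]
  have hmem : ∀ x, π₀ x ∈ W := fun x => Subtype.mem _
  let π : V →L[ℝ] V := LinearMap.toContinuousLinearMap π₀
  have hππ : ∀ x, π (π x) = π x := fun x => hπW _ (hmem x)
  obtain ⟨g, hg1, hg2⟩ := exists_dual_vector ℝ p (norm_ne_zero_iff.2 hp0)
  have hpp : ‖p‖ ≠ 0 := norm_ne_zero_iff.2 hp0
  refine ⟨⟨π, hππ, p, hπW p hpW, (‖p‖⁻¹ • g).comp π, ?_, ?_⟩, fun x => ?_⟩
  · show ‖p‖⁻¹ • g (π p) = 1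
    have : π p = p := hπW p hpW
    rw [this, hg2]
    simp [hpp]
  · intro x
    show ‖p‖⁻¹ • g (π (π x)) = ‖p‖⁻¹ • g (π x)
    rw [hππ]
  · show ((Submodule.projectionOnto W L hW.symm) x : V) = 0 ↔ _
    rw [Submodule.coe_eq_zero]
    exact Submodule.projectionOnto_apply_eq_zero_iff hW.symm

end Induct


section Induct2

variable {V : Type*} [NormedAddCommGroup V] [NormedSpace ℝ V] [FiniteDimensional ℝ V]

lemma exists_small (v : V) {ρ : ℝ} (hρ : 0 < ρ) : ∀ᶠ t in 𝓝[>] (0:ℝ), ‖t • v‖ < ρ := by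
  have h2 : Continuous (fun t : ℝ => ‖t • v‖) := by fun_prop
  have h3 := h2.tendsto 0
  simp only [zero_smul, norm_zero] at h3
  exact (h3.mono_left nhdsWithin_le_nhds).eventually_lt_const hρ

theorem finLin_mem {G₀ : Subgroup (V ≃ₜ V)} (hG : HasLip G₀) (hlin : HasLin G₀) :
    ∀ (d : ℕ) (S : Set (V →L[ℝ] V)), S.Finite → ∀ (F : V ≃ₜ V), FinLin S F →
      ∀ (L : Submodule ℝ V), (∀ l ∈ L, ∀ x, F (x + l) = F x + F l) →
      Module.finrank ℝ V ≤ Module.finrank ℝ L + d → F ∈ cl G₀ := by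
  intro d
  induction d with
  | zero =>
    intro S hS F hF L hL hd
    have hLt : L = ⊤ := Submodule.eq_top_of_finrank_eq
      (le_antisymm (Submodule.finrank_le L) (by simpa using hd))
    subst hLt
    obtain ⟨B, hB⟩ := exists_linear_of_additive ⊤ F F.continuous hL
    let B' : V →ₗ[ℝ] V := B ∘ₗ (Submodule.topEquiv.symm : V ≃ₗ[ℝ] (⊤ : Submodule ℝ V)).toLinearMap
    have hB' : ∀ x, B' x = F x := fun x => hB _
    have hbij : Function.Bijective B' := by
      have : (B' : V → V) = F := funext hB'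
      rw [this]
      exact F.bijective
    obtain ⟨h, hh, h1⟩ := hlin (LinearEquiv.ofBijective B' hbij)
    have : F = h := by
      ext x
      rw [h1]
      exact (hB' x).symm
    rw [this]
    exact le_cl _ hh
  | succ d ih =>
    intro S hS F hF L hL hd
    by_cases hd' : Module.finrank ℝ V ≤ Module.finrank ℝ L + d
    · exact ih S hS F hF L hL hd'
    have hLt : L ≠ ⊤ := by
      rintro rfl
      rw [finrank_top] at hd'
      omega
    -- normalise on `L`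
    obtain ⟨B, hB⟩ := exists_linear_of_additive L F F.continuous hL
    have hBi : Function.Injective B := by
      intro l l' h
      rw [hB, hB] at h
      exact Subtype.ext (F.injective h)
    obtain ⟨A, hA⟩ := exists_extend_equiv L B hBi
    obtain ⟨hA', hA'G, hA'1⟩ := hlin A
    set F₁ : V ≃ₜ V := hA' * F with hF₁
    have hF₁x : ∀ x, F₁ x = A (F x) := fun x => hA'1 _
    suffices h : F₁ ∈ cl G₀ by
      have := (cl G₀).mul_mem ((cl G₀).inv_mem (le_cl _ hA'G)) h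
      rwa [hF₁, inv_mul_cancel_left] at this
    let Ac : V →L[ℝ] V := LinearMap.toContinuousLinearMap (A : V →ₗ[ℝ] V)
    set S₁ : Set (V →L[ℝ] V) := (fun T : V →L[ℝ] V => Ac.comp T) '' S with hS₁
    have hS₁f : S₁.Finite := hS.image _
    have hF₁S : FinLin S₁ F₁ := by
      intro x
      obtain ⟨T, hT, h1⟩ := hF x
      refine ⟨Ac.comp T, mem_image_of_mem _ hT, ?_⟩
      rw [hF₁x, h1]
      rfl
    have hF₁L : ∀ l ∈ L, ∀ x, F₁ (x + l) = F₁ x + l := by
      intro l hl x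
      rw [hF₁x, hF₁x, hL l hl, map_add]
      congr 1
      have := hA ⟨l, hl⟩
      rwa [hB] at this
    obtain ⟨f, hf⟩ := exists_frame L hLt
    obtain ⟨K, hK, hKl⟩ := hF₁S.exists_lip hS₁f F₁.continuous
    obtain ⟨K', hK', hK'l⟩ := FinLin.exists_lip_symm hS₁f F₁ hF₁S
    have hF₁E : F₁ ∈ EqH f.π := ⟨fun x l hl => hF₁L l ((hf l).1 hl) x,
      fun x t ht => hF₁S.hom hS₁f F₁.continuous x ht, ⟨K, hK, hKl⟩, ⟨K', hK', hK'l⟩⟩
    refine cone_mem hG f F₁ hF₁E fun x₀ hx₀ hx₀0 => ?_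
    have hx₀L : x₀ ∉ L := by
      intro h
      rw [← hf, hx₀] at h
      exact hx₀0 h
    obtain ⟨ρ, hρ, hloc⟩ := hF₁S.locLin hS₁f F₁.continuous x₀
    obtain ⟨P, hPS, hP1⟩ := tangent hS₁f F₁ hρ hloc
    have hP0 : P 0 = 0 := hPS.zero
    have hPL : ∀ l ∈ L, ∀ v, P (v + l) = P v + l := by
      intro l hl v
      obtain ⟨t, ⟨h1, h2⟩, h3⟩ := (((exists_small (v + l) hρ).and (exists_small v hρ)).and
        self_mem_nhdsWithin).exists
      have e1 := hP1 _ _ h3 h1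
      have e2 := hP1 _ _ h3 h2
      rw [smul_add, ← add_assoc, hF₁L _ (L.smul_mem t hl), e2, add_assoc, add_right_inj,
        ← smul_add] at e1
      exact (smul_right_injective V h3.ne' e1).symm
    have hPx : ∀ v (s : ℝ), P (v + s • x₀) = P v + s • F₁ x₀ := by
      intro v s
      have hs1 : ∀ᶠ t in 𝓝[>] (0:ℝ), 0 < 1 + t * s := by
        have h2 : Continuous (fun t : ℝ => 1 + t * s) := by fun_prop
        have h3 := h2.tendsto 0
        simp only [zero_mul, add_zero] at h3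
        exact (h3.mono_left nhdsWithin_le_nhds).eventually_const_lt one_pos
      have hs2 : ∀ᶠ t in 𝓝[>] (0:ℝ), ‖(t / (1 + t * s)) • v‖ < ρ := by
        have h2 : ContinuousAt (fun t : ℝ => ‖(t / (1 + t * s)) • v‖) 0 := by
          refine ContinuousAt.norm (ContinuousAt.smul (ContinuousAt.div continuousAt_id ?_ ?_)
            continuousAt_const)
          · fun_prop
          · simp
        have h3 := h2.tendsto
        simp only [zero_div, zero_smul, norm_zero] at h3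
        exact (h3.mono_left nhdsWithin_le_nhds).eventually_lt_const hρ
      obtain ⟨t, ⟨⟨h1, h2⟩, h3⟩, h4⟩ := ((((exists_small (v + s • x₀) hρ).and hs1).and hs2).and
        self_mem_nhdsWithin).exists
      have e1 := hP1 _ _ h4 h1
      have e2 := hP1 v (t / (1 + t * s)) (by positivity) h3
      have e3 : x₀ + t • (v + s • x₀) = (1 + t * s) • (x₀ + (t / (1 + t * s)) • v) := by
        rw [smul_add, smul_add, smul_smul, smul_smul, mul_div_cancel₀ _ h2.ne', add_smul,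
          one_smul]
        abel
      rw [e3, hF₁S.hom hS₁f F₁.continuous _ h2, e2, smul_add, smul_smul,
        mul_div_cancel₀ _ h2.ne', add_smul, one_smul] at e1
      have e4 : t • (P v + s • F₁ x₀) = t • P (v + s • x₀) := by
        rw [smul_add, smul_smul]
        have e5 : F₁ x₀ + (t * s) • F₁ x₀ + t • P v = F₁ x₀ + ((t * s) • F₁ x₀ + t • P v) := by
          abel
        rw [e5, add_right_inj] at e1
        rw [← e1]
        abel
      exact (smul_right_injective V h4.ne' e4).symm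
    -- the tangent map is in the closure by induction
    have hPmem : P ∈ cl G₀ := by
      refine ih S₁ hS₁f P hPS (L ⊔ Submodule.span ℝ {x₀}) ?_ ?_
      · intro l' hl' x
        obtain ⟨l, hl, z, hz, rfl⟩ := Submodule.mem_sup.1 hl'
        obtain ⟨s, rfl⟩ := Submodule.mem_span_singleton.1 hz
        have h1 : P (l + s • x₀) = l + s • F₁ x₀ := by
          rw [hPx]
          have := hPL l hl 0
          rw [zero_add, hP0, zero_add] at this
          rw [this]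
        rw [h1, ← add_assoc, hPx, hPL l hl]
        abel
      · have hlt : L < L ⊔ Submodule.span ℝ {x₀} := by
          refine lt_of_le_of_ne le_sup_left fun h => hx₀L ?_
          rw [h]
          exact Submodule.mem_sup_right (Submodule.mem_span_singleton_self x₀)
        have := Submodule.finrank_lt_finrank_of_lt hlt
        omega
    obtain ⟨K₂, hK₂, hK₂l⟩ := hPS.exists_lip hS₁f P.continuous
    obtain ⟨K₂', hK₂', hK₂'l⟩ := FinLin.exists_lip_symm hS₁f P hPS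
    refine ⟨P, ⟨⟨fun x l hl => hPL l ((hf l).1 hl) x,
      fun x t ht => hPS.hom hS₁f P.continuous x ht, ⟨K₂, hK₂, hK₂l⟩, ⟨K₂', hK₂', hK₂'l⟩⟩,
      hPmem⟩, ρ, hρ, fun x hx => ?_⟩
    have e1 := hP1 (x - x₀) 1 one_pos (by rw [one_smul]; exact hx)
    rw [one_smul, add_sub_cancel] at e1
    have e2 := hPx (x - x₀) 1
    rw [one_smul, one_smul, sub_add_cancel] at e2
    rw [e1, e2, one_smul]
    abel

end Induct2


section LG

variable {V : Type*} [NormedAddCommGroup V] [NormedSpace ℝ V]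

/-- bump function -/
noncomputable def lam (z : V) (r : ℝ) (x : V) : ℝ := max 0 (min 1 (2 - ‖x - z‖ / r))

lemma lam_nonneg (z : V) (r : ℝ) (x : V) : 0 ≤ lam z r x := le_max_left _ _

lemma lam_le (z : V) (r : ℝ) (x : V) : lam z r x ≤ 1 := max_le zero_le_one (min_le_left _ _)

lemma lam_one {z : V} {r : ℝ} (hr : 0 < r) {x : V} (h : ‖x - z‖ ≤ r) : lam z r x = 1 := by
  have h1 : ‖x - z‖ / r ≤ 1 := by rwa [div_le_one hr]
  rw [lam, min_eq_left (by linarith), max_eq_right zero_le_one]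

lemma lam_zero {z : V} {r : ℝ} (hr : 0 < r) {x : V} (h : ¬ ‖x - z‖ < 2 * r) : lam z r x = 0 := by
  push Not at h
  have h1 : 2 ≤ ‖x - z‖ / r := by rwa [le_div_iff₀ hr]
  rw [lam]
  exact max_eq_left ((min_le_right _ _).trans (by linarith))

lemma lam_lip (z : V) {r : ℝ} (hr : 0 < r) (x y : V) : |lam z r x - lam z r y| ≤ ‖x - y‖ / r := by
  have h0 : 0 ≤ ‖x - y‖ / r := by positivity
  have h1 : |(2 - ‖x - z‖ / r) - (2 - ‖y - z‖ / r)| ≤ ‖x - y‖ / r := by
    have e : (2 - ‖x - z‖ / r) - (2 - ‖y - z‖ / r) = -((‖x - z‖ - ‖y - z‖) / r) := by ring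
    rw [e, abs_neg, abs_div, abs_of_pos hr]
    gcongr
    calc |‖x - z‖ - ‖y - z‖| ≤ ‖(x - z) - (y - z)‖ := abs_norm_sub_norm_le _ _
      _ = _ := by congr 1; abel
  calc |lam z r x - lam z r y|
      ≤ max |(0:ℝ) - 0| |min 1 (2 - ‖x - z‖ / r) - min 1 (2 - ‖y - z‖ / r)| :=
        abs_max_sub_max_le_max _ _ _ _
    _ ≤ ‖x - y‖ / r := by
      refine max_le ?_ ?_
      · rwa [sub_zero, abs_zero]
      · refine (abs_min_sub_min_le_max _ _ _ _).trans (max_le ?_ h1)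
        rwa [sub_self, abs_zero]

lemma lam_smul_lip (z : V) {r : ℝ} (hr : 0 < r) (x y : V) :
    ‖lam z r x • x - lam z r y • y‖ ≤ (1 + (‖z‖ + 2 * r) / r) * ‖x - y‖ := by
  have key : ∀ x y : V, ‖x - z‖ < 2 * r →
      ‖lam z r x • x - lam z r y • y‖ ≤ (1 + (‖z‖ + 2 * r) / r) * ‖x - y‖ := by
    intro x y hx
    have hxn : ‖x‖ ≤ ‖z‖ + 2 * r := by
      calc ‖x‖ = ‖z + (x - z)‖ := by congr 1; abel
        _ ≤ ‖z‖ + ‖x - z‖ := norm_add_le _ _
        _ ≤ _ := by linarith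
    have e : lam z r x • x - lam z r y • y = lam z r y • (x - y) + (lam z r x - lam z r y) • x := by
      rw [smul_sub, sub_smul]; abel
    rw [e]
    calc _ ≤ ‖lam z r y • (x - y)‖ + ‖(lam z r x - lam z r y) • x‖ := norm_add_le _ _
      _ = lam z r y * ‖x - y‖ + |lam z r x - lam z r y| * ‖x‖ := by
        rw [norm_smul, norm_smul, Real.norm_eq_abs, Real.norm_eq_abs,
          abs_of_nonneg (lam_nonneg z r y)]
      _ ≤ 1 * ‖x - y‖ + (‖x - y‖ / r) * (‖z‖ + 2 * r) := by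
        gcongr
        · exact lam_le z r y
        · exact lam_lip z hr x y
      _ = _ := by ring
  by_cases hx : ‖x - z‖ < 2 * r
  · exact key x y hx
  by_cases hy : ‖y - z‖ < 2 * r
  · rw [norm_sub_rev, norm_sub_rev x y]
    exact key y x hy
  · rw [lam_zero hr hx, lam_zero hr hy, zero_smul, zero_smul, sub_zero, norm_zero]
    have : 0 ≤ (‖z‖ + 2 * r) / r := by positivity
    positivity

variable [ProperSpace V]

lemma chain2 {G₀ : Subgroup (V ≃ₜ V)} (hG : HasLip G₀) (F : V ≃ₜ V) {η R : ℝ}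
    (hη : 0 < η) (N : ℕ) (r : V → ℝ) (u : V → (V ≃ₜ V)) :
    ∀ l : List V, l.length ≤ N → (∀ z ∈ l, 0 < r z ∧ u z ∈ cl G₀ ∧
      (∀ x, ‖x - z‖ < 2 * r z → F x = u z x) ∧
      η * (1 + (‖z‖ + 2 * r z) / r z) < 1 ∧ ((1 + η) ^ N - 1) * R ≤ r z / 2) →
    ∃ C : V ≃ₜ V, C ∈ cl G₀ ∧ (∀ X, Good (cl G₀) F X → Good (cl G₀) F (C '' X)) ∧
      (∀ x, ∃ s : ℝ, 1 ≤ s ∧ s ≤ (1 + η) ^ l.length ∧ C x = s • x ∧
        ∀ z ∈ l, ‖x‖ ≤ R → ‖x - z‖ ≤ r z / 2 → 1 + η ≤ s) := by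
  intro l
  induction l with
  | nil =>
    intro _ _
    refine ⟨1, (cl G₀).one_mem, fun X hX => ?_, fun x => ⟨1, le_rfl, by simp, by simp, by simp⟩⟩
    refine hX.mono ?_
    rintro _ ⟨x, hx, rfl⟩
    exact hx
  | cons z l ih =>
    intro hlen hl
    have hlen' : l.length ≤ N := by
      rw [List.length_cons] at hlen; omega
    obtain ⟨C, hC, hgood, hs⟩ := ih hlen' (fun w hw => hl w (List.mem_cons_of_mem _ hw))
    obtain ⟨hr, hu, hFu, hη1, hη2⟩ := hl z List.mem_cons_self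
    obtain ⟨c, hc, hc1⟩ := hG (fun x => η • (lam z (r z) x • x))
      (η * (1 + (‖z‖ + 2 * r z) / r z)) hη1 (fun x y => by
        rw [← smul_sub, norm_smul, Real.norm_eq_abs, abs_of_pos hη, mul_assoc]
        gcongr
        exact lam_smul_lip z hr x y)
    have hc2 : ∀ x, c x = (1 + η * lam z (r z) x) • x := fun x => by
      rw [hc1, add_smul, one_smul, smul_smul]
    refine ⟨c * C, (cl G₀).mul_mem (le_cl _ hc) hC, fun X hX => ?_, fun x => ?_⟩
    · have h1 := (hgood X hX).push hu (le_cl _ hc) (N := {x | ‖x - z‖ < 2 * r z})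
        (fun x hx => hFu x hx) (fun x hx => by
          rw [hc2, lam_zero hr hx, mul_zero, add_zero, one_smul])
      refine h1.mono ?_
      rintro _ ⟨x, hx, rfl⟩
      exact ⟨C x, mem_image_of_mem _ hx, rfl⟩
    · obtain ⟨s, hs1, hs2, hs3, hs4⟩ := hs x
      have hl0 := lam_nonneg z (r z) (C x)
      have hl1 := lam_le z (r z) (C x)
      have hf1 : 1 ≤ 1 + η * lam z (r z) (C x) := by
        have : 0 ≤ η * lam z (r z) (C x) := by positivity
        linarith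
      have hf2 : 1 + η * lam z (r z) (C x) ≤ 1 + η := by nlinarith
      refine ⟨(1 + η * lam z (r z) (C x)) * s, ?_, ?_, ?_, ?_⟩
      · nlinarith
      · rw [List.length_cons, pow_succ, mul_comm ((1 + η) ^ l.length)]
        gcongr
      · rw [Homeomorph.mul_apply, hc2, mul_smul]
        congr 1
      · intro w hw hxR hw1
        rcases List.mem_cons.1 hw with rfl | hw'
        · have h1 : lam w (r w) (C x) = 1 := by
            apply lam_one hr
            have h2 : ‖C x - x‖ ≤ r w / 2 := by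
              have e : C x - x = (s - 1) • x := by rw [hs3, sub_smul, one_smul]
              rw [e, norm_smul, Real.norm_eq_abs, abs_of_nonneg (by linarith)]
              have h3 : s ≤ (1 + η) ^ N :=
                hs2.trans (pow_le_pow_right₀ (by linarith) hlen')
              have h4 : 0 ≤ (1 + η) ^ N - 1 := by linarith
              calc (s - 1) * ‖x‖ ≤ ((1 + η) ^ N - 1) * R := by
                    have : 0 ≤ s - 1 := by linarith
                    gcongr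
                _ ≤ _ := hη2
            calc ‖C x - w‖ = ‖(C x - x) + (x - w)‖ := by congr 1; abel
              _ ≤ ‖C x - x‖ + ‖x - w‖ := norm_add_le _ _
              _ ≤ r w / 2 + r w / 2 := add_le_add h2 hw1
              _ = r w := by ring
          rw [h1, mul_one]
          nlinarith
        · have := hs4 w hw' hxR hw1
          nlinarith

theorem local_to_global {G₀ : Subgroup (V ≃ₜ V)} (hG : HasLip G₀) (F : V ≃ₜ V)
    (hloc : ∀ x₀, ∃ u, u ∈ cl G₀ ∧ ∃ ρ : ℝ, 0 < ρ ∧ ∀ x, ‖x - x₀‖ < ρ → F x = u x) :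
    F ∈ cl G₀ := by
  refine Appr.of_cl fun R₀ ε hε => ?_
  suffices h : Good (cl G₀) F (closedBall 0 R₀) by
    obtain ⟨g, hg, h1⟩ := h
    exact ⟨g, hg, fun p hp => by rw [h1 p hp, sub_self, norm_zero]; exact hε⟩
  set R := max R₀ 1 with hR
  have hRp : 0 < R := lt_of_lt_of_le one_pos (le_max_right _ _)
  choose u hu ρ hρ hFu using hloc
  obtain ⟨t, -, hcov⟩ := (isCompact_closedBall (0 : V) (2 * R)).elim_nhds_subcover
    (fun x => ball x (ρ x / 4)) (fun x _ => ball_mem_nhds x (by have := hρ x; positivity))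
  have hη : ∃ η : ℝ, 0 < η ∧ η < 1 ∧ ∀ z ∈ t, η * (1 + (‖z‖ + 2 * (ρ z / 2)) / (ρ z / 2)) < 1 ∧
      ((1 + η) ^ t.card - 1) * (2 * R) ≤ ρ z / 2 / 2 := by
    have h1 : ∀ᶠ η in 𝓝[>] (0:ℝ), ∀ z ∈ t,
        η * (1 + (‖z‖ + 2 * (ρ z / 2)) / (ρ z / 2)) < 1 ∧
        ((1 + η) ^ t.card - 1) * (2 * R) ≤ ρ z / 2 / 2 := by
      rw [Filter.eventually_all_finset]
      intro z hz
      have hz1 := hρ z
      refine Filter.Eventually.and ?_ ?_
      · have : Filter.Tendsto (fun η : ℝ => η * (1 + (‖z‖ + 2 * (ρ z / 2)) / (ρ z / 2)))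
            (𝓝[>] 0) (𝓝 0) := by
          have h2 : Continuous (fun η : ℝ => η * (1 + (‖z‖ + 2 * (ρ z / 2)) / (ρ z / 2))) := by
            fun_prop
          have h3 := h2.tendsto 0
          simp only [zero_mul] at h3
          exact h3.mono_left nhdsWithin_le_nhds
        exact this.eventually_lt_const one_pos
      · have : Filter.Tendsto (fun η : ℝ => ((1 + η) ^ t.card - 1) * (2 * R)) (𝓝[>] 0) (𝓝 0) := by
          have h2 : Continuous (fun η : ℝ => ((1 + η) ^ t.card - 1) * (2 * R)) := by fun_prop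
          have h3 := h2.tendsto 0
          simp only [add_zero, one_pow, sub_self, zero_mul] at h3
          exact h3.mono_left nhdsWithin_le_nhds
        exact (this.eventually_lt_const (u := ρ z / 2 / 2) (by positivity)).mono fun _ h => h.le
    have h2 : ∀ᶠ η in 𝓝[>] (0:ℝ), η < 1 :=
      (Filter.Tendsto.mono_left Filter.tendsto_id nhdsWithin_le_nhds).eventually_lt_const one_pos
    obtain ⟨η, ⟨h3, h4⟩, h5⟩ := ((h1.and h2).and self_mem_nhdsWithin).exists
    exact ⟨η, h5, h4, h3⟩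
  obtain ⟨η, hη0, hη1, hη2⟩ := hη
  obtain ⟨C, hC, hgood, hs⟩ := chain2 hG F (R := 2 * R) hη0 t.card (fun z => ρ z / 2) u t.toList
    (by rw [Finset.length_toList]) (fun z hz => by
      have hzt : z ∈ t := Finset.mem_toList.1 hz
      have hz1 := hρ z
      exact ⟨by positivity, hu z, fun x hx => hFu z x (by linarith), (hη2 z hzt).1, (hη2 z hzt).2⟩)
  have hstep : ∀ τ, 0 ≤ τ → τ ≤ R → Good (cl G₀) F (closedBall 0 τ) →
      Good (cl G₀) F (closedBall 0 ((1 + η) * τ)) := by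
    intro τ hτ0 hτ hX
    refine (hgood _ hX).mono ?_
    intro x' hx'
    obtain ⟨x, rfl⟩ := C.surjective x'
    refine ⟨x, ?_, rfl⟩
    obtain ⟨s, hs1, _, hs3, hs4⟩ := hs x
    rw [mem_closedBall_zero_iff] at hx' ⊢
    rw [hs3, norm_smul, Real.norm_eq_abs, abs_of_pos (by linarith)] at hx'
    by_contra hcon
    push Not at hcon
    by_cases hxR : ‖x‖ ≤ 2 * R
    · obtain ⟨z, hz, hxz⟩ : ∃ z ∈ t, x ∈ ball z (ρ z / 4) := by
        have := hcov (mem_closedBall_zero_iff.2 hxR)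
        simpa using this
      rw [mem_ball, dist_eq_norm] at hxz
      have h1 := hs4 z (Finset.mem_toList.2 hz) hxR (by linarith)
      have h2 : 0 < ‖x‖ := lt_of_le_of_lt hτ0 hcon
      nlinarith
    · push Not at hxR
      nlinarith
  set t₀ := min (ρ 0 / 2) R with ht₀
  have ht₀p : 0 < t₀ := by
    have := hρ 0
    rw [ht₀]; positivity
  have hinit : Good (cl G₀) F (closedBall 0 t₀) := by
    refine ⟨u 0, hu 0, fun x hx => hFu 0 x ?_⟩
    rw [mem_closedBall_zero_iff] at hx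
    rw [sub_zero]
    have := hρ 0
    have := min_le_left (ρ 0 / 2) R
    linarith
  have hiter : ∀ k : ℕ, Good (cl G₀) F (closedBall 0 (min (t₀ * (1 + η) ^ k) R)) := by
    intro k
    induction k with
    | zero =>
      rw [pow_zero, mul_one, min_eq_left (min_le_right _ _)]
      exact hinit
    | succ k ih =>
      refine (hstep _ (by positivity) (min_le_right _ _) ih).mono
        (closedBall_subset_closedBall ?_)
      rw [mul_min_of_nonneg _ _ (by positivity)]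
      refine min_le_min ?_ ?_
      · rw [pow_succ]; apply le_of_eq; ring
      · nlinarith
  obtain ⟨k, hk⟩ := pow_unbounded_of_one_lt (R / t₀) (by linarith : 1 < 1 + η)
  have hk' : R ≤ t₀ * (1 + η) ^ k := by
    rw [div_lt_iff₀ ht₀p] at hk
    linarith
  have h1 := hiter k
  rw [min_eq_right hk'] at h1
  exact h1.mono (closedBall_subset_closedBall (le_max_left _ _))

/-- `F` is piecewise linear: on each ball it is given by finitely many affine maps. -/
def IsPL (F : V → V) : Prop :=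
  ∀ R : ℝ, ∃ S : Set ((V →L[ℝ] V) × V), S.Finite ∧
    ∀ x ∈ closedBall (0 : V) R, ∃ p ∈ S, F x = p.1 x + p.2

omit [ProperSpace V] in
lemma IsPL.locLin {F : V → V} (hF : IsPL F) (hc : Continuous F) (x₀ : V) :
    ∃ S : Set (V →L[ℝ] V), S.Finite ∧ ∃ ρ > 0, LocLin S F x₀ ρ := by
  obtain ⟨S, hS, h⟩ := hF (‖x₀‖ + 1)
  have h1 : ∀ᶠ x in 𝓝 x₀, ∀ p ∈ S, p.1 x₀ + p.2 ≠ F x₀ → F x ≠ p.1 x + p.2 := by
    rw [Filter.eventually_all_finite hS]
    intro p _
    by_cases hp : p.1 x₀ + p.2 = F x₀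
    · exact Filter.Eventually.of_forall fun x hx => absurd hp hx
    · have hpc : Continuous fun x => p.1 x + p.2 := p.1.continuous.add continuous_const
      have : ∀ᶠ x in 𝓝 x₀, F x ≠ p.1 x + p.2 :=
        (hc.continuousAt.ne_iff_eventually_ne hpc.continuousAt).1 (Ne.symm hp)
      exact this.mono fun x hx _ => hx
  obtain ⟨ρ, hρ, h2⟩ := Metric.eventually_nhds_iff.1 h1
  refine ⟨Prod.fst '' S, hS.image _, min ρ 1, by positivity, fun v hv => ?_⟩
  obtain ⟨p, hp, h3⟩ := h (x₀ + v) (by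
    rw [mem_closedBall_zero_iff]
    calc ‖x₀ + v‖ ≤ ‖x₀‖ + ‖v‖ := norm_add_le _ _
      _ ≤ _ := by have := hv.le.trans (min_le_right _ _); linarith)
  have h4 : p.1 x₀ + p.2 = F x₀ := by
    by_contra h5
    refine h2 (y := x₀ + v) ?_ p hp h5 h3
    rw [dist_eq_norm, add_sub_cancel_left]
    exact hv.trans_le (min_le_left _ _)
  exact ⟨p.1, mem_image_of_mem _ hp, by rw [h3, ← h4, map_add]; abel⟩

end LG

theorem pl_mem {V : Type*} [NormedAddCommGroup V] [NormedSpace ℝ V] [FiniteDimensional ℝ V]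
    {G₀ : Subgroup (V ≃ₜ V)} (hG : HasLip G₀) (hlin : HasLin G₀) (F : V ≃ₜ V) (hF : IsPL F) :
    F ∈ cl G₀ := by
  have htr : ∀ a : V, ∃ h ∈ cl G₀, ∀ x, h x = x + a := by
    intro a
    obtain ⟨h, hh, h1⟩ := hG (fun _ => a) 0 one_pos (fun x y => by simp)
    exact ⟨h, le_cl _ hh, h1⟩
  refine local_to_global hG F fun x₀ => ?_
  obtain ⟨S, hS, ρ, hρ, hloc⟩ := hF.locLin F.continuous x₀
  obtain ⟨P, hPS, hP1⟩ := tangent hS F hρ hloc
  have hP : P ∈ cl G₀ := finLin_mem hG hlin (Module.finrank ℝ V) S hS P hPS ⊥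
    (fun l hl x => by
      rw [(Submodule.mem_bot ℝ).1 hl, add_zero, hPS.zero, add_zero]) (by omega)
  obtain ⟨a, ha, ha1⟩ := htr (F x₀)
  obtain ⟨b, hb, hb1⟩ := htr (-x₀)
  refine ⟨a * P * b, (cl G₀).mul_mem ((cl G₀).mul_mem ha hP) hb, ρ, hρ, fun x hx => ?_⟩
  have e1 := hP1 (x - x₀) 1 one_pos (by rw [one_smul]; exact hx)
  rw [one_smul, one_smul, add_sub_cancel] at e1
  rw [Homeomorph.mul_apply, Homeomorph.mul_apply, ha1, hb1, e1, sub_eq_add_neg]
  abel

end Pool.Agent.CoordMaps
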