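import Mathlib

namespace Pool.Agent.CoordMaps

open Set

/-- homeomorphisms of `ℝⁿ`; the group structure of Mathlib is composition. -/
abbrev Homeo (n : ℕ) := (Fin n → ℝ) ≃ₜ (Fin n → ℝ)

/-- Type A: homeomorphisms of `ℝⁿ` that change only one coordinate. -/
def TypeA (n : ℕ) : Set (Homeo n) :=
  {h | ∃ i : Fin n, ∀ (x : Fin n → ℝ) (j : Fin n), j ≠ i → h x j = x j}

/-- Type B: homeomorphisms `(x,y,z) ↦ (f(y,z), g(x,z), k(x,y))` of `ℝ³`, with `f`, `g`, `k`
continuous. -/
def TypeB : Set (Homeo 3) :=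
  {h | ∃ f g k : ℝ × ℝ → ℝ, Continuous f ∧ Continuous g ∧ Continuous k ∧
    ∀ x, h x = ![f (x 1, x 2), g (x 0, x 2), k (x 0, x 1)]}

/-- the group generated by the type A maps -/
def GA (n : ℕ) : Subgroup (Homeo n) := Subgroup.closure (TypeA n)

/-- the group generated by the type B maps -/
def GB : Subgroup (Homeo 3) := Subgroup.closure TypeB

/-- `h` is approximable by the set `S` of homeomorphisms: uniform approximation in the Euclidean
distance on bounded sets. -/
def ApproxBy {n : ℕ} (S : Set (Homeo n)) (h : Homeo n) : Prop :=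
  ∀ B : Set (Fin n → ℝ), Bornology.IsBounded B → ∀ ε : ℝ, 0 < ε →
    ∃ g ∈ S, ∀ p ∈ B, √(∑ i, (g p i - h p i) ^ 2) < ε

/-- piecewise linear homeomorphisms: `ℝⁿ` is covered by a locally finite family of sets (for
instance the closed simplices of a triangulation) on each of which the map is affine. -/
def PiecewiseAffine (n : ℕ) : Set (Homeo n) :=
  {h | ∃ (ι : Type) (T : ι → Set (Fin n → ℝ)), LocallyFinite T ∧ (⋃ i, T i) = univ ∧
    ∀ i, ∃ (M : Matrix (Fin n) (Fin n) ℝ) (b : Fin n → ℝ), ∀ x ∈ T i, h x = M.mulVec x + b}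

/-- `C^k` diffeomorphisms of `ℝⁿ` -/
def Diffeo (n : ℕ) (k : ℕ∞) : Set (Homeo n) :=
  {h | ContDiff ℝ k h ∧ ContDiff ℝ k h.symm}

end Pool.Agent.CoordMaps
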