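import Pool.Agent.CoordMaps.PLConverse

namespace Pool.Agent.CoordMaps

open Set Metric Topology NNReal

section Close

variable {V : Type*} [NormedAddCommGroup V] [NormedSpace ℝ V]

/-- `g` is `ε`-close to `h` on the ball of radius `R`. -/
def Near (R ε : ℝ) (g h : V ≃ₜ V) : Prop := ∀ p ∈ closedBall (0 : V) R, ‖g p - h p‖ < ε

lemma Near.mono {R R' ε ε' : ℝ} {g h : V ≃ₜ V} (H : Near R ε g h) (hR : R' ≤ R) (hε : ε ≤ ε') :
    Near R' ε' g h := fun p hp => (H p (closedBall_subset_closedBall hR hp)).trans_le hε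

variable [ProperSpace V]

lemma near_mul (h₁ h₂ : V ≃ₜ V) (R : ℝ) {ε : ℝ} (hε : 0 < ε) : ∃ R' δ : ℝ, 0 < δ ∧
    ∀ g₁ g₂ : V ≃ₜ V, Near R' δ g₁ h₁ → Near R' δ g₂ h₂ → Near R ε (g₁ * g₂) (h₁ * h₂) := by
  obtain ⟨M, hM0, hM⟩ := exists_image_bound h₂ h₂.continuous R
  obtain ⟨δ, hδ, hu⟩ := exists_unif h₁ h₁.continuous (M + 1) (half_pos hε)
  refine ⟨max R (M + 1), min (min δ 1) (ε / 2), by positivity, fun g₁ g₂ b₁ b₂ p hp => ?_⟩
  have b₂' := b₂.mono (le_max_left R (M + 1)) (min_le_left (min δ 1) (ε / 2))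
  have b₁' := b₁.mono (le_max_right R (M + 1)) (min_le_right (min δ 1) (ε / 2))
  have e1 : h₂ p ∈ closedBall (0 : V) (M + 1) :=
    closedBall_subset_closedBall (by linarith) (hM p hp)
  have e2 : ‖g₂ p - h₂ p‖ < min δ 1 := b₂' p hp
  have e3 : g₂ p ∈ closedBall (0 : V) (M + 1) := by
    rw [mem_closedBall_zero_iff]
    have := hM p hp
    rw [mem_closedBall_zero_iff] at this
    calc ‖g₂ p‖ = ‖(g₂ p - h₂ p) + h₂ p‖ := by simp
      _ ≤ ‖g₂ p - h₂ p‖ + ‖h₂ p‖ := norm_add_le _ _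
      _ ≤ 1 + M := add_le_add (e2.le.trans (min_le_right _ _)) this
      _ = M + 1 := by ring
  rw [Homeomorph.mul_apply, Homeomorph.mul_apply]
  calc ‖g₁ (g₂ p) - h₁ (h₂ p)‖ = ‖(g₁ (g₂ p) - h₁ (g₂ p)) + (h₁ (g₂ p) - h₁ (h₂ p))‖ := by simp
    _ ≤ ‖g₁ (g₂ p) - h₁ (g₂ p)‖ + ‖h₁ (g₂ p) - h₁ (h₂ p)‖ := norm_add_le _ _
    _ < ε / 2 + ε / 2 := add_lt_add (b₁' _ e3)
        (hu _ e3 _ e1 (e2.trans_le (min_le_left _ _)))
    _ = ε := by ring

lemma near_inv (h : V ≃ₜ V) (R : ℝ) {ε : ℝ} (hε : 0 < ε) : ∃ R' δ : ℝ, 0 < δ ∧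
    ∀ g : V ≃ₜ V, Near R' δ g h → Near R ε g⁻¹ h⁻¹ := by
  obtain ⟨M, hM0, hM⟩ := exists_image_bound h.symm h.symm.continuous R
  obtain ⟨M', hM'0, hM'⟩ := exists_image_bound h h.continuous (M + ε)
  obtain ⟨m, hm, hu⟩ := exists_unif h.symm h.symm.continuous M' hε
  refine ⟨M + ε, m / 2, by positivity, fun g b y hy => ?_⟩
  set x := h.symm y with hx
  have hxM := hM y hy
  have hxM' : x ∈ closedBall (0 : V) (M + ε) :=
    closedBall_subset_closedBall (by linarith) hxM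
  have hhx : h x = y := by rw [hx]; simp
  show ‖g.symm y - h.symm y‖ < ε
  rw [← hx]
  by_contra hcon
  push Not at hcon
  have hD : IsOpen (g '' ball x ε) := g.isOpenMap _ isOpen_ball
  have hy1 : y ∉ g '' ball x ε := by
    rintro ⟨z, hz, hzy⟩
    rw [← hzy, Homeomorph.symm_apply_apply] at hcon
    rw [mem_ball, dist_eq_norm] at hz
    linarith
  have hy2 : y ∉ closure (g '' ball x ε) ∨ y ∈ g '' sphere x ε := by
    by_cases h1 : y ∈ closure (g '' ball x ε)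
    · right
      rw [← g.image_closure] at h1
      obtain ⟨z, hz, hzy⟩ := h1
      refine ⟨z, ?_, hzy⟩
      have hz1 : z ∈ closedBall x ε := closure_ball_subset_closedBall hz
      rw [mem_closedBall] at hz1
      rw [mem_sphere]
      rcases hz1.lt_or_eq with h2 | h2
      · exact absurd ⟨z, h2, hzy⟩ hy1
      · exact h2
    · exact Or.inl h1
  have key : ∃ z ∈ sphere x ε, ‖g z - y‖ < m / 2 := by
    have hgx : ‖g x - y‖ < m / 2 := by
      have := b x hxM'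
      rwa [hhx] at this
    rcases hy2 with h2 | h2
    · by_contra hno
      push Not at hno
      have hseg : IsPreconnected (segment ℝ (g x) y) := (convex_segment _ _).isPreconnected
      have hsub : segment ℝ (g x) y ⊆ (g '' ball x ε) ∪ (closure (g '' ball x ε))ᶜ := by
        intro z hz
        by_cases h3 : z ∈ closure (g '' ball x ε)
        · left
          rw [← g.image_closure] at h3
          obtain ⟨w, hw, rfl⟩ := h3
          refine ⟨w, ?_, rfl⟩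
          have hw1 : w ∈ closedBall x ε := closure_ball_subset_closedBall hw
          rw [mem_closedBall] at hw1
          rw [mem_ball]
          refine lt_of_le_of_ne hw1 fun h4 => ?_
          have h5 := hno w h4
          have h6 : ‖g w - y‖ ≤ ‖g x - y‖ := by
            obtain ⟨s, t, hs, ht, hst, hz⟩ := hz
            have : g w - y = s • (g x - y) := by
              rw [← hz]
              have : t = 1 - s := by linarith
              rw [this, sub_smul, one_smul, smul_sub]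
              abel
            rw [this, norm_smul, Real.norm_eq_abs, abs_of_nonneg hs]
            have : s ≤ 1 := by linarith
            nlinarith [norm_nonneg (g x - y)]
          linarith
        · right; exact h3
      have := hseg.subset_left_of_subset_union hD isClosed_closure.isOpen_compl
        (disjoint_compl_right.mono_right (compl_subset_compl.2 subset_closure)) hsub
        ⟨g x, left_mem_segment _ _ _, mem_image_of_mem _ (mem_ball_self hε)⟩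
      exact hy1 (this (right_mem_segment _ _ _))
    · obtain ⟨z, hz, hzy⟩ := h2
      exact ⟨z, hz, by rw [hzy]; simpa using half_pos hm⟩
  obtain ⟨z, hz, hzy⟩ := key
  rw [mem_sphere, dist_eq_norm] at hz
  have hzM : z ∈ closedBall (0 : V) (M + ε) := by
    rw [mem_closedBall_zero_iff] at hxM ⊢
    calc ‖z‖ = ‖(z - x) + x‖ := by simp
      _ ≤ ‖z - x‖ + ‖x‖ := norm_add_le _ _
      _ ≤ ε + M := add_le_add hz.le hxM
      _ = M + ε := by ring
  have h7 : m ≤ ‖h z - h x‖ := by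
    by_contra h8
    push Not at h8
    have := hu _ (hM' z hzM) _ (hM' x hxM') h8
    rw [Homeomorph.symm_apply_apply, Homeomorph.symm_apply_apply] at this
    linarith
  have h9 := b z hzM
  have h10 : ‖h z - h x‖ ≤ ‖g z - h z‖ + ‖g z - y‖ := by
    rw [hhx]
    calc ‖h z - y‖ = ‖(g z - y) - (g z - h z)‖ := by congr 1; abel
      _ ≤ ‖g z - y‖ + ‖g z - h z‖ := norm_sub_le _ _
      _ = _ := by ring
  linarith

lemma near_comm (h₁ h₂ : V ≃ₜ V) (R : ℝ) {ε : ℝ} (hε : 0 < ε) : ∃ R' δ : ℝ, 0 < δ ∧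
    ∀ g₁ g₂ : V ≃ₜ V, Near R' δ g₁ h₁ → Near R' δ g₂ h₂ → Near R ε (g₁ * g₂ * g₁⁻¹ * g₂⁻¹) (h₁ * h₂ * h₁⁻¹ * h₂⁻¹) := by
  -- g₁ g₂ g₁⁻¹ g₂⁻¹
  obtain ⟨R₁, δ₁, hδ₁, k₁⟩ := near_mul (h₁ * h₂ * h₁⁻¹) h₂⁻¹ R hε
  obtain ⟨R₂, δ₂, hδ₂, k₂⟩ := near_mul (h₁ * h₂) h₁⁻¹ R₁ hδ₁
  obtain ⟨R₃, δ₃, hδ₃, k₃⟩ := near_mul h₁ h₂ R₂ hδ₂
  obtain ⟨R₄, δ₄, hδ₄, k₄⟩ := near_inv h₁ R₂ hδ₂
  obtain ⟨R₅, δ₅, hδ₅, k₅⟩ := near_inv h₂ R₁ hδ₁
  refine ⟨max R₃ (max R₄ R₅), min δ₃ (min δ₄ δ₅), by positivity, fun g₁ g₂ b₁ b₂ => ?_⟩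
  have i1 : R₃ ≤ max R₃ (max R₄ R₅) := le_max_left _ _
  have i2 : R₄ ≤ max R₃ (max R₄ R₅) := (le_max_left _ _).trans (le_max_right _ _)
  have i3 : R₅ ≤ max R₃ (max R₄ R₅) := (le_max_right _ _).trans (le_max_right _ _)
  have j1 : min δ₃ (min δ₄ δ₅) ≤ δ₃ := min_le_left _ _
  have j2 : min δ₃ (min δ₄ δ₅) ≤ δ₄ := (min_le_right _ _).trans (min_le_left _ _)
  have j3 : min δ₃ (min δ₄ δ₅) ≤ δ₅ := (min_le_right _ _).trans (min_le_right _ _)
  exact k₁ _ _ (k₂ _ _ (k₃ _ _ (b₁.mono i1 j1) (b₂.mono i1 j1)) (k₄ _ (b₁.mono i2 j2)))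
    (k₅ _ (b₂.mono i3 j3))

/-- commutators of limits are limits of commutators -/
lemma comm_mem {A B : Set (V ≃ₜ V)} {G : Subgroup (V ≃ₜ V)} (hAB : ∀ a ∈ A, ∀ b ∈ B, a * b * a⁻¹ * b⁻¹ ∈ cl G)
    {φ ψ : V ≃ₜ V} (hφ : ∀ R ε : ℝ, 0 < ε → ∃ a ∈ A, Near R ε a φ)
    (hψ : ∀ R ε : ℝ, 0 < ε → ∃ b ∈ B, Near R ε b ψ) : φ * ψ * φ⁻¹ * ψ⁻¹ ∈ cl G := by
  refine Appr.of_cl fun R ε hε => ?_
  obtain ⟨R', δ, hδ, k⟩ := near_comm φ ψ R hε
  obtain ⟨a, ha, ha'⟩ := hφ R' δ hδ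
  obtain ⟨b, hb, hb'⟩ := hψ R' δ hδ
  exact ⟨a * b * a⁻¹ * b⁻¹, hAB a ha b hb, k a b ha' hb'⟩

omit [ProperSpace V] in
lemma commute_of_disjoint {A B : V ≃ₜ V} (h : ∀ x, A x = x ∨ B x = x) : A * B = B * A := by
  ext x
  rw [Homeomorph.mul_apply, Homeomorph.mul_apply]
  have key : ∀ (A B : V ≃ₜ V), (∀ x, A x = x ∨ B x = x) → ∀ x, B x ≠ x → A (B x) = B (A x) := by
    intro A B h x hx
    have h1 : A x = x := (h x).resolve_right hx
    have h2 : A (B x) = B x := by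
      refine (h (B x)).resolve_right fun h3 => hx (B.injective h3)
    rw [h1, h2]
  by_cases h1 : B x = x
  · by_cases h2 : A x = x
    · rw [h1, h2, h1]
    · exact (key B A (fun y => (h y).symm) x h2).symm
  · exact key A B h x h1

omit [ProperSpace V] in
/-- commutator of two products with only one overlap of supports -/
lemma comm_eq {a a' b b' : V ≃ₜ V} (h1 : a * a' = a' * a) (h2 : b * b' = b' * b)
    (h3 : a' * b' = b' * a') (h4 : a * b' = b' * a) (h5 : b * a' = a' * b) :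
    (a * a') * (b * b') * (a * a')⁻¹ * (b * b')⁻¹ = a * b * a⁻¹ * b⁻¹ := by
  have c1 : Commute a a' := h1
  have c2 : Commute b b' := h2
  have c3 : Commute a' b' := h3
  have c4 : Commute a b' := h4
  have c5 : Commute b a' := h5
  have e1 : (a * a') * (b * b') = (a * b) * (a' * b') := by
    rw [mul_assoc, ← mul_assoc a' b b', ← c5.eq, mul_assoc b a' b', ← mul_assoc]
  have e2 : (b * b') * (a * a') = (b * a) * (a' * b') := by
    rw [mul_assoc, ← mul_assoc b' a a', ← c4.eq, mul_assoc a b' a', ← c3.eq, ← mul_assoc]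
  have e3 : (a * a') * (b * b') * (a * a')⁻¹ * (b * b')⁻¹ = ((a * a') * (b * b')) * ((b * b') * (a * a'))⁻¹ := by
    group
  have e4 : a * b * a⁻¹ * b⁻¹ = (a * b) * (b * a)⁻¹ := by
    group
  rw [e3, e4, e1, e2]
  group

end Close

end Pool.Agent.CoordMaps
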