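import Pool.Agent.CoordMaps.Gen1

namespace Pool.Agent.CoordMaps

open Set Metric Topology NNReal

section Glue

variable {V : Type*} [NormedAddCommGroup V] [NormedSpace ℝ V] {ι : Type*}

/-- smooth diffeomorphism -/
def Sm (h : V ≃ₜ V) : Prop :=
  ContDiff ℝ ((⊤ : ℕ∞) : WithTop ℕ∞) h ∧ ContDiff ℝ ((⊤ : ℕ∞) : WithTop ℕ∞) h.symm

lemma Sm.mul {g h : V ≃ₜ V} (hg : Sm g) (hh : Sm h) : Sm (g * h) :=
  ⟨hg.1.comp hh.1, hh.2.comp hg.2⟩

lemma Sm.inv {g : V ≃ₜ V} (hg : Sm g) : Sm g⁻¹ := ⟨hg.2, hg.1⟩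

lemma Sm.one : Sm (1 : V ≃ₜ V) := ⟨contDiff_id, contDiff_id⟩

/-- `F` is the product of the maps `g j` with disjoint supports. -/
def IsGlue (c : ι → V) (r : ι → ℝ) (g : ι → V → V) (F : V → V) : Prop :=
  (∀ j x, ‖x - c j‖ ≤ r j → F x = g j x) ∧ ∀ x, (∀ j, r j < ‖x - c j‖) → F x = x

variable {c : ι → V} {r : ι → ℝ}

lemma sep_unique (hsep : ∀ j k, j ≠ k → r j + r k + 1 ≤ ‖c j - c k‖) {x : V} {j k : ι}
    (hj : ‖x - c j‖ < r j + 1 / 2) (hk : ‖x - c k‖ ≤ r k) : j = k := by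
  by_contra h
  have h1 := hsep j k h
  have h2 : ‖c j - c k‖ ≤ ‖x - c k‖ + ‖x - c j‖ := by
    calc ‖c j - c k‖ = ‖(x - c k) - (x - c j)‖ := by congr 1; abel
      _ ≤ _ := norm_sub_le _ _
  linarith

lemma exists_isGlue (hsep : ∀ j k, j ≠ k → r j + r k + 1 ≤ ‖c j - c k‖) (g : ι → V → V) :
    ∃ F, IsGlue c r g F := by
  classical
  refine ⟨fun x => if h : ∃ j, ‖x - c j‖ ≤ r j then g h.choose x else x, ?_, ?_⟩
  · intro j x hx
    have h : ∃ j, ‖x - c j‖ ≤ r j := ⟨j, hx⟩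
    simp only [dif_pos h]
    have h1 : ‖x - c h.choose‖ ≤ r h.choose := h.choose_spec
    have h2 : h.choose = j := sep_unique hsep (by linarith) hx
    rw [h2]
  · intro x hx
    have h : ¬ ∃ j, ‖x - c j‖ ≤ r j := by
      rintro ⟨j, hj⟩
      linarith [hx j]
    simp only [dif_neg h]

lemma supp_inv {g : V ≃ₜ V} {a : V} {ρ : ℝ} (hg : ∀ x, ρ < ‖x - a‖ → g x = x) {x : V}
    (hx : ρ < ‖x - a‖) : g⁻¹ x = x := by
  have := hg x hx
  show g.symm x = x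
  rw [Homeomorph.symm_apply_eq]
  exact this.symm

lemma supp_ball {g : V ≃ₜ V} {a : V} {ρ : ℝ} (hg : ∀ x, ρ < ‖x - a‖ → g x = x) {x : V}
    (hx : ‖x - a‖ ≤ ρ) : ‖g x - a‖ ≤ ρ := by
  by_contra h
  push Not at h
  have h1 := g.injective (hg _ h)
  rw [h1] at h
  linarith

lemma IsGlue.comp {g : ι → V ≃ₜ V} (hsupp : ∀ j x, r j < ‖x - c j‖ → g j x = x) {F F' : V → V}
    (hF : IsGlue c r (fun j => g j) F) (hF' : IsGlue c r (fun j => ((g j)⁻¹ : V ≃ₜ V)) F') (x : V) :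
    F' (F x) = x := by
  by_cases h : ∃ j, ‖x - c j‖ ≤ r j
  · obtain ⟨j, hj⟩ := h
    rw [hF.1 j x hj, hF'.1 j _ (supp_ball (hsupp j) hj)]
    exact (g j).symm_apply_apply x
  · push Not at h
    rw [hF.2 x h, hF'.2 x h]

lemma IsGlue.contDiff (hsep : ∀ j k, j ≠ k → r j + r k + 1 ≤ ‖c j - c k‖) {g : ι → V → V}
    (hg : ∀ j, ContDiff ℝ ((⊤ : ℕ∞) : WithTop ℕ∞) (g j))
    (hsupp : ∀ j x, r j < ‖x - c j‖ → g j x = x) {F : V → V}
    (hF : IsGlue c r g F) : ContDiff ℝ ((⊤ : ℕ∞) : WithTop ℕ∞) F := by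
  rw [contDiff_iff_contDiffAt]
  intro x
  by_cases h : ∃ j, ‖x - c j‖ < r j + 1 / 2
  · obtain ⟨j, hj⟩ := h
    have hev : F =ᶠ[𝓝 x] g j := by
      have : ball (c j) (r j + 1 / 2) ∈ 𝓝 x := isOpen_ball.mem_nhds (by rwa [mem_ball, dist_eq_norm])
      filter_upwards [this] with y hy
      rw [mem_ball, dist_eq_norm] at hy
      by_cases h1 : ‖y - c j‖ ≤ r j
      · exact hF.1 j y h1
      · push Not at h1
        rw [hsupp j y h1]
        refine hF.2 y fun k => ?_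
        by_contra h2
        push Not at h2
        have := sep_unique hsep hy h2
        subst this
        linarith
    exact (hg j).contDiffAt.congr_of_eventuallyEq hev
  · push Not at h
    have hev : F =ᶠ[𝓝 x] id := by
      have : ball x (1 / 2) ∈ 𝓝 x := isOpen_ball.mem_nhds (mem_ball_self (by norm_num))
      filter_upwards [this] with y hy
      rw [mem_ball, dist_eq_norm] at hy
      refine hF.2 y fun k => ?_
      have h1 := h k
      have h2 : ‖x - c k‖ ≤ ‖y - c k‖ + ‖y - x‖ := by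
        calc ‖x - c k‖ = ‖(y - c k) - (y - x)‖ := by congr 1; abel
          _ ≤ _ := norm_sub_le _ _
      linarith
    exact contDiff_id.contDiffAt.congr_of_eventuallyEq hev

/-- infinite product of smooth diffeomorphisms with separated supports -/
lemma exists_glue (hsep : ∀ j k, j ≠ k → r j + r k + 1 ≤ ‖c j - c k‖) (g : ι → V ≃ₜ V)
    (hg : ∀ j, Sm (g j)) (hsupp : ∀ j x, r j < ‖x - c j‖ → g j x = x) :
    ∃ F : V ≃ₜ V, Sm F ∧ (∀ j x, ‖x - c j‖ ≤ r j → F x = g j x) ∧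
      ∀ x, (∀ j, r j < ‖x - c j‖) → F x = x := by
  obtain ⟨F, hF⟩ := exists_isGlue hsep (fun j => (g j : V → V))
  obtain ⟨F', hF'⟩ := exists_isGlue hsep (fun j => ((g j)⁻¹ : V ≃ₜ V))
  have hsupp' : ∀ j x, r j < ‖x - c j‖ → (g j)⁻¹ x = x := fun j x hx => supp_inv (hsupp j) hx
  have s1 := hF.contDiff hsep (fun j => (hg j).1) hsupp
  have s2 := hF'.contDiff hsep (fun j => (hg j).2) hsupp'
  have c1 : ∀ x, F' (F x) = x := fun x => IsGlue.comp hsupp hF hF' x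
  have c2 : ∀ x, F (F' x) = x := fun x => by
    refine IsGlue.comp (g := fun j => (g j)⁻¹) hsupp' hF' ?_ x
    simpa using hF
  exact ⟨⟨⟨F, F', c1, c2⟩, s1.continuous, s2.continuous⟩, ⟨s1, s2⟩, hF.1, hF.2⟩

end Glue

end Pool.Agent.CoordMaps
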