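import Pool.Agent.CoordMaps.Gen2

namespace Pool.Agent.CoordMaps

open Set Metric Topology NNReal MeasureTheory Convolution ContinuousLinearMap

/-- smoothing of `x i + v x`, keeping compact support of `v`. -/
lemma exists_smooth_c {n : ℕ} (i : Fin n) (v : (Fin n → ℝ) → ℝ) (hv : Continuous v)
    {R₁ : ℝ} (hsupp : ∀ x, R₁ < ‖x‖ → v x = 0)
    (hmono : ∀ x s t, s ≤ t → s + v (Function.update x i s) ≤ t + v (Function.update x i t))
    (R : ℝ) {ε : ℝ} (hε : 0 < ε) :
    ∃ (w : (Fin n → ℝ) → ℝ) (η R₂ : ℝ), 0 < η ∧ ContDiff ℝ ((⊤ : ℕ∞) : WithTop ℕ∞) w ∧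
      (∀ x, R₂ < ‖x‖ → w x = 0) ∧
      (∀ x s t, s ≤ t → η * (t - s) ≤
        (t + w (Function.update x i t)) - (s + w (Function.update x i s))) ∧
      ∀ x ∈ closedBall (0 : Fin n → ℝ) R, |w x - v x| < ε := by
  classical
  have huc : UniformContinuousOn v (closedBall (0 : Fin n → ℝ) (R + 1)) :=
    (isCompact_closedBall _ _).uniformContinuousOn_of_continuous hv.continuousOn
  rw [Metric.uniformContinuousOn_iff_le] at huc
  obtain ⟨δ, hδ, hu⟩ := huc (ε / 2) (half_pos hε)
  obtain ⟨C, hC⟩ : ∃ C, ∀ x ∈ closedBall (0 : Fin n → ℝ) (R + 1), ‖v x‖ ≤ C :=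
    (isCompact_closedBall _ _).exists_bound_of_continuousOn hv.continuousOn
  set r : ℝ := min δ 1 with hr
  have hrp : 0 < r := lt_min hδ one_pos
  let b : ContDiffBump (0 : Fin n → ℝ) := ⟨r / 2, r, half_pos hrp, half_lt_self hrp⟩
  let μ : Measure (Fin n → ℝ) := volume
  set w : (Fin n → ℝ) → ℝ := b.normed μ with hw
  have hwc : HasCompactSupport w := b.hasCompactSupport_normed
  have hws : ContDiff ℝ ((⊤ : ℕ∞) : WithTop ℕ∞) w := b.contDiff_normed
  have hw0 : ∀ x, 0 ≤ w x := fun x => b.nonneg_normed x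
  have hwI : ∫ x, w x ∂μ = 1 := b.integral_normed
  have hwz : ∀ x, r ≤ ‖x‖ → w x = 0 := by
    intro x hx
    have h1 : x ∉ Function.support w := by
      rw [hw, b.support_normed_eq, mem_ball_zero_iff]
      exact not_lt.2 hx
    simpa using h1
  have hwint : Integrable w μ := hws.continuous.integrable_of_hasCompactSupport hwc
  have hφl : LocallyIntegrable v μ := hv.locallyIntegrable
  set c : (Fin n → ℝ) → ℝ := (w ⋆[lsmul ℝ ℝ, μ] v : (Fin n → ℝ) → ℝ) with hc
  have hcs : ContDiff ℝ ((⊤ : ℕ∞) : WithTop ℕ∞) c := hwc.contDiff_convolution_left _ hws hφl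
  have hcd : ∀ x, c x = ∫ y, w y * v (x - y) ∂μ := by
    intro x
    rw [hc, convolution_def]
    rfl
  have hint : ∀ x, Integrable (fun y => w y * v (x - y)) μ := by
    intro x
    have := hwc.convolutionExists_left (lsmul ℝ ℝ) hws.continuous hφl x
    exact this
  have hcm : ∀ x s t, s ≤ t → s + c (Function.update x i s) ≤ t + c (Function.update x i t) := by
    intro x s t hst
    have e : ∀ s, Function.update x i s - (0 : Fin n → ℝ) = Function.update x i s := fun s => by simp
    have e1 : ∀ s : ℝ, s + c (Function.update x i s) =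
        ∫ y, w y * (s + v (Function.update x i s - y)) ∂μ := by
      intro s
      have h1 : ∀ y, w y * (s + v (Function.update x i s - y)) =
          w y * s + w y * v (Function.update x i s - y) := fun y => by ring
      simp_rw [h1]
      rw [integral_add (hwint.mul_const s) (hint _), integral_mul_const, hwI, one_mul, ← hcd]
    rw [e1, e1]
    have hI : ∀ s : ℝ, Integrable (fun y => w y * (s + v (Function.update x i s - y))) μ := by
      intro s
      have h1 : (fun y => w y * (s + v (Function.update x i s - y))) =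
          fun y => w y * s + w y * v (Function.update x i s - y) := by
        funext y; ring
      rw [h1]
      exact (hwint.mul_const s).add (hint _)
    refine integral_mono (hI s) (hI t) fun y => ?_
    have e : ∀ s, Function.update x i s - y = Function.update (x - y) i (s - y i) := by
      intro s
      ext j
      by_cases hj : j = i
      · subst hj; simp
      · simp [hj]
    simp only
    rw [e, e]
    have h1 := hmono (x - y) (s - y i) (t - y i) (by linarith)
    have h2 : s + v (Function.update (x - y) i (s - y i)) ≤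
        t + v (Function.update (x - y) i (t - y i)) := by linarith
    exact mul_le_mul_of_nonneg_left h2 (hw0 y)
  have hcz : ∀ x, R₁ + 1 < ‖x‖ → c x = 0 := by
    intro x hx
    rw [hcd]
    have : ∀ y, w y * v (x - y) = 0 := by
      intro y
      by_cases hy : r ≤ ‖y‖
      · rw [hwz y hy, zero_mul]
      · push Not at hy
        have h1 : ‖y‖ < 1 := hy.trans_le (min_le_right _ _)
        have h2 : ‖x‖ ≤ ‖x - y‖ + ‖y‖ := by
          calc ‖x‖ = ‖(x - y) + y‖ := by simp
            _ ≤ _ := norm_add_le _ _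
        rw [hsupp (x - y) (by linarith), mul_zero]
    simp [this]
  have hca : ∀ x ∈ closedBall (0 : Fin n → ℝ) R, |c x - v x| ≤ ε / 2 := by
    intro x hx
    have := b.dist_normed_convolution_le (μ := μ) (g := v) (x₀ := x) (ε := ε / 2)
      hv.aestronglyMeasurable (fun y hy => by
        have hy' : dist y x < r := hy
        refine hu y ?_ x ?_ (hy'.le.trans (min_le_left _ _))
        · rw [mem_closedBall_zero_iff] at hx ⊢
          rw [dist_eq_norm] at hy'
          calc ‖y‖ = ‖(y - x) + x‖ := by simp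
            _ ≤ ‖y - x‖ + ‖x‖ := norm_add_le _ _
            _ ≤ 1 + R := add_le_add (hy'.le.trans (min_le_right _ _)) hx
            _ = R + 1 := by ring
        · exact closedBall_subset_closedBall (by linarith) hx)
    rwa [Real.dist_eq] at this
  set K : ℝ := max C 0 + ε with hK
  have hKp : 0 < K := by rw [hK]; positivity
  set η : ℝ := min (1 / 2) (ε / (4 * K)) with hη
  have hη0 : 0 < η := by rw [hη]; positivity
  have hη1 : η ≤ 1 / 2 := min_le_left _ _
  have hη2 : η * K ≤ ε / 4 := by
    have : η ≤ ε / (4 * K) := min_le_right _ _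
    calc η * K ≤ ε / (4 * K) * K := mul_le_mul_of_nonneg_right this hKp.le
      _ = ε / 4 := by field_simp
  refine ⟨fun x => (1 - η) * c x, η, R₁ + 1, hη0, contDiff_const.mul hcs, ?_, ?_, ?_⟩
  · intro x hx
    show (1 - η) * c x = 0
    rw [hcz x hx, mul_zero]
  · intro x s t hst
    have h1 := hcm x s t hst
    show η * (t - s) ≤ t + (1 - η) * c (Function.update x i t) -
      (s + (1 - η) * c (Function.update x i s))
    have h2 : 0 ≤ (1 - η) * ((t + c (Function.update x i t)) - (s + c (Function.update x i s))) :=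
      mul_nonneg (by linarith) (by linarith)
    nlinarith
  · intro x hx
    show |(1 - η) * c x - v x| < ε
    have h1 := hca x hx
    have h2 : |v x| ≤ C := hC x (closedBall_subset_closedBall (by linarith) hx)
    have h3 : |c x| ≤ K := by
      calc |c x| = |(c x - v x) + v x| := by simp
        _ ≤ |c x - v x| + |v x| := abs_add_le _ _
        _ ≤ ε / 2 + C := add_le_add h1 h2
        _ ≤ K := by rw [hK]; have := le_max_left C 0; linarith
    have e : (1 - η) * c x - v x = (c x - v x) - η * c x := by ring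
    rw [e]
    calc |(c x - v x) - η * c x| ≤ |c x - v x| + |η * c x| := abs_sub _ _
      _ = |c x - v x| + η * |c x| := by rw [abs_mul, abs_of_pos hη0]
      _ ≤ ε / 2 + η * K := add_le_add h1 (mul_le_mul_of_nonneg_left h3 hη0.le)
      _ < ε := by linarith

/-- compactly supported smooth diffeomorphisms -/
def DcSub (n : ℕ) : Subgroup (Homeo n) where
  carrier := {h | Sm h ∧ ∃ R : ℝ, ∀ x, R < ‖x‖ → h x = x}
  mul_mem' := by
    rintro a b ⟨ha, Ra, ha'⟩ ⟨hb, Rb, hb'⟩
    refine ⟨ha.mul hb, max Ra Rb, fun x hx => ?_⟩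
    rw [Homeomorph.mul_apply, hb' x (lt_of_le_of_lt (le_max_right _ _) hx),
      ha' x (lt_of_le_of_lt (le_max_left _ _) hx)]
  one_mem' := ⟨Sm.one, 0, fun x _ => rfl⟩
  inv_mem' := by
    rintro a ⟨ha, Ra, ha'⟩
    refine ⟨ha.inv, Ra, fun x hx => ?_⟩
    have := ha' x hx
    show a.symm x = x
    rw [Homeomorph.symm_apply_eq]
    exact this.symm

/-- truncation function on the line -/
noncomputable def tr (R L t : ℝ) : ℝ := max 0 (min 1 (1 - (|t| - R) / L))

lemma tr_nonneg (R L t : ℝ) : 0 ≤ tr R L t := le_max_left _ _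

lemma tr_le_one (R L t : ℝ) : tr R L t ≤ 1 := max_le zero_le_one (min_le_left _ _)

lemma tr_one {R L t : ℝ} (hL : 0 < L) (ht : |t| ≤ R) : tr R L t = 1 := by
  have : 1 ≤ 1 - (|t| - R) / L := by
    have : (|t| - R) / L ≤ 0 := div_nonpos_of_nonpos_of_nonneg (by linarith) hL.le
    linarith
  rw [tr, min_eq_left this, max_eq_right zero_le_one]

lemma tr_zero {R L t : ℝ} (hL : 0 < L) (ht : R + L ≤ |t|) : tr R L t = 0 := by
  have : 1 - (|t| - R) / L ≤ 0 := by
    have : 1 ≤ (|t| - R) / L := by rw [le_div_iff₀ hL]; linarith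
    linarith
  rw [tr, max_eq_left (le_trans (min_le_right _ _) this)]

lemma tr_cont (R L : ℝ) : Continuous (tr R L) := by
  unfold tr
  fun_prop

lemma tr_lip {R L : ℝ} (hL : 0 < L) (s t : ℝ) : |tr R L s - tr R L t| ≤ |s - t| / L := by
  have h1 : |tr R L s - tr R L t| ≤ |(1 - (|s| - R) / L) - (1 - (|t| - R) / L)| := by
    rw [tr, tr, max_comm 0, max_comm 0]
    refine (abs_max_sub_max_le_abs _ _ _).trans ?_
    exact (abs_min_sub_min_le_max _ _ _ _).trans (by simp)
  refine h1.trans ?_
  have e : (1 - (|s| - R) / L) - (1 - (|t| - R) / L) = (|t| - |s|) / L := by ring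
  rw [e, abs_div, abs_of_pos hL]
  have : |(|t| - |s|)| ≤ |s - t| := by
    rw [abs_sub_comm s t]; exact abs_abs_sub_abs_le _ _
  gcongr

/-- clamping to `[-R, R]` -/
noncomputable def cp (R t : ℝ) : ℝ := max (-R) (min R t)

lemma cp_cont (R : ℝ) : Continuous (cp R) := by
  unfold cp
  fun_prop

lemma cp_abs {R : ℝ} (hR : 0 ≤ R) (t : ℝ) : |cp R t| ≤ R := by
  rw [abs_le]
  exact ⟨le_max_left _ _, max_le (by linarith) (min_le_left _ _)⟩

lemma cp_id {R t : ℝ} (ht : |t| ≤ R) : cp R t = t := by
  rw [abs_le] at ht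
  rw [cp, min_eq_right ht.2, max_eq_right ht.1]

lemma cp_hi {R t : ℝ} (hR : 0 ≤ R) (ht : R ≤ t) : cp R t = R := by
  rw [cp, min_eq_left ht, max_eq_right (by linarith)]

lemma cp_lo {R t : ℝ} (hR : 0 ≤ R) (ht : t ≤ -R) : cp R t = -R := by
  rw [cp, min_eq_right (by linarith), max_eq_left ht]

/-- one-variable monotonicity of the truncation -/
lemma mono_tr {R M κ : ℝ} (hR : 0 ≤ R) (hM : 0 ≤ M) (h0 : 0 ≤ κ) (h1 : κ ≤ 1) (G : ℝ → ℝ)
    (hG : ∀ s t, s ≤ t → |s| ≤ R → |t| ≤ R → G s ≤ G t) (hb : ∀ s, |s| ≤ R → |G s - s| ≤ M) :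
    Monotone fun s : ℝ => s + tr R (2 * (M + 1)) s * κ * (G (cp R s) - cp R s) := by
  have hL : 0 < 2 * (M + 1) := by linarith
  have outer : ∀ u s t : ℝ, |u| ≤ M → s ≤ t →
      s + tr R (2 * (M + 1)) s * κ * u ≤ t + tr R (2 * (M + 1)) t * κ * u := by
    intro u s t hu hst
    have h2 := tr_lip (R := R) hL s t
    have h3 : (tr R (2 * (M + 1)) s - tr R (2 * (M + 1)) t) * κ * u ≤ t - s := by
      calc (tr R (2 * (M + 1)) s - tr R (2 * (M + 1)) t) * κ * u
          ≤ |(tr R (2 * (M + 1)) s - tr R (2 * (M + 1)) t) * κ * u| := le_abs_self _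
        _ = |tr R (2 * (M + 1)) s - tr R (2 * (M + 1)) t| * κ * |u| := by
            rw [abs_mul, abs_mul, abs_of_nonneg h0]
        _ ≤ (|s - t| / (2 * (M + 1))) * 1 * M := by gcongr
        _ ≤ t - s := by
            rw [abs_sub_comm, abs_of_nonneg (by linarith : 0 ≤ t - s), mul_one, div_mul_eq_mul_div,
              div_le_iff₀ hL]
            nlinarith [mul_nonneg hM (by linarith : 0 ≤ t - s)]
    linarith
  have hlo : MonotoneOn (fun s : ℝ => s + tr R (2 * (M + 1)) s * κ * (G (cp R s) - cp R s))
      (Iic (-R)) := by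
    intro s hs t ht hst
    simp only
    rw [cp_lo hR hs, cp_lo hR ht]
    exact outer _ s t (hb _ (by rw [abs_neg, abs_of_nonneg hR])) hst
  have hhi : MonotoneOn (fun s : ℝ => s + tr R (2 * (M + 1)) s * κ * (G (cp R s) - cp R s))
      (Ici R) := by
    intro s hs t ht hst
    simp only
    rw [cp_hi hR hs, cp_hi hR ht]
    exact outer _ s t (hb _ (by rw [abs_of_nonneg hR])) hst
  have hmid : MonotoneOn (fun s : ℝ => s + tr R (2 * (M + 1)) s * κ * (G (cp R s) - cp R s))
      (Icc (-R) R) := by
    intro s hs t ht hst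
    have hs' : |s| ≤ R := abs_le.2 hs
    have ht' : |t| ≤ R := abs_le.2 ht
    simp only
    rw [cp_id hs', cp_id ht', tr_one hL hs', tr_one hL ht', one_mul]
    have h2 := hG s t hst hs' ht'
    nlinarith [mul_le_mul_of_nonneg_left h2 h0, mul_le_mul_of_nonneg_left hst (sub_nonneg.2 h1)]
  have h3 := hlo.union_right hmid isGreatest_Iic (isLeast_Icc (by linarith))
  rw [Iic_union_Icc_eq_Iic (by linarith)] at h3
  exact h3.Iic_union_Ici hhi

/-- cutting off an increasing type A map outside a ball -/
lemma exists_cutoff {n : ℕ} {g : Homeo n} {i : Fin n} (hi : ∀ x j, j ≠ i → g x j = x j)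
    (hinc : ∀ x s t, s < t → g (Function.update x i s) i < g (Function.update x i t) i)
    {R : ℝ} (hR : 0 ≤ R) : ∃ (v : (Fin n → ℝ) → ℝ) (R₁ : ℝ), Continuous v ∧
      (∀ x, R₁ < ‖x‖ → v x = 0) ∧
      (∀ x s t, s ≤ t → s + v (Function.update x i s) ≤ t + v (Function.update x i t)) ∧
      ∀ x ∈ closedBall (0 : Fin n → ℝ) R, x i + v x = g x i := by
  classical
  set f : (Fin n → ℝ) → ℝ := fun x => g x i - x i with hf
  have hfc : Continuous f := ((continuous_apply i).comp g.continuous).sub (continuous_apply i)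
  obtain ⟨C, hC⟩ : ∃ C, ∀ x ∈ closedBall (0 : Fin n → ℝ) R, ‖f x‖ ≤ C :=
    (isCompact_closedBall _ _).exists_bound_of_continuousOn hfc.continuousOn
  set M : ℝ := max C 0 with hM
  have hM0 : 0 ≤ M := le_max_right _ _
  set L : ℝ := 2 * (M + 1) with hL
  have hLp : 0 < L := by rw [hL]; linarith
  set P : (Fin n → ℝ) → (Fin n → ℝ) := fun x j => cp R (x j) with hP
  have hPc : Continuous P := by
    refine continuous_pi fun j => (cp_cont R).comp (continuous_apply j)
  have hPb : ∀ x, P x ∈ closedBall (0 : Fin n → ℝ) R := by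
    intro x
    rw [mem_closedBall_zero_iff, pi_norm_le_iff_of_nonneg hR]
    intro j
    exact cp_abs hR _
  refine ⟨fun x => (∏ j, tr R L (x j)) * f (P x), R + L, ?_, ?_, ?_, ?_⟩
  · refine Continuous.mul ?_ (hfc.comp hPc)
    exact continuous_finset_prod _ fun j _ => (tr_cont R L).comp (continuous_apply j)
  · intro x hx
    have : ∃ j, R + L < |x j| := by
      by_contra hcon
      push Not at hcon
      have : ‖x‖ ≤ R + L := (pi_norm_le_iff_of_nonneg (by linarith)).2 hcon
      linarith
    obtain ⟨j, hj⟩ := this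
    have h1 : ∏ j, tr R L (x j) = 0 :=
      Finset.prod_eq_zero (Finset.mem_univ j) (tr_zero hLp hj.le)
    simp only [h1, zero_mul]
  · intro x s t hst
    set κ : ℝ := ∏ j ∈ Finset.univ.erase i, tr R L (x j) with hκ
    have hκ0 : 0 ≤ κ := Finset.prod_nonneg fun j _ => tr_nonneg _ _ _
    have hκ1 : κ ≤ 1 := Finset.prod_le_one (fun j _ => tr_nonneg _ _ _) fun j _ => tr_le_one _ _ _
    set G : ℝ → ℝ := fun c => g (Function.update (P x) i c) i with hG
    have key : ∀ s : ℝ, (∏ j, tr R L (Function.update x i s j)) * f (P (Function.update x i s)) =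
        tr R L s * κ * (G (cp R s) - cp R s) := by
      intro s
      have h1 : ∏ j, tr R L (Function.update x i s j) = tr R L s * κ := by
        rw [← Finset.mul_prod_erase _ _ (Finset.mem_univ i), Function.update_self, hκ]
        congr 1
        refine Finset.prod_congr rfl fun j hj => ?_
        rw [Function.update_of_ne (Finset.ne_of_mem_erase hj)]
      have h2 : P (Function.update x i s) = Function.update (P x) i (cp R s) := by
        ext j
        by_cases hj : j = i
        · subst hj; simp [hP]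
        · simp [hP, hj]
      rw [h1, h2]
      simp only [hf, hG, Function.update_self]
    have hmon := mono_tr hR hM0 hκ0 hκ1 G (fun s t hst _ _ => by
      rcases hst.lt_or_eq with h | h
      · exact (hinc (P x) s t h).le
      · rw [h]) (fun s hs => by
      have h3 : Function.update (P x) i s ∈ closedBall (0 : Fin n → ℝ) R := by
        rw [mem_closedBall_zero_iff, pi_norm_le_iff_of_nonneg hR]
        intro j
        by_cases hj : j = i
        · subst hj; simpa using hs
        · rw [Function.update_of_ne hj]; exact cp_abs hR _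
      have h4 := hC _ h3
      simp only [hf, Function.update_self] at h4
      exact le_trans h4 (le_max_left _ _)) hst
    simp only at hmon ⊢
    rw [key, key]
    exact hmon
  · intro x hx
    have hx' : ∀ j, |x j| ≤ R := fun j => by
      rw [mem_closedBall_zero_iff] at hx
      exact (norm_le_pi_norm x j).trans hx
    have h1 : ∏ j, tr R L (x j) = 1 := Finset.prod_eq_one fun j _ => tr_one hLp (hx' j)
    have h2 : P x = x := by
      ext j
      exact cp_id (hx' j)
    simp only [h1, h2, one_mul, hf]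
    ring

/-- increasing type A maps are limits of compactly supported smooth diffeomorphisms -/
theorem inc_mem {n : ℕ} {g : Homeo n} {i : Fin n} (hi : ∀ x j, j ≠ i → g x j = x j)
    (hinc : ∀ x s t, s < t → g (Function.update x i s) i < g (Function.update x i t) i) :
    g ∈ cl (DcSub n) := by
  intro R ε hε
  obtain ⟨v, R₁, hv, hv0, hvm, hvg⟩ := exists_cutoff hi hinc (R := max R 0) (le_max_right _ _)
  obtain ⟨w, η, R₂, hη, hw, hw0, hwm, hwa⟩ := exists_smooth_c i v hv hv0 hvm (max R 0) hε
  obtain ⟨g', h1, h2, h3⟩ := exists_diffeo i (fun x => x i + w x)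
    ((contDiff_apply ℝ ℝ i).add hw) 1 (Or.inl rfl) hη (fun x s t hst => by
      have := hwm x s t hst
      simp only [Function.update_self, one_mul]
      exact this)
  refine ⟨g', ⟨⟨h1, h2⟩, R₂, fun x hx => ?_⟩, fun p hp => ?_⟩
  · rw [h3, hw0 x hx, add_zero, Function.update_eq_self]
  · have hp' : p ∈ closedBall (0 : Fin n → ℝ) (max R 0) :=
      closedBall_subset_closedBall (le_max_left _ _) hp
    refine (pi_norm_lt_iff hε).2 fun j => ?_
    rw [Pi.sub_apply, h3]
    by_cases hj : j = i
    · subst hj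
      rw [Function.update_self, ← hvg p hp']
      have e : p j + w p - (p j + v p) = w p - v p := by ring
      rw [e]
      exact hwa p hp'
    · rw [Function.update_of_ne hj, hi p j hj, sub_self, norm_zero]
      exact hε

end Pool.Agent.CoordMaps
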