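import Pool.Agent.CoordMaps.Gen3

namespace Pool.Agent.CoordMaps

open Set Metric Topology NNReal

/-- smooth diffeomorphisms supported in the unit ball -/
def D1 (n : ℕ) : Set (Homeo n) := {g | Sm g ∧ ∀ x, 1 < ‖x‖ → g x = x}

lemma exists_dense_D1 (n : ℕ) : ∃ ψ : ℕ → Homeo n, (∀ k, ψ k ∈ D1 n) ∧
    ∀ g ∈ D1 n, ∀ R ε : ℝ, 0 < ε → ∃ k, Near R ε (ψ k) g := by
  classical
  let Y := {g : Homeo n // g ∈ D1 n}
  let ι : Y → C(Fin n → ℝ, Fin n → ℝ) := fun g => ⟨g.1, g.1.continuous⟩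
  letI : TopologicalSpace Y := TopologicalSpace.induced ι inferInstance
  haveI : SecondCountableTopology Y := TopologicalSpace.secondCountableTopology_induced _ _ ι
  haveI : Nonempty Y := ⟨⟨1, Sm.one, fun x _ => rfl⟩⟩
  obtain ⟨u, hu⟩ := TopologicalSpace.exists_dense_seq Y
  refine ⟨fun k => (u k).1, fun k => (u k).2, fun g hg R ε hε => ?_⟩
  let g' : C(Fin n → ℝ, Fin n → ℝ) := ⟨g, g.continuous⟩
  have hopen : IsOpen {f : C(Fin n → ℝ, Fin n → ℝ) |
      MapsTo (f - g') (closedBall (0 : Fin n → ℝ) R) (ball 0 ε)} := by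
    have h1 := ContinuousMap.isOpen_setOf_mapsTo (X := Fin n → ℝ) (Y := Fin n → ℝ)
      (isCompact_closedBall (0 : Fin n → ℝ) R) (isOpen_ball (x := (0 : Fin n → ℝ)) (ε := ε))
    exact h1.preimage (f := fun f : C(Fin n → ℝ, Fin n → ℝ) => f - g')
      (continuous_id.sub continuous_const)
  have hopen' : IsOpen (ι ⁻¹' {f : C(Fin n → ℝ, Fin n → ℝ) |
      MapsTo (f - g') (closedBall (0 : Fin n → ℝ) R) (ball 0 ε)}) :=
    hopen.preimage continuous_induced_dom
  obtain ⟨k, hk⟩ := hu.exists_mem_open hopen' ⟨⟨g, hg⟩, fun p _ => by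
    show (g p - g p : Fin n → ℝ) ∈ ball 0 ε
    rw [sub_self]; exact mem_ball_self hε⟩
  refine ⟨k, fun p hp => ?_⟩
  have := hk hp
  rw [mem_ball_zero_iff] at this
  exact this

/-- translations -/
def tl {n : ℕ} (a : Fin n → ℝ) : Homeo n := Homeomorph.addRight a

lemma tl_apply {n : ℕ} (a x : Fin n → ℝ) : tl a x = x + a := rfl

lemma tl_inv_apply {n : ℕ} (a x : Fin n → ℝ) : (tl a)⁻¹ x = x - a := by
  rw [sub_eq_add_neg]
  rfl

lemma tl_sm {n : ℕ} (a : Fin n → ℝ) : Sm (tl a) := by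
  refine ⟨contDiff_id.add contDiff_const, ?_⟩
  have : (((tl a).symm : Homeo n) : (Fin n → ℝ) → (Fin n → ℝ)) = fun x => x - a := by
    funext x
    exact tl_inv_apply a x
  rw [this]
  exact contDiff_id.sub contDiff_const

lemma tl_pow {n : ℕ} (a : Fin n → ℝ) (k : ℕ) : (tl a) ^ k = tl (k • a) := by
  induction k with
  | zero => ext x; simp [tl_apply]
  | succ k ih =>
    rw [pow_succ, ih]
    refine Homeomorph.ext fun x => ?_
    rw [Homeomorph.mul_apply, tl_apply, tl_apply, tl_apply, succ_nsmul]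
    abel

/-- conjugate by a translation -/
def cj {n : ℕ} (a : Fin n → ℝ) (g : Homeo n) : Homeo n := tl a * g * (tl a)⁻¹

lemma cj_apply {n : ℕ} (a : Fin n → ℝ) (g : Homeo n) (x : Fin n → ℝ) :
    cj a g x = g (x - a) + a := by
  rw [cj, Homeomorph.mul_apply, Homeomorph.mul_apply, tl_apply, tl_inv_apply]

lemma cj_sm {n : ℕ} (a : Fin n → ℝ) {g : Homeo n} (hg : Sm g) : Sm (cj a g) :=
  ((tl_sm a).mul hg).mul (tl_sm a).inv

lemma cj_supp {n : ℕ} (a : Fin n → ℝ) {g : Homeo n} (hg : ∀ x, 1 < ‖x‖ → g x = x)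
    (x : Fin n → ℝ) (hx : 1 < ‖x - a‖) : cj a g x = x := by
  rw [cj_apply, hg _ hx]; abel

lemma pow_sidon {a b c d : ℕ} (h : 2 ^ a + 2 ^ b = 2 ^ c + 2 ^ d) :
    (a = c ∧ b = d) ∨ (a = d ∧ b = c) := by
  induction a generalizing b c d with
  | zero =>
    rcases b with _ | b
    · rcases c with _ | c <;> rcases d with _ | d
      · simp
      · exfalso; rw [pow_succ] at h; have := Nat.one_le_two_pow (n := d); omega
      · exfalso; rw [pow_succ] at h; have := Nat.one_le_two_pow (n := c); omega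
      · exfalso; rw [pow_succ, pow_succ] at h
        have := Nat.one_le_two_pow (n := d); have := Nat.one_le_two_pow (n := c); omega
    · rcases c with _ | c <;> rcases d with _ | d
      · exfalso; rw [pow_succ] at h; have := Nat.one_le_two_pow (n := b); omega
      · left
        refine ⟨rfl, ?_⟩
        have : 2 ^ (b + 1) = 2 ^ (d + 1) := by omega
        exact Nat.pow_right_injective (le_refl 2) this
      · right
        refine ⟨rfl, ?_⟩
        have : 2 ^ (b + 1) = 2 ^ (c + 1) := by omega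
        exact Nat.pow_right_injective (le_refl 2) this
      · exfalso; rw [pow_succ, pow_succ, pow_succ] at h; omega
  | succ a ih =>
    rcases b with _ | b
    · rcases c with _ | c <;> rcases d with _ | d
      · exfalso; rw [pow_succ] at h; have := Nat.one_le_two_pow (n := a); omega
      · right
        have : 2 ^ (a + 1) = 2 ^ (d + 1) := by omega
        exact ⟨Nat.pow_right_injective (le_refl 2) this, rfl⟩
      · left
        have : 2 ^ (a + 1) = 2 ^ (c + 1) := by omega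
        exact ⟨Nat.pow_right_injective (le_refl 2) this, rfl⟩
      · exfalso; rw [pow_succ, pow_succ, pow_succ] at h; omega
    · rcases c with _ | c <;> rcases d with _ | d
      · exfalso; rw [pow_succ, pow_succ] at h
        have := Nat.one_le_two_pow (n := a); have := Nat.one_le_two_pow (n := b); omega
      · exfalso; rw [pow_succ, pow_succ, pow_succ] at h; omega
      · exfalso; rw [pow_succ, pow_succ, pow_succ] at h; omega
      · have h' : 2 ^ a + 2 ^ b = 2 ^ c + 2 ^ d := by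
          rw [pow_succ, pow_succ, pow_succ, pow_succ] at h; omega
        rcases ih h' with h1 | h1
        · left; omega
        · right; omega

section Galvin

variable {m : ℕ}

/-- first basis vector -/
noncomputable def e0 (m : ℕ) : Fin (m + 1) → ℝ := Pi.single 0 1

lemma norm_smul_e0 (t : ℝ) : ‖t • e0 m‖ = |t| := by
  rw [norm_smul, e0, Pi.norm_single, norm_one, mul_one, Real.norm_eq_abs]

lemma cen_sub (a b : ℕ) : ‖(4 * a : ℝ) • e0 m - (4 * b : ℝ) • e0 m‖ = 4 * |(a : ℝ) - b| := by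
  rw [← sub_smul, norm_smul_e0, ← mul_sub, abs_mul]
  norm_num

lemma cen_sep {a b : ℕ} (h : a ≠ b) : 1 + 1 + 1 ≤ ‖(4 * a : ℝ) • e0 m - (4 * b : ℝ) • e0 m‖ := by
  rw [cen_sub]
  have : (1 : ℝ) ≤ |(a : ℝ) - b| := by
    have h1 : (1 : ℤ) ≤ |(a : ℤ) - b| := Int.one_le_abs (by omega)
    exact_mod_cast h1
  linarith

/-- the basic element: product of the maps `ψ k` placed at the centres `4·2^k e₀`. -/
lemma exists_F (ψ : ℕ → Homeo (m + 1)) (hψ : ∀ k, ψ k ∈ D1 (m + 1)) :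
    ∃ F : Homeo (m + 1), Sm F ∧
      (∀ k x, ‖x - (4 * (2 ^ k : ℕ) : ℝ) • e0 m‖ ≤ 1 →
        F x = cj ((4 * (2 ^ k : ℕ) : ℝ) • e0 m) (ψ k) x) ∧
      ∀ x, (∀ k, 1 < ‖x - (4 * (2 ^ k : ℕ) : ℝ) • e0 m‖) → F x = x := by
  refine exists_glue (c := fun k : ℕ => (4 * (2 ^ k : ℕ) : ℝ) • e0 m) (r := fun _ => 1)
    (fun j k hjk => ?_) _ (fun k => cj_sm _ (hψ k).1) fun k x hx => cj_supp _ (hψ k).2 x hx
  exact cen_sep (fun h => hjk (Nat.pow_right_injective (le_refl 2) h))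

lemma galvin_comm {ψ : ℕ → Homeo (m + 1)} (hψ : ∀ k, ψ k ∈ D1 (m + 1)) {F : Homeo (m + 1)}
    (hF1 : ∀ k x, ‖x - (4 * (2 ^ k : ℕ) : ℝ) • e0 m‖ ≤ 1 →
        F x = cj ((4 * (2 ^ k : ℕ) : ℝ) • e0 m) (ψ k) x)
    (hF2 : ∀ x, (∀ k, 1 < ‖x - (4 * (2 ^ k : ℕ) : ℝ) • e0 m‖) → F x = x) {i j : ℕ} (hij : i ≠ j) :
    let A : ℕ → Homeo (m + 1) := fun k =>
      (tl ((4 * (2 ^ k : ℕ) : ℝ) • e0 m))⁻¹ * F * tl ((4 * (2 ^ k : ℕ) : ℝ) • e0 m)
    A j * A i * (A j)⁻¹ * (A i)⁻¹ = ψ j * ψ i * (ψ j)⁻¹ * (ψ i)⁻¹ := by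
  intro A
  set c : ℕ → (Fin (m + 1) → ℝ) := fun k => (4 * (2 ^ k : ℕ) : ℝ) • e0 m with hc
  have hA : ∀ k x, A k x = F (x + c k) - c k := by
    intro k x
    show ((tl (c k))⁻¹ * F * tl (c k)) x = _
    rw [Homeomorph.mul_apply, Homeomorph.mul_apply, tl_inv_apply, tl_apply]
  have hA1 : ∀ k x, ‖x‖ ≤ 1 → A k x = ψ k x := by
    intro k x hx
    have h1 : ‖x + c k - c k‖ ≤ 1 := by simpa using hx
    rw [hA, hF1 k _ h1, cj_apply]
    simp [hc]
  have hA2 : ∀ k x, 1 < ‖x‖ → (∀ l, l ≠ k → 1 < ‖x - (c l - c k)‖) → A k x = x := by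
    intro k x hx h
    rw [hA, hF2, add_sub_cancel_right]
    intro l
    by_cases hl : l = k
    · subst hl
      show 1 < ‖x + c l - c l‖
      simpa using hx
    · have := h l hl
      have e : x + c k - c l = x - (c l - c k) := by abel
      show 1 < ‖x + c k - c l‖
      rw [e]; exact this
  -- the remainder
  set B : ℕ → Homeo (m + 1) := fun k => (ψ k)⁻¹ * A k with hB
  have hAB : ∀ k, A k = ψ k * B k := by
    intro k; rw [hB]; simp
  have hB1 : ∀ k x, ‖x‖ ≤ 1 → B k x = x := by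
    intro k x hx
    show ((ψ k)⁻¹ * A k) x = x
    rw [Homeomorph.mul_apply, hA1 k x hx]
    exact (ψ k).symm_apply_apply x
  have hψ1 : ∀ k x, 1 < ‖x‖ → ψ k x = x := fun k => (hψ k).2
  have hψ1' : ∀ k x, 1 < ‖x‖ → (ψ k)⁻¹ x = x := by
    intro k x hx
    show (ψ k).symm x = x
    rw [Homeomorph.symm_apply_eq]
    exact (hψ1 k x hx).symm
  have hB2 : ∀ k x, B k x = x ∨ ∃ l, l ≠ k ∧ ‖x - (c l - c k)‖ ≤ 1 := by
    intro k x
    by_cases hx : ‖x‖ ≤ 1
    · exact Or.inl (hB1 k x hx)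
    · push Not at hx
      by_cases h : ∀ l, l ≠ k → 1 < ‖x - (c l - c k)‖
      · left
        show ((ψ k)⁻¹ * A k) x = x
        rw [Homeomorph.mul_apply, hA2 k x hx h, hψ1' k x hx]
      · push Not at h
        obtain ⟨l, hl, hl'⟩ := h
        exact Or.inr ⟨l, hl, hl'⟩
  have hψB : ∀ a b, ψ a * B b = B b * ψ a := by
    intro a b
    refine commute_of_disjoint fun x => ?_
    by_cases hx : ‖x‖ ≤ 1
    · exact Or.inr (hB1 b x hx)
    · push Not at hx
      exact Or.inl (hψ1 a x hx)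
  have hBB : B j * B i = B i * B j := by
    refine commute_of_disjoint fun x => ?_
    by_contra hcon
    push Not at hcon
    obtain ⟨h1, h2⟩ := hcon
    obtain ⟨k, hk, hk'⟩ := (hB2 j x).resolve_left h1
    obtain ⟨l, hl, hl'⟩ := (hB2 i x).resolve_left h2
    have h3 : ‖(c k - c j) - (c l - c i)‖ ≤ 2 := by
      calc ‖(c k - c j) - (c l - c i)‖ = ‖(x - (c l - c i)) - (x - (c k - c j))‖ := by
            congr 1; abel
        _ ≤ ‖x - (c l - c i)‖ + ‖x - (c k - c j)‖ := norm_sub_le _ _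
        _ ≤ 2 := by linarith
    have h4 : (c k - c j) - (c l - c i) =
        (4 * (((2 ^ k : ℕ) : ℝ) + ((2 ^ i : ℕ) : ℝ) - ((2 ^ l : ℕ) : ℝ) - ((2 ^ j : ℕ) : ℝ))) • e0 m := by
      simp only [hc]
      rw [← sub_smul, ← sub_smul, ← sub_smul]
      congr 1
      ring
    rw [h4, norm_smul_e0, abs_mul] at h3
    have h5 : |((2 ^ k : ℕ) : ℝ) + ((2 ^ i : ℕ) : ℝ) - ((2 ^ l : ℕ) : ℝ) - ((2 ^ j : ℕ) : ℝ)| < 1 := by
      have : |(4:ℝ)| = 4 := by norm_num
      rw [this] at h3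
      linarith
    have h6 : ((2 ^ k : ℕ) : ℤ) + ((2 ^ i : ℕ) : ℤ) - ((2 ^ l : ℕ) : ℤ) - ((2 ^ j : ℕ) : ℤ) = 0 := by
      have : |((2 ^ k : ℕ) : ℤ) + ((2 ^ i : ℕ) : ℤ) - ((2 ^ l : ℕ) : ℤ) - ((2 ^ j : ℕ) : ℤ)| < 1 := by
        exact_mod_cast h5
      exact Int.abs_lt_one_iff.1 this
    have h7 : 2 ^ k + 2 ^ i = 2 ^ l + 2 ^ j := by
      zify
      push_cast at h6
      linarith
    rcases pow_sidon h7 with h8 | h8
    · exact hij h8.2
    · exact hk h8.1
  rw [hAB j, hAB i]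
  exact comm_eq (hψB j j) (hψB i i) hBB (hψB j i) (hψB i j)

end Galvin

end Pool.Agent.CoordMaps
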