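import Pool.Agent.CoordMaps.Gen4

namespace Pool.Agent.CoordMaps

open Set Metric Topology NNReal

/-- diagonal linear homeomorphism -/
noncomputable def dg {n : ℕ} (d : Fin n → ℝ) (hd : ∀ i, d i ≠ 0) : Homeo n where
  toFun x i := d i * x i
  invFun x i := (d i)⁻¹ * x i
  left_inv x := by ext i; simp [hd i]
  right_inv x := by ext i; simp [hd i]
  continuous_toFun := by fun_prop
  continuous_invFun := by fun_prop

lemma dg_apply {n : ℕ} (d : Fin n → ℝ) (hd : ∀ i, d i ≠ 0) (x : Fin n → ℝ) (i : Fin n) :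
    dg d hd x i = d i * x i := rfl

lemma dg_inv_apply {n : ℕ} (d : Fin n → ℝ) (hd : ∀ i, d i ≠ 0) (x : Fin n → ℝ) (i : Fin n) :
    (dg d hd)⁻¹ x i = (d i)⁻¹ * x i := rfl

lemma dg_sm {n : ℕ} (d : Fin n → ℝ) (hd : ∀ i, d i ≠ 0) : Sm (dg d hd) := by
  constructor
  · rw [contDiff_pi]
    intro i
    exact contDiff_const.mul (contDiff_apply ℝ ℝ i)
  · rw [contDiff_pi]
    intro i
    show ContDiff ℝ _ fun x : Fin n → ℝ => (d i)⁻¹ * x i
    exact contDiff_const.mul (contDiff_apply ℝ ℝ i)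

lemma Sm.pow {n : ℕ} {g : Homeo n} (hg : Sm g) (k : ℕ) : Sm (g ^ k) := by
  induction k with
  | zero => rw [pow_zero]; exact Sm.one
  | succ k ih => rw [pow_succ]; exact ih.mul hg

section Main

variable {m : ℕ}

/-- the expanding map: dilation by two composed with a reflection -/
noncomputable def Ex (m : ℕ) : Homeo (m + 1) :=
  dg (fun i => if i = 0 then -2 else 2) (fun i => by split_ifs <;> norm_num)

lemma ex_norm (x : Fin (m + 1) → ℝ) : 2 * ‖x‖ ≤ ‖Ex m x‖ := by
  have : 2 * ‖x‖ = ‖(2:ℝ) • x‖ := by rw [norm_smul]; norm_num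
  rw [this, pi_norm_le_iff_of_nonneg (norm_nonneg _)]
  intro i
  refine le_trans ?_ (norm_le_pi_norm (Ex m x) i)
  rw [Ex, dg_apply, Pi.smul_apply, smul_eq_mul, norm_mul, norm_mul]
  apply le_of_eq
  congr 1
  split_ifs <;> norm_num

lemma ex_pow_norm (k : ℕ) (x : Fin (m + 1) → ℝ) : 2 ^ k * ‖x‖ ≤ ‖(Ex m ^ k) x‖ := by
  induction k generalizing x with
  | zero => simp
  | succ k ih =>
    rw [pow_succ (Ex m), Homeomorph.mul_apply]
    have h1 := ih (Ex m x)
    have h2 := ex_norm x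
    calc (2:ℝ) ^ (k + 1) * ‖x‖ = 2 ^ k * (2 * ‖x‖) := by ring
      _ ≤ 2 ^ k * ‖Ex m x‖ := by gcongr
      _ ≤ _ := h1

lemma shrink {φ : Homeo (m + 1)} (hs : Sm φ) {R : ℝ} (hφ : ∀ x, R < ‖x‖ → φ x = x) {k : ℕ}
    (hk : R ≤ 2 ^ k) : (Ex m ^ k)⁻¹ * φ * Ex m ^ k ∈ D1 (m + 1) := by
  have hE : Sm (Ex m) := dg_sm _ _
  refine ⟨((hE.pow k).inv.mul hs).mul (hE.pow k), fun x hx => ?_⟩
  have h1 : R < ‖(Ex m ^ k) x‖ := by
    refine lt_of_le_of_lt hk (lt_of_lt_of_le ?_ (ex_pow_norm k x))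
    have : (0:ℝ) < 2 ^ k := by positivity
    nlinarith
  rw [Homeomorph.mul_apply, Homeomorph.mul_apply, hφ _ h1]
  exact (Ex m ^ k).symm_apply_apply x

lemma exists_pow (R R' : ℝ) : ∃ k : ℕ, R ≤ 2 ^ k ∧ R' ≤ 2 ^ k := by
  obtain ⟨k, hk⟩ := pow_unbounded_of_one_lt (max R R') (one_lt_two (α := ℝ))
  exact ⟨k, (le_max_left _ _).trans hk.le, (le_max_right _ _).trans hk.le⟩

/-- the translation generator -/
noncomputable def Tr (m : ℕ) : Homeo (m + 1) := tl ((4:ℝ) • e0 m)

lemma tr_pow (k : ℕ) : Tr m ^ k = tl ((4 * (k : ℕ) : ℝ) • e0 m) := by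
  rw [Tr, tl_pow]
  congr 1
  rw [← Nat.cast_smul_eq_nsmul ℝ, smul_smul, mul_comm]

/-- the swindle -/
lemma swindle {φ : Homeo (m + 1)} (hφ : φ ∈ D1 (m + 1)) :
    ∃ Φ ∈ cl (DcSub (m + 1)), φ = Φ * Tr m * Φ⁻¹ * (Tr m)⁻¹ := by
  classical
  set c : ℕ → (Fin (m + 1) → ℝ) := fun k => (4 * k : ℝ) • e0 m with hc
  have hsep : ∀ j k, j ≠ k → (1:ℝ) + 1 + 1 ≤ ‖c j - c k‖ := fun j k h => cen_sep h
  have hcn : ∀ k, ‖c k‖ = 4 * k := by
    intro k
    rw [hc]
    show ‖(4 * k : ℝ) • e0 m‖ = 4 * k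
    rw [norm_smul_e0, abs_of_nonneg (by positivity)]
  have hφ1 : ∀ x, 1 < ‖x‖ → φ x = x := hφ.2
  obtain ⟨Φ, hΦs, hΦ1, hΦ2⟩ := exists_glue (c := c) (r := fun _ => (1:ℝ)) hsep
    (fun k => cj (c k) φ) (fun k => cj_sm _ hφ.1) fun k x hx => cj_supp _ hφ1 x hx
  refine ⟨Φ, ?_, ?_⟩
  · -- approximation by finite products
    intro R ε hε
    obtain ⟨N, hN⟩ := exists_nat_gt R
    obtain ⟨Φ', hs, h1, h2⟩ := exists_glue (c := c) (r := fun _ => (1:ℝ)) hsep
      (fun k => if k ≤ N then cj (c k) φ else 1) (fun k => by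
        split_ifs
        · exact cj_sm _ hφ.1
        · exact Sm.one) fun k x hx => by
        split_ifs
        · exact cj_supp _ hφ1 x hx
        · rfl
    refine ⟨Φ', ⟨hs, 4 * N + 1, fun x hx => ?_⟩, fun p hp => ?_⟩
    · by_cases h : ∃ k, ‖x - c k‖ ≤ 1
      · obtain ⟨k, hk⟩ := h
        have hkN : ¬ k ≤ N := by
          intro hkN
          have h3 : ‖x‖ ≤ ‖x - c k‖ + ‖c k‖ := by
            calc ‖x‖ = ‖(x - c k) + c k‖ := by simp
              _ ≤ _ := norm_add_le _ _
          rw [hcn] at h3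
          have h4 : (k : ℝ) ≤ N := by exact_mod_cast hkN
          linarith
        rw [h1 k x hk, if_neg hkN]
        rfl
      · push Not at h
        exact h2 x h
    · have : Φ' p = Φ p := by
        by_cases h : ∃ k, ‖p - c k‖ ≤ 1
        · obtain ⟨k, hk⟩ := h
          have hkN : k ≤ N := by
            rw [mem_closedBall_zero_iff] at hp
            have h3 : ‖c k‖ ≤ ‖p‖ + ‖p - c k‖ := by
              calc ‖c k‖ = ‖p - (p - c k)‖ := by simp
                _ ≤ _ := norm_sub_le _ _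
            rw [hcn] at h3
            by_contra h4
            push Not at h4
            have h5 : (N : ℝ) + 1 ≤ k := by exact_mod_cast h4
            have h6 : (0:ℝ) ≤ N := Nat.cast_nonneg N
            linarith
          rw [h1 k p hk, if_pos hkN, hΦ1 k p hk]
        · push Not at h
          rw [h2 p h, hΦ2 p h]
      rw [this, sub_self, norm_zero]
      exact hε
  · -- the identity
    have key : Φ = φ * (Tr m * Φ * (Tr m)⁻¹) := by
      refine Homeomorph.ext fun x => ?_
      have hT : ∀ y, Tr m y = y + (4:ℝ) • e0 m := fun y => rfl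
      have hT' : ∀ y, (Tr m)⁻¹ y = y - (4:ℝ) • e0 m := fun y => tl_inv_apply _ _
      rw [Homeomorph.mul_apply, Homeomorph.mul_apply, Homeomorph.mul_apply, hT, hT']
      have hcs : ∀ k, c (k + 1) = c k + (4:ℝ) • e0 m := by
        intro k
        simp only [hc]
        rw [← add_smul]
        congr 1
        push_cast
        ring
      have hc0 : c 0 = 0 := by simp [hc]
      by_cases h0 : ‖x‖ ≤ 1
      · -- base ball
        have h1 : Φ (x - (4:ℝ) • e0 m) = x - (4:ℝ) • e0 m := by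
          refine hΦ2 _ fun k => ?_
          have e : x - (4:ℝ) • e0 m - c k = x - c (k + 1) := by rw [hcs]; abel
          rw [e]
          have h2 : ‖c (k + 1)‖ ≤ ‖x‖ + ‖x - c (k + 1)‖ := by
            calc ‖c (k + 1)‖ = ‖x - (x - c (k + 1))‖ := by simp
              _ ≤ _ := norm_sub_le _ _
          rw [hcn] at h2
          push_cast at h2
          have h3 : (0:ℝ) ≤ k := Nat.cast_nonneg k
          linarith
        rw [h1, sub_add_cancel]
        have := hΦ1 0 x (by rw [hc0, sub_zero]; exact h0)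
        rw [this, cj_apply, hc0]
        simp
      · push Not at h0
        by_cases h : ∃ k, ‖x - c k‖ ≤ 1
        · obtain ⟨k, hk⟩ := h
          rcases k with _ | k
          · rw [hc0, sub_zero] at hk
            linarith
          · have e : x - (4:ℝ) • e0 m - c k = x - c (k + 1) := by rw [hcs]; abel
            have h1 := hΦ1 k (x - (4:ℝ) • e0 m) (by rw [e]; exact hk)
            have h2 := hΦ1 (k + 1) x hk
            rw [h1, h2, cj_apply, cj_apply, e]
            have e2 : φ (x - c (k + 1)) + c k + (4:ℝ) • e0 m = φ (x - c (k + 1)) + c (k + 1) := by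
              rw [hcs]; abel
            rw [e2]
            symm
            apply hφ1
            -- norm is large
            have h3 : ‖φ (x - c (k + 1))‖ ≤ 1 := by
              have := supp_ball (g := φ) (a := 0) (ρ := 1) (fun y hy => hφ1 y (by simpa using hy))
                (x := x - c (k + 1)) (by simpa using hk)
              simpa using this
            have h4 : ‖c (k + 1)‖ ≤ ‖φ (x - c (k + 1)) + c (k + 1)‖ + ‖φ (x - c (k + 1))‖ := by
              calc ‖c (k + 1)‖ = ‖(φ (x - c (k + 1)) + c (k + 1)) - φ (x - c (k + 1))‖ := by simp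
                _ ≤ _ := norm_sub_le _ _
            rw [hcn] at h4
            push_cast at h4
            have h5 : (0:ℝ) ≤ k := Nat.cast_nonneg k
            linarith
        · push Not at h
          have h1 : Φ (x - (4:ℝ) • e0 m) = x - (4:ℝ) • e0 m := by
            refine hΦ2 _ fun k => ?_
            have e : x - (4:ℝ) • e0 m - c k = x - c (k + 1) := by rw [hcs]; abel
            rw [e]
            exact h (k + 1)
          rw [h1, sub_add_cancel, hΦ2 x h, hφ1 x h0]
    have key2 : Φ * Tr m * Φ⁻¹ * (Tr m)⁻¹ = Φ * (Tr m * Φ * (Tr m)⁻¹)⁻¹ := by group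
    rw [key2]
    exact eq_mul_inv_of_mul_eq key.symm

/-- the three generators -/
noncomputable def gens (F : Homeo (m + 1)) : Set (Homeo (m + 1)) := {Ex m, Tr m, F}

/-- shear -/
noncomputable def shr {n : ℕ} (i j : Fin n) (hij : i ≠ j) (t : ℝ) : Homeo n where
  toFun x := Function.update x i (x i + t * x j)
  invFun x := Function.update x i (x i - t * x j)
  left_inv x := by
    ext k
    by_cases hk : k = i
    · subst hk; simp [hij.symm]
    · simp [hk]
  right_inv x := by
    ext k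
    by_cases hk : k = i
    · subst hk; simp [hij.symm]
    · simp [hk]
  continuous_toFun := by fun_prop
  continuous_invFun := by fun_prop

lemma shr_apply {n : ℕ} (i j : Fin n) (hij : i ≠ j) (t : ℝ) (x : Fin n → ℝ) :
    shr i j hij t x = Function.update x i (x i + t * x j) := rfl

lemma shr_mem {n : ℕ} (i j : Fin n) (hij : i ≠ j) (t : ℝ) : shr i j hij t ∈ cl (DcSub n) := by
  refine inc_mem (i := i) (fun x k hk => ?_) fun x s t' hst => ?_
  · rw [shr_apply, Function.update_of_ne hk]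
  · rw [shr_apply, shr_apply]
    simp [hij.symm, hst]

/-- reflection in coordinate `i` -/
noncomputable def rf {n : ℕ} (i : Fin n) : Homeo n :=
  dg (fun j => if j = i then -1 else 1) (fun j => by split_ifs <;> norm_num)

lemma rf_rf {n : ℕ} (i j : Fin n) (hij : i ≠ j) : rf i * rf j ∈ cl (DcSub n) := by
  set S : Homeo n := shr i j hij (-1) * shr j i hij.symm 1 * shr i j hij (-1) with hS
  have hSm : S ∈ cl (DcSub n) :=
    (cl (DcSub n)).mul_mem ((cl (DcSub n)).mul_mem (shr_mem _ _ _ _) (shr_mem _ _ _ _))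
      (shr_mem _ _ _ _)
  have hSx : ∀ x k, S x k = if k = i then - x j else if k = j then x i else x k := by
    intro x k
    rw [hS, Homeomorph.mul_apply, Homeomorph.mul_apply, shr_apply, shr_apply, shr_apply]
    by_cases hki : k = i
    · subst hki
      simp [hij, hij.symm]
    · by_cases hkj : k = j
      · subst hkj
        simp [hij, hij.symm]
      · simp [hki, hkj]
  have : rf i * rf j = S * S := by
    refine Homeomorph.ext fun x => ?_
    ext k
    rw [Homeomorph.mul_apply, Homeomorph.mul_apply, hSx, hSx, hSx, rf, rf, dg_apply, dg_apply, hSx]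
    by_cases hki : k = i
    · subst hki
      simp [hij, hij.symm]
    · by_cases hkj : k = j
      · subst hkj
        simp [hij, hij.symm]
      · simp [hki, hkj]
  rw [this]
  exact (cl (DcSub n)).mul_mem hSm hSm

lemma dg_pos_mem {n : ℕ} (s : Finset (Fin n)) :
    dg (fun j => if j ∈ s then (2:ℝ) else 1) (fun j => by split_ifs <;> norm_num) ∈ cl (DcSub n) := by
  classical
  induction s using Finset.induction_on with
  | empty =>
    have : dg (fun j : Fin n => if j ∈ (∅ : Finset (Fin n)) then (2:ℝ) else 1)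
        (fun j => by split_ifs <;> norm_num) = 1 := by
      refine Homeomorph.ext fun x => ?_
      ext k
      rw [dg_apply]
      simp
    rw [this]
    exact (cl (DcSub n)).one_mem
  | insert i s hi ih =>
    have h1 : dg (fun j : Fin n => if j = i then (2:ℝ) else 1) (fun j => by split_ifs <;> norm_num)
        ∈ cl (DcSub n) := by
      refine inc_mem (i := i) (fun x k hk => ?_) fun x s t' hst => ?_
      · rw [dg_apply, if_neg hk, one_mul]
      · rw [dg_apply, dg_apply]
        simp [hst]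
    have h2 : dg (fun j : Fin n => if j ∈ insert i s then (2:ℝ) else 1)
        (fun j => by split_ifs <;> norm_num) =
        dg (fun j : Fin n => if j = i then (2:ℝ) else 1) (fun j => by split_ifs <;> norm_num) *
        dg (fun j : Fin n => if j ∈ s then (2:ℝ) else 1) (fun j => by split_ifs <;> norm_num) := by
      refine Homeomorph.ext fun x => ?_
      ext k
      rw [Homeomorph.mul_apply, dg_apply, dg_apply, dg_apply]
      by_cases hk : k = i
      · subst hk
        simp [hi]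
      · simp [hk]
    rw [h2]
    exact (cl (DcSub n)).mul_mem h1 ih

/-- for a suitable third generator the closure of the group contains all type A maps -/
theorem exists_gen (m : ℕ) : ∃ F : Homeo (m + 1), Sm F ∧
    GA (m + 1) ≤ cl (Subgroup.closure {Ex m, Tr m, F}) := by
  classical
  obtain ⟨ψ, hψ, hdense⟩ := exists_dense_D1 (m + 1)
  obtain ⟨F, hFs, hF1, hF2⟩ := exists_F (m := m) (fun k => ψ (Nat.unpair k).1) (fun k => hψ _)
  refine ⟨F, hFs, ?_⟩
  set G : Subgroup (Homeo (m + 1)) := Subgroup.closure {Ex m, Tr m, F} with hG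
  have hE : Ex m ∈ G := Subgroup.subset_closure (by simp)
  have hT : Tr m ∈ G := Subgroup.subset_closure (by simp)
  have hF : F ∈ G := Subgroup.subset_closure (by simp)
  have hle := le_cl G
  -- commutators of the dense family
  have c1 : ∀ a b, ψ a * ψ b * (ψ a)⁻¹ * (ψ b)⁻¹ ∈ G := by
    intro a b
    have hij : Nat.pair b 1 ≠ Nat.pair a 0 := by
      intro h
      have := congrArg Nat.unpair h
      rw [Nat.unpair_pair, Nat.unpair_pair] at this
      simp at this
    have h1 := galvin_comm (m := m) (ψ := fun k => ψ (Nat.unpair k).1) (fun k => hψ _) hF1 hF2 hij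
    simp only [Nat.unpair_pair] at h1
    rw [← h1]
    have h2 : ∀ k : ℕ, tl ((4 * (2 ^ k : ℕ) : ℝ) • e0 m) ∈ G := by
      intro k
      rw [← tr_pow]
      exact G.pow_mem hT _
    have h3 : ∀ k : ℕ, (tl ((4 * (2 ^ k : ℕ) : ℝ) • e0 m))⁻¹ * F * tl ((4 * (2 ^ k : ℕ) : ℝ) • e0 m)
        ∈ G := fun k => G.mul_mem (G.mul_mem (G.inv_mem (h2 k)) hF) (h2 k)
    exact G.mul_mem (G.mul_mem (G.mul_mem (h3 _) (h3 _)) (G.inv_mem (h3 _))) (G.inv_mem (h3 _))
  have c2 : ∀ φ ∈ D1 (m + 1), ∀ χ ∈ D1 (m + 1), φ * χ * φ⁻¹ * χ⁻¹ ∈ cl G := by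
    intro φ hφ χ hχ
    refine comm_mem (A := range ψ) (B := range ψ) ?_ ?_ ?_
    · rintro _ ⟨a, rfl⟩ _ ⟨b, rfl⟩
      exact hle (c1 a b)
    · intro R ε hε
      obtain ⟨k, hk⟩ := hdense φ hφ R ε hε
      exact ⟨_, mem_range_self k, hk⟩
    · intro R ε hε
      obtain ⟨k, hk⟩ := hdense χ hχ R ε hε
      exact ⟨_, mem_range_self k, hk⟩
  have c3 : ∀ φ ∈ DcSub (m + 1), ∀ χ ∈ DcSub (m + 1), φ * χ * φ⁻¹ * χ⁻¹ ∈ cl G := by
    rintro φ ⟨hφ, R, hφR⟩ χ ⟨hχ, R', hχR⟩
    obtain ⟨k, hk, hk'⟩ := exists_pow R R'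
    have h1 := c2 _ (shrink hφ hφR hk) _ (shrink hχ hχR hk')
    have hEk : Ex m ^ k ∈ cl G := hle (G.pow_mem hE k)
    have h2 := (cl G).mul_mem ((cl G).mul_mem hEk h1) ((cl G).inv_mem hEk)
    have h3 : Ex m ^ k * ((Ex m ^ k)⁻¹ * φ * Ex m ^ k * ((Ex m ^ k)⁻¹ * χ * Ex m ^ k) *
        ((Ex m ^ k)⁻¹ * φ * Ex m ^ k)⁻¹ * ((Ex m ^ k)⁻¹ * χ * Ex m ^ k)⁻¹) * (Ex m ^ k)⁻¹ =
        φ * χ * φ⁻¹ * χ⁻¹ := by group
    rwa [h3] at h2
  have c4 : ∀ φ ∈ cl (DcSub (m + 1)), ∀ χ ∈ cl (DcSub (m + 1)), φ * χ * φ⁻¹ * χ⁻¹ ∈ cl G := by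
    intro φ hφ χ hχ
    exact comm_mem (A := DcSub (m + 1)) (B := DcSub (m + 1)) (fun a ha b hb => c3 a ha b hb)
      (fun R ε hε => hφ R ε hε) (fun R ε hε => hχ R ε hε)
  have hTc : Tr m ∈ cl (DcSub (m + 1)) := by
    refine inc_mem (i := 0) (fun x j hj => ?_) fun x s t hst => ?_
    · show (x + (4:ℝ) • e0 m) j = x j
      simp [e0, hj]
    · show (Function.update x 0 s + (4:ℝ) • e0 m) 0 < (Function.update x 0 t + (4:ℝ) • e0 m) 0
      simp [hst]
  have c5 : ∀ φ ∈ D1 (m + 1), φ ∈ cl G := by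
    intro φ hφ
    obtain ⟨Φ, hΦ, hΦe⟩ := swindle hφ
    rw [hΦe]
    exact c4 Φ hΦ _ hTc
  have c6 : DcSub (m + 1) ≤ cl G := by
    rintro φ ⟨hφ, R, hφR⟩
    obtain ⟨k, hk, -⟩ := exists_pow R R
    have h1 := c5 _ (shrink hφ hφR hk)
    have hEk : Ex m ^ k ∈ cl G := hle (G.pow_mem hE k)
    have h2 := (cl G).mul_mem ((cl G).mul_mem hEk h1) ((cl G).inv_mem hEk)
    have h3 : Ex m ^ k * ((Ex m ^ k)⁻¹ * φ * Ex m ^ k) * (Ex m ^ k)⁻¹ = φ := by group
    rwa [h3] at h2
  have c7 : cl (DcSub (m + 1)) ≤ cl G := cl_le_of_le c6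
  -- reflections
  have c8 : rf (0 : Fin (m + 1)) ∈ cl G := by
    have h1 := c7 (dg_pos_mem (Finset.univ : Finset (Fin (m + 1))))
    have h2 : rf (0 : Fin (m + 1)) = Ex m * (dg (fun j : Fin (m + 1) =>
        if j ∈ (Finset.univ : Finset (Fin (m + 1))) then (2:ℝ) else 1)
        (fun j => by split_ifs <;> norm_num))⁻¹ := by
      refine Homeomorph.ext fun x => ?_
      ext k
      rw [Homeomorph.mul_apply, rf, Ex, dg_apply, dg_apply, dg_inv_apply]
      by_cases hk : k = 0
      · subst hk; simp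
      · simp [hk]
    rw [h2]
    exact (cl G).mul_mem (hle hE) ((cl G).inv_mem h1)
  have c9 : ∀ i : Fin (m + 1), rf i ∈ cl G := by
    intro i
    by_cases hi : i = 0
    · rw [hi]; exact c8
    · have h1 := c7 (rf_rf i 0 hi)
      have h2 : rf i = (rf i * rf 0) * (rf 0)⁻¹ := by group
      rw [h2]
      exact (cl G).mul_mem h1 ((cl G).inv_mem c8)
  -- all type A maps
  rw [GA, Subgroup.closure_le]
  rintro g ⟨i, hi⟩
  obtain ⟨σ, hσ, hσm⟩ := typeA_sign hi
  rcases hσ with h | h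
  · subst h
    exact c7 (inc_mem hi fun x s t hst => by simpa using hσm x s t hst)
  · subst h
    have h1 : rf i * g ∈ cl (DcSub (m + 1)) := by
      refine inc_mem (i := i) (fun x j hj => ?_) fun x s t hst => ?_
      · rw [Homeomorph.mul_apply, rf, dg_apply, if_neg hj, one_mul, hi x j hj]
      · rw [Homeomorph.mul_apply, Homeomorph.mul_apply, rf, dg_apply, dg_apply, if_pos rfl]
        exact hσm x s t hst
    have h2 : g = (rf i)⁻¹ * (rf i * g) := by group
    rw [h2]
    exact (cl G).mul_mem ((cl G).inv_mem (c9 i)) (c7 h1)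

end Main

end Pool.Agent.CoordMaps
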