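import Pool.Agent.CoordMaps.Gen5

namespace Pool.Agent.CoordMaps

open Set Metric Topology NNReal Filter

/-- the compact-open topology on the homeomorphism group of `ℝⁿ`: `h_k → h` if and only if
`h_k → h` and `h_k⁻¹ → h⁻¹` in the compact-open topology of `C(ℝⁿ, ℝⁿ)`, that is uniformly on
compact sets. -/
instance homeoTopology (n : ℕ) : TopologicalSpace (Homeo n) :=
  TopologicalSpace.induced
    (fun h : Homeo n => ((⟨h, h.continuous⟩, ⟨h.symm, h.symm.continuous⟩) :
      C(Fin n → ℝ, Fin n → ℝ) × C(Fin n → ℝ, Fin n → ℝ))) inferInstance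

lemma tendsto_of_near {n : ℕ} {u : ℕ → Homeo n} {h : Homeo n}
    (h1 : ∀ R ε : ℝ, 0 < ε → ∀ᶠ k in atTop, Near R ε (u k) h)
    (h2 : ∀ R ε : ℝ, 0 < ε → ∀ᶠ k in atTop, Near R ε (u k)⁻¹ h⁻¹) :
    Tendsto u atTop (𝓝 h) := by
  have aux : ∀ (v : ℕ → Homeo n) (g : Homeo n), (∀ R ε : ℝ, 0 < ε → ∀ᶠ k in atTop, Near R ε (v k) g)
      → Tendsto (fun k => (⟨v k, (v k).continuous⟩ : C(Fin n → ℝ, Fin n → ℝ))) atTop
        (𝓝 ⟨g, g.continuous⟩) := by
    intro v g H
    rw [ContinuousMap.tendsto_iff_forall_isCompact_tendstoUniformlyOn]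
    intro K hK
    rw [Metric.tendstoUniformlyOn_iff]
    intro ε hε
    obtain ⟨R, hR⟩ := hK.isBounded.subset_closedBall 0
    filter_upwards [H R ε hε] with k hk x hx
    rw [dist_comm, dist_eq_norm]
    exact hk x (hR hx)
  rw [nhds_induced, tendsto_comap_iff]
  exact (aux u h h1).prodMk_nhds (aux (fun k => (u k)⁻¹) h⁻¹ h2)

lemma mem_closure_iff_near {n : ℕ} (S : Set (Homeo n)) (h : Homeo n) : h ∈ closure S ↔
    ∀ R ε : ℝ, 0 < ε → ∃ g ∈ S, Near R ε g h := by
  constructor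
  · intro H R ε hε
    rw [_root_.mem_closure_iff] at H
    let ι : Homeo n → C(Fin n → ℝ, Fin n → ℝ) := fun g => ⟨g, g.continuous⟩
    have hι : Continuous ι := by
      have : Continuous fun h : Homeo n => ((⟨h, h.continuous⟩, ⟨h.symm, h.symm.continuous⟩) :
        C(Fin n → ℝ, Fin n → ℝ) × C(Fin n → ℝ, Fin n → ℝ)) := continuous_induced_dom
      exact continuous_fst.comp this
    have hopen : IsOpen {f : C(Fin n → ℝ, Fin n → ℝ) |
        MapsTo (f - ι h) (closedBall (0 : Fin n → ℝ) R) (ball 0 ε)} := by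
      have h1 := ContinuousMap.isOpen_setOfPred_mapsTo (X := Fin n → ℝ) (Y := Fin n → ℝ)
        (isCompact_closedBall (0 : Fin n → ℝ) R) (isOpen_ball (x := (0 : Fin n → ℝ)) (ε := ε))
      exact h1.preimage (f := fun f : C(Fin n → ℝ, Fin n → ℝ) => f - ι h)
        (continuous_id.sub continuous_const)
    obtain ⟨g, hg, hgS⟩ := H _ (hopen.preimage hι) (fun p _ => by
      show (h p - h p : Fin n → ℝ) ∈ ball 0 ε
      rw [sub_self]; exact mem_ball_self hε)
    refine ⟨g, hgS, fun p hp => ?_⟩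
    have := hg hp
    rw [mem_ball_zero_iff] at this
    exact this
  · intro H
    have h3 : ∀ k : ℕ, ∃ g ∈ S, Near (k : ℝ) (1 / ((k : ℝ) + 1)) g h := fun k =>
      H k _ (by positivity)
    choose u hu hun using h3
    have key : ∀ R ε : ℝ, 0 < ε → ∀ᶠ k in atTop, Near R ε (u k) h := by
      intro R ε hε
      obtain ⟨N, hN⟩ := exists_nat_gt (max R (1 / ε))
      filter_upwards [eventually_ge_atTop N] with k hk
      have hk' : (N : ℝ) ≤ k := by exact_mod_cast hk
      refine (hun k).mono ((le_max_left _ _).trans (hN.le.trans hk')) ?_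
      have h4 : 1 / ε < (k : ℝ) + 1 := lt_of_le_of_lt (le_max_right _ _) (by linarith)
      rw [div_lt_iff₀ hε] at h4
      rw [div_le_iff₀ (by positivity)]
      linarith
    refine mem_closure_of_tendsto (tendsto_of_near key fun R ε hε => ?_) (Eventually.of_forall hu)
    obtain ⟨R', δ, hδ, hinv⟩ := near_inv h R hε
    filter_upwards [key R' δ hδ] with k hk
    exact hinv _ hk

lemma mem_closure_iff_approxBy {n : ℕ} (S : Set (Homeo n)) (h : Homeo n) :
    h ∈ closure S ↔ ApproxBy S h := by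
  rw [mem_closure_iff_near, approxBy_iff]
  rfl

lemma typeA_one (h : Homeo 1) : h ∈ TypeA 1 :=
  ⟨0, fun _ j hj => absurd (Subsingleton.elim j 0) hj⟩

end Pool.Agent.CoordMaps
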