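import Pool.Agent.CoordMaps.Converse

namespace Pool.Agent.CoordMaps

open Set Metric Topology

/-- a strongly monotone function in the `i`-th coordinate gives a homeomorphism. -/
lemma exists_homeo_of_strong {n : ℕ} (i : Fin n) (ψ : (Fin n → ℝ) → ℝ) (hψ : Continuous ψ)
    (σ : ℝ) (hσ : σ = 1 ∨ σ = -1) {η : ℝ} (hη : 0 < η)
    (hmono : ∀ x s t, s ≤ t → η * (t - s) ≤
        σ * ψ (Function.update x i t) - σ * ψ (Function.update x i s)) :
    ∃ g : Homeo n, ∀ x, g x = Function.update x i (ψ x) := by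
  classical
  have hσ0 : σ ≠ 0 := by rcases hσ with h | h <;> rw [h] <;> norm_num
  have hσa : |σ| = 1 := by rcases hσ with h | h <;> rw [h] <;> simp
  set G : (Fin n → ℝ) → (Fin n → ℝ) := fun x => Function.update x i (ψ x) with hG
  have hGc : Continuous G := continuous_id.update i hψ
  have habs : ∀ x s t, η * |t - s| ≤ |ψ (Function.update x i t) - ψ (Function.update x i s)| := by
    intro x s t
    have key : ∀ s t, s ≤ t → η * |t - s| ≤
        |ψ (Function.update x i t) - ψ (Function.update x i s)| := by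
      intro s t hst
      rw [abs_of_nonneg (by linarith : 0 ≤ t - s)]
      refine (hmono x s t hst).trans ?_
      calc _ = σ * (ψ (Function.update x i t) - ψ (Function.update x i s)) := by ring
        _ ≤ |σ * (ψ (Function.update x i t) - ψ (Function.update x i s))| := le_abs_self _
        _ = _ := by rw [abs_mul, hσa, one_mul]
    rcases le_total s t with h | h
    · exact key s t h
    · rw [abs_sub_comm, abs_sub_comm (ψ _)]
      exact key t s h
  have hinj : Function.Injective G := by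
    intro x x' h
    have h1 : ∀ j, j ≠ i → x j = x' j := by
      intro j hj
      have := congrFun h j
      simpa [hG, hj] using this
    have h2 : ψ x = ψ x' := by
      have := congrFun h i
      simpa [hG] using this
    have hx : Function.update x i (x i) = x := by simp
    have hx' : Function.update x i (x' i) = x' := by
      ext j
      by_cases hj : j = i
      · subst hj; simp
      · simp [hj, h1 j hj]
    have h3 := habs x (x i) (x' i)
    rw [hx, hx', h2, sub_self, abs_zero] at h3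
    have h4 : |x' i - x i| ≤ 0 := by
      by_contra hc
      push Not at hc
      have := mul_pos hη hc
      linarith
    have h5 : x' i = x i := by
      have := abs_nonpos_iff.1 h4
      linarith
    rw [← hx', h5, hx]
  have hsurj : Function.Surjective G := by
    intro y
    have hcont : Continuous fun t : ℝ => σ * ψ (Function.update y i t) :=
      continuous_const.mul (hψ.comp (continuous_const.update i continuous_id))
    have htop : Filter.Tendsto (fun t : ℝ => σ * ψ (Function.update y i t)) Filter.atTop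
        Filter.atTop := by
      have h1 : Filter.Tendsto (fun t : ℝ => η * t + σ * ψ (Function.update y i 0)) Filter.atTop
          Filter.atTop :=
        Filter.tendsto_atTop_add_const_right _ _ (Filter.tendsto_id.const_mul_atTop hη)
      refine Filter.tendsto_atTop_mono' _ ?_ h1
      filter_upwards [Filter.eventually_ge_atTop (0:ℝ)] with t ht
      have := hmono y 0 t ht
      linarith
    have hbot : Filter.Tendsto (fun t : ℝ => σ * ψ (Function.update y i t)) Filter.atBot
        Filter.atBot := by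
      have h1 : Filter.Tendsto (fun t : ℝ => η * t + σ * ψ (Function.update y i 0)) Filter.atBot
          Filter.atBot :=
        Filter.tendsto_atBot_add_const_right _ _ (Filter.tendsto_id.const_mul_atBot hη)
      refine Filter.tendsto_atBot_mono' _ ?_ h1
      filter_upwards [Filter.eventually_le_atBot (0:ℝ)] with t ht
      have := hmono y t 0 ht
      linarith
    obtain ⟨t, ht⟩ := hcont.surjective htop hbot (σ * y i)
    refine ⟨Function.update y i t, ?_⟩
    have ht' : ψ (Function.update y i t) = y i := mul_left_cancel₀ hσ0 ht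
    show Function.update (Function.update y i t) i (ψ (Function.update y i t)) = y
    rw [ht']
    simp
  let E : (Fin n → ℝ) ≃ (Fin n → ℝ) := Equiv.ofBijective G ⟨hinj, hsurj⟩
  have hE : ∀ x, E x = G x := fun x => rfl
  -- the inverse
  have hinv1 : ∀ y, E.symm y = Function.update y i (E.symm y i) := by
    intro y
    ext j
    by_cases hj : j = i
    · subst hj; simp
    · have h1 : G (E.symm y) = y := E.apply_symm_apply y
      have h2 := congrFun h1 j
      simp only [hG, Function.update_of_ne hj] at h2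
      rw [Function.update_of_ne hj, h2]
  have hinv2 : ∀ y, ψ (E.symm y) = y i := by
    intro y
    have h1 : G (E.symm y) = y := E.apply_symm_apply y
    have h2 := congrFun h1 i
    simpa [hG] using h2
  have hEc : Continuous E.symm := by
    rw [continuous_iff_continuousAt]
    intro y₀
    have hcoord : ContinuousAt (fun y => E.symm y i) y₀ := by
      set t₀ := E.symm y₀ i with ht₀
      have hb : ∀ y, |E.symm y i - t₀| ≤ η⁻¹ * |y i - ψ (Function.update y i t₀)| := by
        intro y
        have h1 := habs y t₀ (E.symm y i)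
        rw [← hinv1, hinv2] at h1
        rw [← div_eq_inv_mul, le_div_iff₀ hη]
        linarith
      have hlim : Filter.Tendsto (fun y => η⁻¹ * |y i - ψ (Function.update y i t₀)|) (𝓝 y₀)
          (𝓝 0) := by
        have hc : Continuous fun y : Fin n → ℝ => η⁻¹ * |y i - ψ (Function.update y i t₀)| :=
          continuous_const.mul ((continuous_apply i).sub
            (hψ.comp (continuous_id.update i continuous_const))).abs
        have h2 := hc.tendsto y₀
        have h3 : η⁻¹ * |y₀ i - ψ (Function.update y₀ i t₀)| = 0 := by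
          rw [ht₀, ← hinv1, hinv2, sub_self, abs_zero, mul_zero]
        rwa [h3] at h2
      have h4 : Filter.Tendsto (fun y => E.symm y i - t₀) (𝓝 y₀) (𝓝 0) :=
        squeeze_zero_norm (fun y => hb y) hlim
      have h5 := h4.add_const t₀
      simp only [sub_add_cancel, zero_add] at h5
      exact h5
    have h6 : ContinuousAt (fun y => Function.update y i (E.symm y i)) y₀ :=
      continuousAt_id.update i hcoord
    refine h6.congr (Filter.Eventually.of_forall fun y => ?_)
    exact (hinv1 y).symm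
  exact ⟨⟨E, hGc, hEc⟩, fun x => rfl⟩

/-- the values of `f` are selected from finitely many affine functions -/
def FinAff {n : ℕ} (f : (Fin n → ℝ) → ℝ) : Prop :=
  ∃ S : Set ((Fin n → ℝ) × ℝ), S.Finite ∧ ∀ x, ∃ p ∈ S, f x = ∑ j, p.1 j * x j + p.2

namespace FinAff

variable {n : ℕ} {f g : (Fin n → ℝ) → ℝ}

lemma const (c : ℝ) : FinAff (fun _ : Fin n → ℝ => c) :=
  ⟨{(0, c)}, finite_singleton _, fun x => ⟨_, rfl, by simp⟩⟩

lemma coord (i : Fin n) : FinAff (fun x : Fin n → ℝ => x i) :=
  ⟨{(Pi.single i 1, 0)}, finite_singleton _, fun x => ⟨_, rfl, by simp [Pi.single_apply]⟩⟩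

lemma add (hf : FinAff f) (hg : FinAff g) : FinAff (fun x => f x + g x) := by
  obtain ⟨S, hS, h1⟩ := hf
  obtain ⟨T, hT, h2⟩ := hg
  refine ⟨image2 (fun p q => (p.1 + q.1, p.2 + q.2)) S T, hS.image2 _ hT, fun x => ?_⟩
  obtain ⟨p, hp, e1⟩ := h1 x
  obtain ⟨q, hq, e2⟩ := h2 x
  refine ⟨_, mem_image2_of_mem hp hq, ?_⟩
  show f x + g x = _
  rw [e1, e2]
  simp only [Pi.add_apply, add_mul, Finset.sum_add_distrib]
  ring

lemma smul (c : ℝ) (hf : FinAff f) : FinAff (fun x => c * f x) := by
  obtain ⟨S, hS, h1⟩ := hf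
  refine ⟨(fun p => (c • p.1, c * p.2)) '' S, hS.image _, fun x => ?_⟩
  obtain ⟨p, hp, e1⟩ := h1 x
  refine ⟨_, mem_image_of_mem _ hp, ?_⟩
  show c * f x = _
  rw [e1]
  simp only [Pi.smul_apply, smul_eq_mul, mul_assoc, mul_add, Finset.mul_sum]

lemma max (hf : FinAff f) (hg : FinAff g) : FinAff (fun x => max (f x) (g x)) := by
  obtain ⟨S, hS, h1⟩ := hf
  obtain ⟨T, hT, h2⟩ := hg
  refine ⟨S ∪ T, hS.union hT, fun x => ?_⟩
  rcases le_total (f x) (g x) with h | h
  · obtain ⟨q, hq, e2⟩ := h2 x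
    exact ⟨q, Or.inr hq, by show Max.max (f x) (g x) = _; rw [max_eq_right h, e2]⟩
  · obtain ⟨p, hp, e1⟩ := h1 x
    exact ⟨p, Or.inl hp, by show Max.max (f x) (g x) = _; rw [max_eq_left h, e1]⟩

lemma abs (hf : FinAff f) : FinAff (fun x => |f x|) := by
  have h := hf.max (hf.smul (-1))
  have e : (fun x => |f x|) = fun x => Max.max (f x) (-1 * f x) := by
    funext x
    rw [neg_one_mul]
    rfl
  rw [e]
  exact h

lemma sum {ι : Type*} (s : Finset ι) (F : ι → (Fin n → ℝ) → ℝ) (h : ∀ j ∈ s, FinAff (F j)) :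
    FinAff (fun x => ∑ j ∈ s, F j x) := by
  classical
  induction s using Finset.induction_on with
  | empty => simpa using const 0
  | insert a s ha ih =>
    have h1 := (h a (Finset.mem_insert_self a s)).add (ih fun j hj => h j (Finset.mem_insert_of_mem hj))
    have e : (fun x => ∑ j ∈ insert a s, F j x) = fun x => F a x + ∑ j ∈ s, F j x := by
      funext x
      rw [Finset.sum_insert ha]
    rw [e]
    exact h1

lemma inf' {ι : Type*} (s : Finset ι) (hs : s.Nonempty) (F : ι → (Fin n → ℝ) → ℝ)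
    (h : ∀ j, FinAff (F j)) : FinAff (fun x => s.inf' hs fun j => F j x) := by
  choose S hS h1 using h
  refine ⟨⋃ j ∈ s, S j, s.finite_toSet.biUnion fun j _ => hS j, fun x => ?_⟩
  obtain ⟨j, hj, e⟩ := s.exists_mem_eq_inf' hs fun j => F j x
  obtain ⟨p, hp, e1⟩ := h1 j x
  exact ⟨p, mem_biUnion hj hp, e.trans e1⟩

end FinAff


/-- piecewise linear approximation of a function that is monotone in the `i`-th coordinate. -/
lemma exists_pl {n : ℕ} (i : Fin n) (φ : (Fin n → ℝ) → ℝ) (hφ : Continuous φ) (σ : ℝ)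
    (hσ : σ = 1 ∨ σ = -1)
    (hmono : ∀ x s t, s ≤ t → σ * φ (Function.update x i s) ≤ σ * φ (Function.update x i t))
    (R : ℝ) {ε : ℝ} (hε : 0 < ε) :
    ∃ (ψ : (Fin n → ℝ) → ℝ) (η : ℝ), 0 < η ∧ Continuous ψ ∧ FinAff ψ ∧
      (∀ x s t, s ≤ t → η * (t - s) ≤
        σ * ψ (Function.update x i t) - σ * ψ (Function.update x i s)) ∧
      ∀ x ∈ closedBall (0 : Fin n → ℝ) R, |ψ x - φ x| < ε := by
  classical
  have hσ2 : σ * σ = 1 := by rcases hσ with h | h <;> rw [h] <;> norm_num
  have hσa : |σ| = 1 := by rcases hσ with h | h <;> rw [h] <;> simp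
  set Φ : (Fin n → ℝ) → ℝ := fun x => σ * φ x with hΦ
  have hΦc : Continuous Φ := continuous_const.mul hφ
  set R' : ℝ := max R 1 with hR'
  have hR'p : 0 < R' := lt_of_lt_of_le one_pos (le_max_right _ _)
  -- bounds
  obtain ⟨M₀, hM₀⟩ := (isCompact_closedBall (0 : Fin n → ℝ) R').bddAbove_image hΦc.abs.continuousOn
  set M := max M₀ 0 with hM
  have hMb : ∀ x ∈ closedBall (0 : Fin n → ℝ) R', |Φ x| ≤ M := fun x hx =>
    le_max_of_le_left (hM₀ (mem_image_of_mem _ hx))
  have hM0 : 0 ≤ M := le_max_right _ _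
  have huc : UniformContinuousOn Φ (closedBall (0 : Fin n → ℝ) R') :=
    (isCompact_closedBall _ _).uniformContinuousOn_of_continuous hΦc.continuousOn
  rw [Metric.uniformContinuousOn_iff_le] at huc
  obtain ⟨δ, hδ, hu⟩ := huc (ε / 8) (by positivity)
  set K : ℝ := 2 * M / δ with hK
  have hK0 : 0 ≤ K := by rw [hK]; positivity
  have H1 : ∀ a ∈ closedBall (0 : Fin n → ℝ) R', ∀ b ∈ closedBall (0 : Fin n → ℝ) R',
      Φ a ≤ Φ b + ε / 8 + K * ‖a - b‖ := by
    intro a ha b hb
    rcases le_total (dist a b) δ with h | h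
    · have h1 := hu a ha b hb h
      rw [Real.dist_eq] at h1
      have h2 := (abs_le.1 h1).2
      have h3 : 0 ≤ K * ‖a - b‖ := by positivity
      linarith
    · rw [dist_eq_norm] at h
      have h1 := (abs_le.1 (hMb a ha)).2
      have h2 := (abs_le.1 (hMb b hb)).1
      have h3 : 2 * M ≤ K * ‖a - b‖ := by
        calc 2 * M = K * δ := by rw [hK]; field_simp
          _ ≤ K * ‖a - b‖ := by gcongr
      linarith
  obtain ⟨N, hN⟩ := exists_nat_gt (max (2 * R' / δ) (K * (n + 1) * (2 * R') * 8 / ε))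
  have hNp : (0 : ℝ) < N := lt_of_le_of_lt (le_max_of_le_left (by positivity)) hN
  set Δ : ℝ := 2 * R' / N with hΔ
  have hΔp : 0 < Δ := by rw [hΔ]; positivity
  have hΔδ : Δ ≤ δ := by
    rw [hΔ, div_le_iff₀ hNp]
    have := lt_of_le_of_lt (le_max_left _ _) hN
    rw [div_lt_iff₀ hδ] at this
    linarith
  have hKΔ : K * (n + 1) * Δ ≤ ε / 8 := by
    have := lt_of_le_of_lt (le_max_right _ _) hN
    rw [div_lt_iff₀ hε] at this
    rw [hΔ, ← mul_div_assoc, div_le_div_iff₀ hNp (by norm_num)]
    linarith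
  have hNΔ : (N : ℝ) * Δ = 2 * R' := by rw [hΔ]; field_simp
  -- the grid
  let pt : (Fin n → Fin (N + 1)) → (Fin n → ℝ) := fun k j => -R' + ((k j : ℕ) : ℝ) * Δ
  have hpt : ∀ k j, |pt k j| ≤ R' := by
    intro k j
    have h1 : ((k j : ℕ) : ℝ) ≤ N := by exact_mod_cast Nat.lt_succ_iff.1 (k j).2
    have h2 : ((k j : ℕ) : ℝ) * Δ ≤ N * Δ := by gcongr
    have h3 : 0 ≤ ((k j : ℕ) : ℝ) * Δ := by positivity
    show |-R' + ((k j : ℕ) : ℝ) * Δ| ≤ R'
    rw [abs_le]
    constructor <;> linarith
  let F : (Fin n → Fin (N + 1)) → (Fin n → ℝ) → ℝ := fun k x =>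
    Φ (pt k) + K * ((∑ j ∈ Finset.univ.erase i, |x j + -(pt k j)|) + max (x i + -(pt k i)) 0)
  have hFc : ∀ k, Continuous (F k) := fun k => by
    refine continuous_const.add (continuous_const.mul ((continuous_finsetSum _ fun j _ => ?_).add
      (((continuous_apply i).add continuous_const).max continuous_const)))
    exact ((continuous_apply j).add continuous_const).abs
  have hFA : ∀ k, FinAff (F k) := fun k =>
    (FinAff.const _).add (((FinAff.sum _ _ fun j _ => ((FinAff.coord j).add (FinAff.const _)).abs).add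
      (((FinAff.coord i).add (FinAff.const _)).max (FinAff.const 0))).smul K)
  have hne : (Finset.univ : Finset (Fin n → Fin (N + 1))).Nonempty := Finset.univ_nonempty
  set f : (Fin n → ℝ) → ℝ := fun x => Finset.univ.inf' hne fun k => F k x with hf
  have hfc : Continuous f := Continuous.finset_inf'_apply hne fun k _ => hFc k
  have hfA : FinAff f := FinAff.inf' _ hne _ hFA
  have hfm : ∀ x s t, s ≤ t → f (Function.update x i s) ≤ f (Function.update x i t) := by
    intro x s t hst
    refine Finset.le_inf' _ _ fun k hk => ?_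
    refine (Finset.inf'_le _ hk).trans ?_
    show Φ (pt k) + K * _ ≤ Φ (pt k) + K * _
    have h1 : ∑ j ∈ Finset.univ.erase i, |Function.update x i s j + -(pt k j)| =
        ∑ j ∈ Finset.univ.erase i, |Function.update x i t j + -(pt k j)| := by
      refine Finset.sum_congr rfl fun j hj => ?_
      rw [Function.update_of_ne (Finset.ne_of_mem_erase hj),
        Function.update_of_ne (Finset.ne_of_mem_erase hj)]
    rw [h1, Function.update_self, Function.update_self]
    gcongr
  have hlow : ∀ x ∈ closedBall (0 : Fin n → ℝ) R', Φ x - ε / 8 ≤ f x := by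
    intro x hx
    have hxj : ∀ j, |x j| ≤ R' := fun j => (norm_le_pi_norm x j).trans
      (mem_closedBall_zero_iff.1 hx)
    refine Finset.le_inf' _ _ fun k hk => ?_
    set q := Function.update (pt k) i (min (pt k i) (x i)) with hq
    have hqm : q ∈ closedBall (0 : Fin n → ℝ) R' := by
      rw [mem_closedBall_zero_iff]
      refine (pi_norm_le_iff_of_nonneg hR'p.le).2 fun j => ?_
      by_cases hj : j = i
      · subst hj
        rw [hq, Function.update_self, Real.norm_eq_abs]
        have a1 := abs_le.1 (hpt k j)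
        have a2 := abs_le.1 (hxj j)
        rw [abs_le]
        exact ⟨le_min a1.1 a2.1, (min_le_left _ _).trans a1.2⟩
      · rw [hq, Function.update_of_ne hj]
        exact hpt k j
    have h1 : Φ q ≤ Φ (pt k) := by
      have := hmono (pt k) (min (pt k i) (x i)) (pt k i) (min_le_left _ _)
      rwa [Function.update_eq_self] at this
    have h2 := H1 x hx q hqm
    have h3 : ‖x - q‖ ≤ (∑ j ∈ Finset.univ.erase i, |x j + -(pt k j)|) +
        max (x i + -(pt k i)) 0 := by
      have hs0 : 0 ≤ ∑ j ∈ Finset.univ.erase i, |x j + -(pt k j)| :=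
        Finset.sum_nonneg fun j _ => abs_nonneg _
      have hm0 : 0 ≤ max (x i + -(pt k i)) 0 := le_max_right _ _
      refine (pi_norm_le_iff_of_nonneg (by positivity)).2 fun j => ?_
      by_cases hj : j = i
      · subst hj
        rw [Pi.sub_apply, hq, Function.update_self, Real.norm_eq_abs]
        have h4 : |x j - min (pt k j) (x j)| = max (x j + -(pt k j)) 0 := by
          rcases le_total (pt k j) (x j) with h | h
          · rw [min_eq_left h, abs_of_nonneg (by linarith), max_eq_left (by linarith)]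
            ring
          · rw [min_eq_right h, sub_self, abs_zero, max_eq_right (by linarith)]
        rw [h4]
        linarith
      · rw [Pi.sub_apply, hq, Function.update_of_ne hj, Real.norm_eq_abs, sub_eq_add_neg]
        have h5 := Finset.single_le_sum (f := fun j => |x j + -(pt k j)|)
          (fun j _ => abs_nonneg _) (Finset.mem_erase.2 ⟨hj, Finset.mem_univ j⟩)
        linarith
    have h6 : K * ‖x - q‖ ≤ K * ((∑ j ∈ Finset.univ.erase i, |x j + -(pt k j)|) +
        max (x i + -(pt k i)) 0) := by gcongr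
    show Φ x - ε / 8 ≤ Φ (pt k) + K * _
    linarith
  have hup : ∀ x ∈ closedBall (0 : Fin n → ℝ) R', f x ≤ Φ x + ε / 4 := by
    intro x hx
    have hxj : ∀ j, |x j| ≤ R' := fun j => (norm_le_pi_norm x j).trans
      (mem_closedBall_zero_iff.1 hx)
    have hkj : ∀ j, ⌈(x j + R') / Δ⌉₊ < N + 1 := by
      intro j
      rw [Nat.lt_succ_iff, Nat.ceil_le, div_le_iff₀ hΔp, hNΔ]
      have := (abs_le.1 (hxj j)).2
      linarith
    let k : Fin n → Fin (N + 1) := fun j => ⟨⌈(x j + R') / Δ⌉₊, hkj j⟩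
    have hk1 : ∀ j, x j ≤ pt k j := by
      intro j
      have := Nat.le_ceil ((x j + R') / Δ)
      rw [div_le_iff₀ hΔp] at this
      show x j ≤ -R' + (⌈(x j + R') / Δ⌉₊ : ℝ) * Δ
      linarith
    have hk2 : ∀ j, pt k j ≤ x j + Δ := by
      intro j
      have h0 : 0 ≤ (x j + R') / Δ := div_nonneg (by linarith [(abs_le.1 (hxj j)).1]) hΔp.le
      have := Nat.ceil_lt_add_one h0
      have h1 : (⌈(x j + R') / Δ⌉₊ : ℝ) * Δ ≤ ((x j + R') / Δ + 1) * Δ := by gcongr
      have h2 : ((x j + R') / Δ + 1) * Δ = x j + R' + Δ := by field_simp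
      show -R' + (⌈(x j + R') / Δ⌉₊ : ℝ) * Δ ≤ x j + Δ
      linarith
    have hkm : pt k ∈ closedBall (0 : Fin n → ℝ) R' := by
      rw [mem_closedBall_zero_iff]
      exact (pi_norm_le_iff_of_nonneg hR'p.le).2 fun j => hpt k j
    have hd : dist (pt k) x ≤ δ := by
      refine (dist_pi_le_iff hδ.le).2 fun j => ?_
      rw [Real.dist_eq, abs_of_nonneg (by linarith [hk1 j])]
      linarith [hk2 j]
    have h1 := hu (pt k) hkm x hx hd
    rw [Real.dist_eq] at h1
    have h2 := (abs_le.1 h1).2
    refine (Finset.inf'_le _ (Finset.mem_univ k)).trans ?_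
    show Φ (pt k) + K * ((∑ j ∈ Finset.univ.erase i, |x j + -(pt k j)|) +
      max (x i + -(pt k i)) 0) ≤ _
    have h3 : max (x i + -(pt k i)) 0 = 0 := max_eq_right (by linarith [hk1 i])
    have h4 : ∑ j ∈ Finset.univ.erase i, |x j + -(pt k j)| ≤ (n + 1) * Δ := by
      calc ∑ j ∈ Finset.univ.erase i, |x j + -(pt k j)|
          ≤ ∑ j ∈ Finset.univ.erase i, Δ := by
            refine Finset.sum_le_sum fun j _ => ?_
            rw [abs_le]
            constructor
            · linarith [hk2 j]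
            · linarith [hk1 j]
        _ = ((Finset.univ.erase i).card : ℝ) * Δ := by rw [Finset.sum_const, nsmul_eq_mul]
        _ ≤ (n + 1) * Δ := by
          have : ((Finset.univ.erase i).card : ℝ) ≤ n + 1 := by
            have h5 : (Finset.univ.erase i).card ≤ n + 1 := by
              refine (Finset.card_le_card (Finset.erase_subset _ _)).trans ?_
              simp
            exact_mod_cast h5
          gcongr
    rw [h3, add_zero]
    have h6 : K * ∑ j ∈ Finset.univ.erase i, |x j + -(pt k j)| ≤ K * ((n + 1) * Δ) := by gcongr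
    linarith
  set η : ℝ := ε / (4 * (R' + 1)) with hη
  have hη0 : 0 < η := by rw [hη]; positivity
  refine ⟨fun x => σ * f x + (σ * η) * x i, η, hη0, ?_, ?_, ?_, ?_⟩
  · exact (continuous_const.mul hfc).add (continuous_const.mul (continuous_apply i))
  · exact (hfA.smul σ).add ((FinAff.coord i).smul (σ * η))
  · intro x s t hst
    have h1 := hfm x s t hst
    simp only [Function.update_self]
    have e : σ * (σ * f (Function.update x i t) + σ * η * t) -
        σ * (σ * f (Function.update x i s) + σ * η * s)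
      = (σ * σ) * (f (Function.update x i t) - f (Function.update x i s)) +
        (σ * σ) * η * (t - s) := by ring
    rw [e, hσ2]
    linarith
  · intro x hx
    have hx' : x ∈ closedBall (0 : Fin n → ℝ) R' :=
      closedBall_subset_closedBall (le_max_left _ _) hx
    have h1 := hlow x hx'
    have h2 := hup x hx'
    have h3 : |x i| ≤ R' := (norm_le_pi_norm x i).trans (mem_closedBall_zero_iff.1 hx')
    have e : σ * f x + σ * η * x i - φ x = σ * (f x - Φ x) + σ * η * x i := by
      have : σ * Φ x = φ x := by rw [hΦ]; simp only; rw [← mul_assoc, hσ2, one_mul]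
      rw [mul_sub, this]; ring
    rw [e]
    calc _ ≤ |σ * (f x - Φ x)| + |σ * η * x i| := abs_add_le _ _
      _ = |f x - Φ x| + η * |x i| := by
        rw [abs_mul, abs_mul, abs_mul, hσa, abs_of_pos hη0, one_mul, one_mul]
      _ ≤ ε / 4 + η * R' := by
        gcongr
        rw [abs_le]
        constructor <;> linarith
      _ < ε := by
        have h3 : η * R' ≤ ε / 4 := by
          rw [hη, div_mul_eq_mul_div, div_le_div_iff₀ (by positivity) (by norm_num)]
          nlinarith
        linarith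

/-- piecewise affine homeomorphisms are closed under composition -/
lemma piecewiseAffine_mul {n : ℕ} {g h : Homeo n} (hg : g ∈ PiecewiseAffine n)
    (hh : h ∈ PiecewiseAffine n) : g * h ∈ PiecewiseAffine n := by
  obtain ⟨ι, T, hT, hcov, haff⟩ := hg
  obtain ⟨κ, T', hT', hcov', haff'⟩ := hh
  refine ⟨κ × ι, fun p => T' p.1 ∩ h ⁻¹' (T p.2), ?_, ?_, ?_⟩
  · intro x
    obtain ⟨U, hU, hUf⟩ := hT' x
    obtain ⟨W, hW, hWf⟩ := hT (h x)
    refine ⟨U ∩ h ⁻¹' W, Filter.inter_mem hU (h.continuous.continuousAt hW),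
      (hUf.prod hWf).subset ?_⟩
    rintro ⟨a, b⟩ ⟨y, ⟨hy1, hy2⟩, hy3, hy4⟩
    exact ⟨⟨y, hy1, hy3⟩, ⟨h y, hy2, hy4⟩⟩
  · rw [eq_univ_iff_forall]
    intro x
    have h1 : x ∈ ⋃ i, T' i := by rw [hcov']; exact mem_univ x
    have h2 : h x ∈ ⋃ i, T i := by rw [hcov]; exact mem_univ _
    obtain ⟨a, ha⟩ := mem_iUnion.1 h1
    obtain ⟨b, hb⟩ := mem_iUnion.1 h2
    exact mem_iUnion.2 ⟨(a, b), ha, hb⟩
  · rintro ⟨a, b⟩
    obtain ⟨M, c, h1⟩ := haff' a
    obtain ⟨M', c', h2⟩ := haff b
    refine ⟨M' * M, M'.mulVec c + c', fun x hx => ?_⟩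
    rw [Homeomorph.mul_apply, h2 (h x) hx.2, h1 x hx.1, Matrix.mulVec_add, Matrix.mulVec_mulVec,
      add_assoc]

lemma piecewiseAffine_of_finAff {n : ℕ} {g : Homeo n} {i : Fin n} {ψ : (Fin n → ℝ) → ℝ}
    (hψ : FinAff ψ) (hg : ∀ x, g x = Function.update x i (ψ x)) : g ∈ PiecewiseAffine n := by
  classical
  obtain ⟨S, hS, h1⟩ := hψ
  have : Finite S := hS
  refine ⟨S, fun s => {x | ψ x = ∑ j, s.1.1 j * x j + s.1.2}, locallyFinite_of_finite _, ?_, ?_⟩
  · rw [eq_univ_iff_forall]
    intro x
    obtain ⟨p, hp, h2⟩ := h1 x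
    exact mem_iUnion.2 ⟨⟨p, hp⟩, h2⟩
  · rintro ⟨s, hs⟩
    refine ⟨Matrix.updateRow 1 i s.1, Pi.single i s.2, fun x hx => ?_⟩
    have hx' : ψ x = ∑ j, s.1 j * x j + s.2 := hx
    rw [hg]
    ext j
    by_cases hj : j = i
    · subst hj
      rw [Function.update_self, hx', Pi.add_apply, Pi.single_eq_same]
      congr 1
      simp [Matrix.mulVec, dotProduct]
    · rw [Function.update_of_ne hj, Pi.add_apply, Pi.single_eq_of_ne hj, add_zero]
      simp [Matrix.mulVec, Matrix.updateRow_ne hj, dotProduct, Matrix.one_apply]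


theorem typeA_approx_pl {n : ℕ} {g : Homeo n} (hg : g ∈ TypeA n) :
    ApproxBy (PiecewiseAffine n) g := by
  rw [approxBy_iff]
  obtain ⟨i, hi⟩ := hg
  obtain ⟨σ, hσ, hσm⟩ := typeA_sign hi
  intro R ε hε
  obtain ⟨ψ, η, hη, hψc, hψA, hmono, happ⟩ := exists_pl i (fun x => g x i)
    ((continuous_apply i).comp g.continuous) σ hσ (fun x s t hst => by
      rcases hst.lt_or_eq with h | h
      · exact (hσm x s t h).le
      · rw [h]) R hε
  obtain ⟨g', h3⟩ := exists_homeo_of_strong i ψ hψc σ hσ hη hmono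
  refine ⟨g', piecewiseAffine_of_finAff hψA h3, fun p hp => ?_⟩
  refine (pi_norm_lt_iff hε).2 fun j => ?_
  rw [Pi.sub_apply, h3]
  by_cases hj : j = i
  · subst hj
    rw [Function.update_self]
    exact happ p hp
  · rw [Function.update_of_ne hj, hi p j hj, sub_self, norm_zero]
    exact hε

lemma approxBy_mul {n : ℕ} {S : Set (Homeo n)} (hS : ∀ g ∈ S, ∀ h ∈ S, g * h ∈ S)
    {h₁ h₂ : Homeo n} (a₁ : ApproxBy S h₁) (a₂ : ApproxBy S h₂) : ApproxBy S (h₁ * h₂) := by
  rw [approxBy_iff] at a₁ a₂ ⊢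
  intro R ε hε
  obtain ⟨M, hM0, hM⟩ := exists_image_bound h₂ h₂.continuous R
  obtain ⟨δ, hδ, hu⟩ := exists_unif h₁ h₁.continuous (M + 1) (half_pos hε)
  obtain ⟨g₂, hg₂, b₂⟩ := a₂ R (min δ 1) (by positivity)
  obtain ⟨g₁, hg₁, b₁⟩ := a₁ (M + 1) (ε / 2) (by positivity)
  refine ⟨g₁ * g₂, hS _ hg₁ _ hg₂, fun p hp => ?_⟩
  have e1 : h₂ p ∈ closedBall (0 : Fin n → ℝ) (M + 1) :=
    closedBall_subset_closedBall (by linarith) (hM p hp)
  have e2 : ‖g₂ p - h₂ p‖ < min δ 1 := b₂ p hp
  have e3 : g₂ p ∈ closedBall (0 : Fin n → ℝ) (M + 1) := by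
    rw [mem_closedBall_zero_iff]
    have := hM p hp
    rw [mem_closedBall_zero_iff] at this
    calc ‖g₂ p‖ = ‖(g₂ p - h₂ p) + h₂ p‖ := by simp
      _ ≤ ‖g₂ p - h₂ p‖ + ‖h₂ p‖ := norm_add_le _ _
      _ ≤ 1 + M := add_le_add (e2.le.trans (min_le_right _ _)) this
      _ = M + 1 := by ring
  rw [Homeomorph.mul_apply, Homeomorph.mul_apply]
  calc ‖g₁ (g₂ p) - h₁ (h₂ p)‖ = ‖(g₁ (g₂ p) - h₁ (g₂ p)) + (h₁ (g₂ p) - h₁ (h₂ p))‖ := by simp
    _ ≤ ‖g₁ (g₂ p) - h₁ (g₂ p)‖ + ‖h₁ (g₂ p) - h₁ (h₂ p)‖ := norm_add_le _ _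
    _ < ε / 2 + ε / 2 := add_lt_add (b₁ _ e3)
        (hu _ e3 _ e1 (e2.trans_le (min_le_left _ _)))
    _ = ε := by ring

lemma approxBy_trans {n : ℕ} {S T : Set (Homeo n)} (hS : ∀ g ∈ S, ApproxBy T g) {h : Homeo n}
    (H : ApproxBy S h) : ApproxBy T h := by
  rw [approxBy_iff] at H ⊢
  intro R ε hε
  obtain ⟨g, hg, b⟩ := H R (ε / 2) (by positivity)
  obtain ⟨g', hg', b'⟩ := (approxBy_iff _ _).1 (hS g hg) R (ε / 2) (by positivity)
  refine ⟨g', hg', fun p hp => ?_⟩
  calc ‖g' p - h p‖ = ‖(g' p - g p) + (g p - h p)‖ := by simp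
    _ ≤ ‖g' p - g p‖ + ‖g p - h p‖ := norm_add_le _ _
    _ < ε / 2 + ε / 2 := add_lt_add (b' p hp) (b p hp)
    _ = ε := by ring

lemma piecewiseAffine_one (n : ℕ) : (1 : Homeo n) ∈ PiecewiseAffine n :=
  ⟨Unit, fun _ => univ, locallyFinite_of_finite _, iUnion_const _,
    fun _ => ⟨1, 0, fun x _ => by simp⟩⟩

theorem ga_approx_pl {n : ℕ} {g : Homeo n} (hg : g ∈ GA n) : ApproxBy (PiecewiseAffine n) g := by
  refine Subgroup.closure_induction'' (p := fun g _ => ApproxBy (PiecewiseAffine n) g)
    (fun g hg => typeA_approx_pl hg) (fun g hg => typeA_approx_pl (coord_inv hg)) ?_ ?_ hg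
  · intro B hB ε hε
    exact ⟨1, piecewiseAffine_one n, fun p hp => by simpa using hε⟩
  · intro x y _ _ hx hy
    exact approxBy_mul (fun a ha b hb => piecewiseAffine_mul ha hb) hx hy

theorem approx_iff_pl {n : ℕ} (h : Homeo n) :
    ApproxBy (GA n : Set (Homeo n)) h ↔ ApproxBy (PiecewiseAffine n) h :=
  ⟨fun H => approxBy_trans (fun _ hg => ga_approx_pl hg) H,
    fun H => H.of_subset_cl fun _ hg => piecewiseAffine_mem hg⟩

end Pool.Agent.CoordMaps
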