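import Pool.Agent.CoordMaps.Core

namespace Pool.Agent.CoordMaps

open Set Metric Topology NNReal

section TypeBSec

/-- cyclic permutation of the coordinates -/
def cyc : (Fin 3 → ℝ) ≃ₜ (Fin 3 → ℝ) where
  toFun x := ![x 1, x 2, x 0]
  invFun x := ![x 2, x 0, x 1]
  left_inv x := by ext i; fin_cases i <;> rfl
  right_inv x := by ext i; fin_cases i <;> rfl
  continuous_toFun := by
    refine continuous_pi fun i => ?_
    fin_cases i <;> simp <;> fun_prop
  continuous_invFun := by
    refine continuous_pi fun i => ?_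
    fin_cases i <;> simp <;> fun_prop

lemma cyc_apply (x : Fin 3 → ℝ) : cyc x = ![x 1, x 2, x 0] := rfl

lemma cyc_inv_apply (x : Fin 3 → ℝ) : cyc⁻¹ x = ![x 2, x 0, x 1] := rfl

lemma cyc_mem : cyc ∈ GB :=
  Subgroup.subset_closure ⟨Prod.fst, Prod.snd, Prod.fst, continuous_fst, continuous_snd,
    continuous_fst, fun x => by rw [cyc_apply]⟩

lemma c1_mem (M : (Fin 3 → ℝ) ≃ₜ (Fin 3 → ℝ)) (h f g : ℝ × ℝ → ℝ) (hh : Continuous h)
    (hf : Continuous f) (hg : Continuous g)
    (hM : ∀ x, M x = ![h (x 0, x 1), f (x 1, x 2), g (x 0, x 2)]) : M ∈ GB := by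
  have h1 : cyc * M ∈ GB := Subgroup.subset_closure ⟨f, g, h, hf, hg, hh, fun x => by
    rw [Homeomorph.mul_apply, hM, cyc_apply]
    rfl⟩
  have := GB.mul_mem (GB.inv_mem cyc_mem) h1
  rwa [inv_mul_cancel_left] at this

lemma c2_mem (M : (Fin 3 → ℝ) ≃ₜ (Fin 3 → ℝ)) (g h f : ℝ × ℝ → ℝ) (hg : Continuous g)
    (hh : Continuous h) (hf : Continuous f)
    (hM : ∀ x, M x = ![g (x 0, x 2), h (x 0, x 1), f (x 1, x 2)]) : M ∈ GB := by
  have h1 : cyc⁻¹ * M ∈ GB := Subgroup.subset_closure ⟨f, g, h, hf, hg, hh, fun x => by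
    rw [Homeomorph.mul_apply, hM, cyc_inv_apply]
    rfl⟩
  have := GB.mul_mem cyc_mem h1
  rwa [mul_inv_cancel_left] at this

/-- a group containing the transvections and the invertible diagonal maps contains all invertible
linear maps. -/
lemma hasLin_of {n : ℕ} (G : Subgroup ((Fin n → ℝ) ≃ₜ (Fin n → ℝ)))
    (ht : ∀ t : Matrix.TransvectionStruct (Fin n) ℝ, ∃ h ∈ G, ∀ x, h x = t.toMatrix.mulVec x)
    (hd : ∀ D : Fin n → ℝ, (∀ i, D i ≠ 0) → ∃ h ∈ G, ∀ x, h x = (Matrix.diagonal D).mulVec x) :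
    HasLin G := by
  intro A
  set M := LinearMap.toMatrix' (A : (Fin n → ℝ) →ₗ[ℝ] (Fin n → ℝ)) with hM
  have hAM : ∀ x, A x = M.mulVec x := by
    intro x
    rw [hM, ← Matrix.toLin'_apply, Matrix.toLin'_toMatrix']
    rfl
  have hdet : M.det ≠ 0 := by
    rw [hM, LinearMap.det_toMatrix']
    exact (LinearEquiv.isUnit_det' A).ne_zero
  have hlist : ∀ L : List (Matrix.TransvectionStruct (Fin n) ℝ),
      ∃ h ∈ G, ∀ x, h x = (L.map Matrix.TransvectionStruct.toMatrix).prod.mulVec x := by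
    intro L
    induction L with
    | nil => exact ⟨1, G.one_mem, fun x => by simp⟩
    | cons t L ih =>
      obtain ⟨h, hh, h1⟩ := ih
      obtain ⟨k, hk, k1⟩ := ht t
      refine ⟨k * h, G.mul_mem hk hh, fun x => ?_⟩
      rw [List.map_cons, List.prod_cons, Homeomorph.mul_apply, k1, h1, Matrix.mulVec_mulVec]
  obtain ⟨L, L', D, h⟩ := Matrix.Pivot.exists_list_transvec_mul_diagonal_mul_list_transvec M
  obtain ⟨a, ha, a1⟩ := hlist L
  obtain ⟨b, hb, b1⟩ := hlist L'
  obtain ⟨c, hc, c1⟩ := hd D (fun i hi => by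
    apply hdet
    rw [h, Matrix.det_mul, Matrix.det_mul, Matrix.det_diagonal,
      Finset.prod_eq_zero (Finset.mem_univ i) hi]
    simp)
  refine ⟨a * c * b, G.mul_mem (G.mul_mem ha hc) hb, fun x => ?_⟩
  rw [Homeomorph.mul_apply, Homeomorph.mul_apply, a1, b1, c1, Matrix.mulVec_mulVec,
    Matrix.mulVec_mulVec, hAM, h, Matrix.mul_assoc]

/-- the homeomorphism given by an invertible matrix -/
lemma exists_matHomeo {n : ℕ} (M M' : Matrix (Fin n) (Fin n) ℝ) (h1 : M * M' = 1) (h2 : M' * M = 1) :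
    ∃ h : (Fin n → ℝ) ≃ₜ (Fin n → ℝ), ∀ x, h x = M.mulVec x := by
  have hc : ∀ N : Matrix (Fin n) (Fin n) ℝ, Continuous fun x : Fin n → ℝ => N.mulVec x := by
    intro N; fun_prop
  exact ⟨⟨⟨fun x => M.mulVec x, fun x => M'.mulVec x, fun x => by simp [Matrix.mulVec_mulVec, h2],
    fun x => by simp [Matrix.mulVec_mulVec, h1]⟩, hc M, hc M'⟩, fun x => rfl⟩

lemma gb_hasLin : HasLin GB := by
  refine hasLin_of GB (fun t => ?_) (fun D hD => ?_)
  · obtain ⟨i, j, hij, c⟩ := t
    obtain ⟨h, hh⟩ := exists_matHomeo (Matrix.transvection i j c) (Matrix.transvection i j (-c))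
      (by simp [Matrix.transvection_mul_transvection_same _ _ hij])
      (by simp [Matrix.transvection_mul_transvection_same _ _ hij])
    refine ⟨h, ?_, hh⟩
    have key : ∀ x, h x = x + Pi.single i (c * x j) := by
      intro x
      rw [hh, Matrix.transvection, Matrix.add_mulVec, Matrix.one_mulVec, Matrix.single_mulVec]
      congr 1
    fin_cases i <;> fin_cases j
    · exact absurd rfl hij
    · refine c1_mem h (fun p => p.1 + c * p.2) Prod.fst Prod.snd (by fun_prop) (by fun_prop)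
        (by fun_prop) (fun x => ?_)
      rw [key]; ext k; fin_cases k <;> simp
    · refine c2_mem h (fun p => p.1 + c * p.2) Prod.snd Prod.snd (by fun_prop) (by fun_prop)
        (by fun_prop) (fun x => ?_)
      rw [key]; ext k; fin_cases k <;> simp
    · refine c2_mem h Prod.fst (fun p => p.2 + c * p.1) Prod.snd (by fun_prop) (by fun_prop)
        (by fun_prop) (fun x => ?_)
      rw [key]; ext k; fin_cases k <;> simp
    · exact absurd rfl hij
    · refine c1_mem h Prod.fst (fun p => p.1 + c * p.2) Prod.snd (by fun_prop) (by fun_prop)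
        (by fun_prop) (fun x => ?_)
      rw [key]; ext k; fin_cases k <;> simp
    · refine c1_mem h Prod.fst Prod.fst (fun p => p.2 + c * p.1) (by fun_prop) (by fun_prop)
        (by fun_prop) (fun x => ?_)
      rw [key]; ext k; fin_cases k <;> simp
    · refine c2_mem h Prod.fst Prod.snd (fun p => p.2 + c * p.1) (by fun_prop) (by fun_prop)
        (by fun_prop) (fun x => ?_)
      rw [key]; ext k; fin_cases k <;> simp
    · exact absurd rfl hij
  · obtain ⟨h, hh⟩ := exists_matHomeo (Matrix.diagonal D) (Matrix.diagonal (fun i => (D i)⁻¹))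
      (by rw [Matrix.diagonal_mul_diagonal]; simp [hD])
      (by rw [Matrix.diagonal_mul_diagonal]; simp [hD])
    refine ⟨h, ?_, hh⟩
    refine c1_mem h (fun p => D 0 * p.1) (fun p => D 1 * p.1) (fun p => D 2 * p.2) (by fun_prop)
      (by fun_prop) (by fun_prop) (fun x => ?_)
    rw [hh]; ext k; fin_cases k <;> simp [Matrix.mulVec_diagonal]

end TypeBSec

section Shear

/-- the shear `(x,y,z) ↦ (x + a(y,z), y, z)` -/
def sh (a : C(ℝ × ℝ, ℝ)) : (Fin 3 → ℝ) ≃ₜ (Fin 3 → ℝ) where
  toFun x := ![x 0 + a (x 1, x 2), x 1, x 2]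
  invFun x := ![x 0 - a (x 1, x 2), x 1, x 2]
  left_inv x := by ext i; fin_cases i <;> simp
  right_inv x := by ext i; fin_cases i <;> simp
  continuous_toFun := by
    refine continuous_pi fun i => ?_
    fin_cases i <;> simp <;> fun_prop
  continuous_invFun := by
    refine continuous_pi fun i => ?_
    fin_cases i <;> simp <;> fun_prop

lemma sh_apply (a : C(ℝ × ℝ, ℝ)) (x : Fin 3 → ℝ) : sh a x = ![x 0 + a (x 1, x 2), x 1, x 2] := rfl

lemma sh_add (a b : C(ℝ × ℝ, ℝ)) : sh (a + b) = sh a * sh b := by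
  ext x i
  rw [Homeomorph.mul_apply, sh_apply, sh_apply, sh_apply]
  fin_cases i
  · simp; ring
  · simp
  · simp

lemma sh_zero : sh 0 = 1 := by
  ext x i
  rw [sh_apply]
  fin_cases i <;> simp

lemma sh_exp (c p r : ℝ) (a : C(ℝ × ℝ, ℝ)) (ha : ∀ z, a z = c * Real.exp (p * z.1 + r * z.2)) :
    sh a ∈ GB := by
  by_cases hp : p = 0
  · refine c2_mem (sh a) (fun z => z.1 + c * Real.exp (r * z.2)) Prod.snd Prod.snd (by fun_prop)
      (by fun_prop) (by fun_prop) (fun x => ?_)
    rw [sh_apply, ha, hp]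
    simp
  · -- conjugate a shear in one variable by a linear map
    let L : (Fin 3 → ℝ) ≃ₗ[ℝ] (Fin 3 → ℝ) :=
      { toFun := fun x => ![x 0, x 1 + r / p * x 2, x 2]
        invFun := fun x => ![x 0, x 1 - r / p * x 2, x 2]
        map_add' := fun x y => by
          ext i; fin_cases i
          · simp
          · simp; ring
          · simp
        map_smul' := fun t x => by
          ext i; fin_cases i
          · simp
          · simp; ring
          · simp
        left_inv := fun x => by ext i; fin_cases i <;> simp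
        right_inv := fun x => by ext i; fin_cases i <;> simp }
    obtain ⟨h, hh, h1⟩ := gb_hasLin L
    have h2 : ∀ x, h.symm x = ![x 0, x 1 - r / p * x 2, x 2] := by
      intro x
      rw [Homeomorph.symm_apply_eq, h1]
      exact (L.apply_symm_apply x).symm
    have hb : sh ⟨fun z => c * Real.exp (p * z.1), by fun_prop⟩ ∈ GB := by
      refine c1_mem _ (fun z => z.1 + c * Real.exp (p * z.2)) Prod.fst Prod.snd (by fun_prop)
        (by fun_prop) (by fun_prop) (fun x => ?_)
      rw [sh_apply]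
      rfl
    have h3 : sh a = h⁻¹ * sh ⟨fun z => c * Real.exp (p * z.1), by fun_prop⟩ * h := by
      ext x i
      rw [Homeomorph.mul_apply, Homeomorph.mul_apply, Homeomorph.inv_apply, h2, h1]
      show _ = ![(sh ⟨fun z => c * Real.exp (p * z.1), by fun_prop⟩ ![x 0, x 1 + r / p * x 2, x 2]) 0,
        (sh ⟨fun z => c * Real.exp (p * z.1), by fun_prop⟩ ![x 0, x 1 + r / p * x 2, x 2]) 1 -
        r / p * (sh ⟨fun z => c * Real.exp (p * z.1), by fun_prop⟩ ![x 0, x 1 + r / p * x 2, x 2]) 2,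
        (sh ⟨fun z => c * Real.exp (p * z.1), by fun_prop⟩ ![x 0, x 1 + r / p * x 2, x 2]) 2] i
      rw [sh_apply, sh_apply, ha]
      fin_cases i
      · simp
        left
        field_simp
      · simp
      · simp
    rw [h3]
    exact GB.mul_mem (GB.mul_mem (GB.inv_mem hh) hb) hh

lemma sh_mem (a : C(ℝ × ℝ, ℝ)) : sh a ∈ cl GB := by
  classical
  refine Appr.of_cl fun R ε hε => ?_
  let X := closedBall (0 : ℝ × ℝ) R
  have : CompactSpace X := isCompact_iff_compactSpace.1 (isCompact_closedBall _ _)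
  let e : ℝ → ℝ → C(X, ℝ) := fun p r => ⟨fun z => Real.exp (p * z.1.1 + r * z.1.2), by fun_prop⟩
  let M : Submonoid C(X, ℝ) :=
    { carrier := {f | ∃ p r, f = e p r}
      one_mem' := ⟨0, 0, by ext z; simp [e]⟩
      mul_mem' := by
        rintro _ _ ⟨p, r, rfl⟩ ⟨p', r', rfl⟩
        refine ⟨p + p', r + r', ?_⟩
        ext z
        simp only [e, ContinuousMap.mul_apply, ContinuousMap.coe_mk]
        rw [← Real.exp_add]
        congr 1
        ring }
  let A : Subalgebra ℝ C(X, ℝ) := Algebra.adjoin ℝ (M : Set C(X, ℝ))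
  have hsep : A.SeparatesPoints := by
    intro z z' hzz'
    by_cases h1 : z.1.1 = z'.1.1
    · have h2 : z.1.2 ≠ z'.1.2 := fun h => hzz' (Subtype.ext (Prod.ext h1 h))
      refine ⟨e 0 1, ⟨e 0 1, Algebra.subset_adjoin ⟨0, 1, rfl⟩, rfl⟩, ?_⟩
      simpa [e] using h2
    · refine ⟨e 1 0, ⟨e 1 0, Algebra.subset_adjoin ⟨1, 0, rfl⟩, rfl⟩, ?_⟩
      simpa [e] using h1
  obtain ⟨g, hg⟩ := ContinuousMap.exists_mem_subalgebra_near_continuousMap_of_separatesPoints A hsep
    (a.restrict X) ε hε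
  have hgs : (g : C(X, ℝ)) ∈ Submodule.span ℝ (M : Set C(X, ℝ)) := by
    have h1 : (g : C(X, ℝ)) ∈ Subalgebra.toSubmodule A := g.2
    rwa [Algebra.adjoin_eq_span, Submonoid.closure_eq] at h1
  have key : ∀ f ∈ Submodule.span ℝ (M : Set C(X, ℝ)), ∃ b : C(ℝ × ℝ, ℝ), sh b ∈ GB ∧
      (∀ z : X, b z = f z) := by
    intro f hf
    rw [Submodule.mem_span_iff_exists_finset_subset] at hf
    obtain ⟨c, t, htM, -, rfl⟩ := hf
    have h1 : ∀ t : Finset C(X, ℝ), (t : Set C(X, ℝ)) ⊆ M → ∃ b : C(ℝ × ℝ, ℝ), sh b ∈ GB ∧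
        (∀ z : X, b z = (∑ f ∈ t, c f • f) z) := by
      intro t
      induction t using Finset.induction_on with
      | empty => intro _; exact ⟨0, by rw [sh_zero]; exact GB.one_mem, fun z => by simp⟩
      | insert f t hft ih =>
        intro ht
        obtain ⟨b, hb, hb1⟩ := ih (fun x hx => ht (Finset.mem_insert_of_mem hx))
        obtain ⟨p, r, hpr⟩ := ht (Finset.mem_insert_self f t)
        let b' : C(ℝ × ℝ, ℝ) := ⟨fun z => c f * Real.exp (p * z.1 + r * z.2), by fun_prop⟩
        refine ⟨b' + b, ?_, fun z => ?_⟩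
        · rw [sh_add]
          exact GB.mul_mem (sh_exp (c f) p r b' fun z => rfl) hb
        · rw [Finset.sum_insert hft]
          rw [ContinuousMap.add_apply, ContinuousMap.add_apply, hb1]
          congr 1
          rw [ContinuousMap.smul_apply]
          have hfz : f z = Real.exp (p * z.1.1 + r * z.1.2) := by rw [hpr]; rfl
          rw [hfz, smul_eq_mul]
          rfl
    exact h1 t htM
  obtain ⟨b, hb, hb1⟩ := key g hgs
  refine ⟨sh b, le_cl _ hb, fun x hx => ?_⟩
  rw [mem_closedBall_zero_iff] at hx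
  have hz : ((x 1, x 2) : ℝ × ℝ) ∈ X := by
    show _ ∈ closedBall _ _
    rw [mem_closedBall_zero_iff, Prod.norm_def]
    exact max_le ((norm_le_pi_norm x 1).trans hx) ((norm_le_pi_norm x 2).trans hx)
  have h2 : |b (x 1, x 2) - a (x 1, x 2)| < ε := by
    have h3 := (ContinuousMap.norm_coe_le_norm ((g : C(X, ℝ)) - a.restrict X) ⟨(x 1, x 2), hz⟩)
    rw [ContinuousMap.sub_apply, ← hb1] at h3
    exact lt_of_le_of_lt h3 hg
  have h4 : sh b x - sh a x = Pi.single 0 (b (x 1, x 2) - a (x 1, x 2)) := by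
    rw [sh_apply, sh_apply]
    ext i
    fin_cases i <;> simp
  rw [h4]
  refine (pi_norm_lt_iff hε).2 fun i => ?_
  fin_cases i
  · simpa using h2
  · simpa using hε
  · simpa using hε

end Shear

section Hinge

/-- one-variable hinge -/
noncomputable def dil (K : ℝ) (hK : 1 ≤ K) : (Fin 3 → ℝ) ≃ₜ (Fin 3 → ℝ) where
  toFun x := ![min (x 0) (K * x 0), x 1, x 2]
  invFun x := ![max (x 0) (x 0 / K), x 1, x 2]
  left_inv x := by
    have hK0 : 0 < K := by linarith
    ext i; fin_cases i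
    · simp only [Fin.zero_eta, Matrix.cons_val_zero]
      rcases le_total 0 (x 0) with h | h
      · have h1 : x 0 ≤ K * x 0 := by nlinarith
        rw [min_eq_left h1, max_eq_left]
        exact div_le_self h hK
      · have h1 : K * x 0 ≤ x 0 := by nlinarith
        rw [min_eq_right h1, mul_div_cancel_left₀ _ hK0.ne', max_eq_right h1]
    · simp
    · simp
  right_inv x := by
    have hK0 : 0 < K := by linarith
    ext i; fin_cases i
    · simp only [Fin.zero_eta, Matrix.cons_val_zero]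
      rcases le_total 0 (x 0) with h | h
      · have h1 : x 0 / K ≤ x 0 := div_le_self h hK
        rw [max_eq_left h1, min_eq_left]
        nlinarith
      · have h1 : x 0 ≤ x 0 / K := by
          rw [le_div_iff₀ hK0]; nlinarith
        rw [max_eq_right h1, mul_div_cancel₀ _ hK0.ne', min_eq_right h1]
    · simp
    · simp
  continuous_toFun := by
    refine continuous_pi fun i => ?_
    fin_cases i <;> simp <;> fun_prop
  continuous_invFun := by
    refine continuous_pi fun i => ?_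
    fin_cases i <;> simp <;> fun_prop

lemma dil_apply (K : ℝ) (hK : 1 ≤ K) (x : Fin 3 → ℝ) :
    dil K hK x = ![min (x 0) (K * x 0), x 1, x 2] := rfl

lemma dil_inv_apply (K : ℝ) (hK : 1 ≤ K) (x : Fin 3 → ℝ) :
    (dil K hK)⁻¹ x = ![max (x 0) (x 0 / K), x 1, x 2] := rfl

lemma dil_mem (K : ℝ) (hK : 1 ≤ K) : dil K hK ∈ GB := by
  refine c1_mem _ (fun z => min z.1 (K * z.1)) Prod.fst Prod.snd (by fun_prop)
        (by fun_prop) (by fun_prop) (fun x => ?_)
  rw [dil_apply]

/-- the hinge map in one variable -/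
noncomputable def sfun (K a b t : ℝ) : ℝ :=
  a + max (min (t - a) (K * (t - a)) + b) ((min (t - a) (K * (t - a)) + b) / K)

lemma sfun_strictMono {K : ℝ} (hK : 1 ≤ K) (a b : ℝ) : StrictMono (sfun K a b) := by
  intro t t' h
  have hK0 : 0 < K := by linarith
  have h1 : min (t - a) (K * (t - a)) < min (t' - a) (K * (t' - a)) :=
    min_lt_min (by linarith) (by nlinarith)
  have h2 : min (t - a) (K * (t - a)) + b < min (t' - a) (K * (t' - a)) + b := by linarith
  have h3 := max_lt_max h2 (div_lt_div_of_pos_right h2 hK0)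
  unfold sfun
  linarith

lemma sfun_left {K : ℝ} (hK : 1 ≤ K) {a b p t : ℝ} (ha : a = p + max b 0 / K) (ht : t ≤ p) :
    sfun K a b t = t + b / K := by
  have hK0 : 0 < K := by linarith
  have h1 : 0 ≤ max b 0 / K := by positivity
  have h2 : t - a ≤ 0 := by linarith
  have h3 : K * (t - a) ≤ t - a := by nlinarith
  have h4 : K * (t - a) + b ≤ 0 := by
    have : K * (t - a) ≤ K * (-(max b 0 / K)) := by
      apply mul_le_mul_of_nonneg_left _ hK0.le
      linarith
    have h5 : K * (-(max b 0 / K)) = - max b 0 := by field_simp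
    have := le_max_left b 0
    linarith
  have h6 : K * (t - a) + b ≤ (K * (t - a) + b) / K := by
    rw [le_div_iff₀ hK0]; nlinarith
  unfold sfun
  rw [min_eq_right h3, max_eq_right h6]
  field_simp
  ring

lemma sfun_right {K : ℝ} (hK : 1 ≤ K) {a b t : ℝ} (h1 : 0 ≤ t - a) (h2 : 0 ≤ t - a + b) :
    sfun K a b t = t + b := by
  have h3 : t - a ≤ K * (t - a) := by nlinarith
  unfold sfun
  rw [min_eq_left h3, max_eq_left (div_le_self h2 hK)]
  ring

/-- the hinge homeomorphism -/
noncomputable def hinge (K : ℝ) (hK : 1 ≤ K) (a b : C(ℝ × ℝ, ℝ)) : (Fin 3 → ℝ) ≃ₜ (Fin 3 → ℝ) :=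
  sh a * (dil K hK)⁻¹ * sh b * dil K hK * (sh a)⁻¹

lemma hinge_mem (K : ℝ) (hK : 1 ≤ K) (a b : C(ℝ × ℝ, ℝ)) : hinge K hK a b ∈ cl GB :=
  (cl GB).mul_mem ((cl GB).mul_mem ((cl GB).mul_mem ((cl GB).mul_mem (sh_mem a)
    ((cl GB).inv_mem (le_cl _ (dil_mem K hK)))) (sh_mem b)) (le_cl _ (dil_mem K hK)))
    ((cl GB).inv_mem (sh_mem a))

lemma hinge_apply (K : ℝ) (hK : 1 ≤ K) (a b : C(ℝ × ℝ, ℝ)) (x : Fin 3 → ℝ) :
    hinge K hK a b x = ![sfun K (a (x 1, x 2)) (b (x 1, x 2)) (x 0), x 1, x 2] := by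
  have h1 : (sh a)⁻¹ x = ![x 0 - a (x 1, x 2), x 1, x 2] := rfl
  rw [hinge, Homeomorph.mul_apply, Homeomorph.mul_apply, Homeomorph.mul_apply,
    Homeomorph.mul_apply, h1, dil_apply, sh_apply, dil_inv_apply, sh_apply]
  ext i
  fin_cases i
  · simp only [Fin.zero_eta, Matrix.cons_val_zero, Matrix.cons_val_one, Matrix.cons_val]
    rw [sfun]
    ring_nf
  · rfl
  · rfl

lemma approx_rec (φ : ℕ → C(ℝ × ℝ, ℝ)) (hφ : ∀ k w, φ k w < φ (k + 1) w) (c₀ Δ K : ℝ) (hΔ : 0 < Δ)
    (hK : 1 ≤ K) : ∀ k : ℕ, ∃ g ∈ cl GB, ∃ G : ℝ → ℝ × ℝ → ℝ,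
      (∀ x, g x = ![G (x 0) (x 1, x 2), x 1, x 2]) ∧ (∀ w, StrictMono fun t => G t w) ∧
      ∀ w B, 0 ≤ B → (∀ i < k, |φ (i + 1) w - φ i w - Δ| ≤ B) → B / K ≤ Δ →
        (∀ t, c₀ + k * Δ ≤ t → G t w = t + φ k w - (c₀ + k * Δ)) ∧
        (∀ j ≤ k, |G (c₀ + j * Δ) w - φ j w| ≤ k * (B / K)) := by
  have hK0 : 0 < K := by linarith
  intro k
  induction k with
  | zero =>
    refine ⟨sh (φ 0 - ContinuousMap.const _ c₀), sh_mem _, fun t w => t + φ 0 w - c₀,
      fun x => ?_, fun w t t' h => by simp only; linarith, fun w B hB _ _ => ⟨?_, ?_⟩⟩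
    · rw [sh_apply]
      ext i; fin_cases i
      · simp; ring
      · rfl
      · rfl
    · intro t _
      simp
    · intro j hj
      have : j = 0 := by omega
      subst this
      simp
  | succ k ih =>
    obtain ⟨g, hg, G, hG1, hG2, hG3⟩ := ih
    let b : C(ℝ × ℝ, ℝ) := φ (k + 1) - φ k - ContinuousMap.const _ Δ
    let a : C(ℝ × ℝ, ℝ) := ⟨fun w => φ k w + max (b w) 0 / K, by fun_prop⟩
    have hb : ∀ w, b w = φ (k + 1) w - φ k w - Δ := fun w => rfl
    have ha : ∀ w, a w = φ k w + max (b w) 0 / K := fun w => rfl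
    refine ⟨hinge K hK a b * g, (cl GB).mul_mem (hinge_mem K hK a b) hg,
      fun t w => sfun K (a w) (b w) (G t w), fun x => ?_, fun w => ?_, fun w B hB hBi hBK => ?_⟩
    · rw [Homeomorph.mul_apply, hinge_apply, hG1]
      rfl
    · exact (sfun_strictMono hK (a w) (b w)).comp (hG2 w)
    · obtain ⟨h1, h2⟩ := hG3 w B hB (fun i hi => hBi i (by omega)) hBK
      have hbB : |b w| ≤ B := by rw [hb]; exact hBi k (by omega)
      have hbB' : max (b w) 0 ≤ B := max_le ((le_abs_self _).trans hbB) hB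
      have hbK : max (b w) 0 / K ≤ Δ := le_trans (by gcongr) hBK
      have hright : ∀ t, c₀ + ((k + 1 : ℕ) : ℝ) * Δ ≤ t →
          sfun K (a w) (b w) (G t w) = t + φ (k + 1) w - (c₀ + ((k + 1 : ℕ) : ℝ) * Δ) := by
        intro t ht
        push_cast at ht ⊢
        have h3 := h1 t (by nlinarith)
        rw [h3]
        have e1 : t + φ k w - (c₀ + k * Δ) - a w = (t - (c₀ + k * Δ)) - max (b w) 0 / K := by
          rw [ha]; ring
        have e2 : Δ ≤ t - (c₀ + k * Δ) := by linarith
        rw [sfun_right hK]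
        · rw [hb]; ring
        · rw [e1]; linarith
        · rw [e1]
          rcases le_total 0 (b w) with h | h
          · rw [max_eq_left h]
            have : b w / K ≤ b w := div_le_self h hK
            linarith
          · rw [max_eq_right h, zero_div]
            have h4 := hφ k w
            have h5 : Δ + b w = φ (k + 1) w - φ k w := by rw [hb]; ring
            linarith
      refine ⟨hright, fun j hj => ?_⟩
      have hn : 0 ≤ B / K := by positivity
      show |sfun K (a w) (b w) (G (c₀ + j * Δ) w) - φ j w| ≤ _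
      rcases Nat.lt_or_ge j (k + 1) with hjk | hjk
      · have hj' : j ≤ k := by omega
        have h3 := h2 j hj'
        have h4 : G (c₀ + k * Δ) w = φ k w := by
          rw [h1 _ le_rfl]; ring
        have h5 : G (c₀ + j * Δ) w ≤ φ k w := by
          rw [← h4]
          apply (hG2 w).monotone
          have : (j : ℝ) ≤ k := by exact_mod_cast hj'
          nlinarith
        rw [sfun_left hK (ha w) h5]
        have e : G (c₀ + j * Δ) w + b w / K - φ j w = (G (c₀ + j * Δ) w - φ j w) + b w / K := by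
          ring
        rw [e]
        calc _ ≤ |G (c₀ + j * Δ) w - φ j w| + |b w / K| := abs_add_le _ _
          _ ≤ k * (B / K) + B / K := by
            rw [abs_div, abs_of_pos hK0]
            gcongr
          _ = _ := by push_cast; ring
      · have hj' : j = k + 1 := by omega
        subst hj'
        rw [hright _ le_rfl]
        have e : c₀ + ((k + 1 : ℕ) : ℝ) * Δ + φ (k + 1) w - (c₀ + ((k + 1 : ℕ) : ℝ) * Δ)
          - φ (k + 1) w = 0 := by ring
        rw [e, abs_zero]
        positivity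

end Hinge

section Coord3

lemma incr_mem (f : (Fin 3 → ℝ) ≃ₜ (Fin 3 → ℝ)) (hf : ∀ x j, j ≠ 0 → f x j = x j)
    (hmono : ∀ w : ℝ × ℝ, StrictMono fun t => f ![t, w.1, w.2] 0) : f ∈ cl GB := by
  refine Appr.of_cl fun R₀ ε hε => ?_
  set R := max R₀ 1 with hR
  have hRp : 0 < R := lt_of_lt_of_le one_pos (le_max_right _ _)
  obtain ⟨M, hM0, hM⟩ := exists_image_bound f f.continuous (R + 1)
  obtain ⟨δ, hδ, hu⟩ := exists_unif f f.continuous (R + 1) (half_pos hε)
  obtain ⟨N, hN⟩ := exists_nat_gt (max (2 * R / δ) (2 * R))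
  have hNp : (0 : ℝ) < N := lt_of_le_of_lt (by positivity) hN
  set Δ : ℝ := 2 * R / N with hΔ
  have hΔp : 0 < Δ := by rw [hΔ]; positivity
  have hΔδ : Δ < δ := by
    rw [hΔ, div_lt_iff₀ hNp]
    have := lt_of_le_of_lt (le_max_left _ _) hN
    rw [div_lt_iff₀ hδ] at this
    linarith
  have hΔ1 : Δ < 1 := by
    rw [hΔ, div_lt_one hNp]
    exact lt_of_le_of_lt (le_max_right _ _) hN
  have hNΔ : (N : ℝ) * Δ = 2 * R := by rw [hΔ]; field_simp
  let φ : ℕ → C(ℝ × ℝ, ℝ) := fun k => ⟨fun w => f ![-R + k * Δ, w.1, w.2] 0, by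
    refine (continuous_apply 0).comp (f.continuous.comp ?_)
    refine continuous_pi fun i => ?_
    fin_cases i <;> simp <;> fun_prop⟩
  have hφ : ∀ k w, φ k w = f ![-R + k * Δ, w.1, w.2] 0 := fun k w => rfl
  have hφm : ∀ k w, φ k w < φ (k + 1) w := by
    intro k w
    rw [hφ, hφ]
    apply hmono w
    push_cast
    linarith
  set B : ℝ := 2 * M + Δ with hB
  have hB0 : 0 ≤ B := by positivity
  set K : ℝ := 1 + B / Δ + 2 * ((N + 1 : ℕ) : ℝ) * B / ε with hK
  have hK1 : 1 ≤ K := by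
    have h1 : 0 ≤ B / Δ := by positivity
    have h2 : 0 ≤ 2 * ((N + 1 : ℕ) : ℝ) * B / ε := by positivity
    rw [hK]; linarith
  have hK0 : 0 < K := by linarith
  have hBK : B / K ≤ Δ := by
    rw [div_le_iff₀ hK0, hK]
    have h2 : 0 ≤ 2 * ((N + 1 : ℕ) : ℝ) * B / ε := by positivity
    have h3 : Δ * (B / Δ) = B := by field_simp
    nlinarith
  have hNB : ((N + 1 : ℕ) : ℝ) * (B / K) < ε / 2 := by
    have h1 : 0 ≤ B / Δ := by positivity
    have h3 : ε * (2 * ((N + 1 : ℕ) : ℝ) * B / ε) = 2 * ((N + 1 : ℕ) : ℝ) * B := by field_simp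
    have h4 : 2 * ((N + 1 : ℕ) : ℝ) * B < ε * K := by
      have e : ε * K = ε * (1 + B / Δ) + ε * (2 * ((N + 1 : ℕ) : ℝ) * B / ε) := by rw [hK]; ring
      have h5 : 0 < ε * (1 + B / Δ) := by positivity
      rw [e, h3]
      linarith
    rw [← mul_div_assoc, div_lt_iff₀ hK0]
    linarith
  obtain ⟨g, hg, G, hG1, hG2, hG3⟩ := approx_rec φ hφm (-R) Δ K hΔp hK1 (N + 1)
  refine ⟨g, hg, fun x hx => ?_⟩
  have hxR : ∀ i, |x i| ≤ R := fun i => by
    rw [mem_closedBall_zero_iff] at hx
    exact ((norm_le_pi_norm x i).trans hx).trans (le_max_left _ _)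
  set w : ℝ × ℝ := (x 1, x 2) with hw
  have hxe : x = ![x 0, w.1, w.2] := by
    ext i; fin_cases i <;> rfl
  -- points of the grid lie in the big ball
  have hgrid : ∀ t : ℝ, |t| ≤ R + 1 → (![t, w.1, w.2] : Fin 3 → ℝ) ∈ closedBall (0 : Fin 3 → ℝ) (R + 1) := by
    intro t ht
    rw [mem_closedBall_zero_iff]
    refine (pi_norm_le_iff_of_nonneg (by linarith)).2 fun i => ?_
    fin_cases i
    · exact ht
    · exact (hxR 1).trans (by linarith)
    · exact (hxR 2).trans (by linarith)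
  have hlev : ∀ j ≤ N + 1, |(-R + (j : ℝ) * Δ)| ≤ R + 1 := by
    intro j hj
    have h1 : (j : ℝ) ≤ N + 1 := by exact_mod_cast hj
    have h2 : (j : ℝ) * Δ ≤ (N + 1) * Δ := by gcongr
    have h3 : 0 ≤ (j : ℝ) * Δ := by positivity
    rw [abs_le]
    constructor
    · linarith
    · nlinarith
  have hφM : ∀ j ≤ N + 1, |φ j w| ≤ M := by
    intro j hj
    have h1 := hM _ (hgrid _ (hlev j hj))
    rw [mem_closedBall_zero_iff] at h1
    exact (norm_le_pi_norm _ 0).trans h1
  obtain ⟨h1, h2⟩ := hG3 w B hB0 (fun i hi => by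
    have a1 := hφM i (by omega)
    have a2 := hφM (i + 1) (by omega)
    rw [abs_le] at a1 a2 ⊢
    constructor
    · rw [hB]; linarith [a1.1, a1.2, a2.1, a2.2]
    · rw [hB]; linarith [a1.1, a1.2, a2.1, a2.2]) hBK
  -- find the cell
  have hx0 := abs_le.1 (hxR 0)
  set j := ⌊(x 0 + R) / Δ⌋₊ with hj
  have hnn : 0 ≤ (x 0 + R) / Δ := div_nonneg (by linarith) hΔp.le
  have hj1 : (j : ℝ) * Δ ≤ x 0 + R := by
    have := Nat.floor_le hnn
    rw [le_div_iff₀ hΔp] at this
    exact this
  have hj2 : x 0 + R < (j + 1) * Δ := by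
    have := Nat.lt_floor_add_one ((x 0 + R) / Δ)
    rw [div_lt_iff₀ hΔp] at this
    exact this
  have hjN : j ≤ N := by
    have : (j : ℝ) * Δ ≤ N * Δ := by rw [hNΔ]; linarith
    have := le_of_mul_le_mul_right this hΔp
    exact_mod_cast this
  have a1 := h2 j (by omega)
  have a2 := h2 (j + 1) (by omega)
  have g1 : G (-R + j * Δ) w ≤ G (x 0) w := (hG2 w).monotone (by linarith)
  have g2 : G (x 0) w ≤ G (-R + ((j + 1 : ℕ) : ℝ) * Δ) w := (hG2 w).monotone (by push_cast; linarith)
  have f1 : φ j w ≤ f x 0 := by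
    rw [hφ]
    conv_rhs => rw [hxe]
    exact (hmono w).monotone (by linarith)
  have f2 : f x 0 ≤ φ (j + 1) w := by
    rw [hφ]
    conv_lhs => rw [hxe]
    exact (hmono w).monotone (by push_cast; linarith)
  have f3 : φ (j + 1) w - φ j w < ε / 2 := by
    have b1 := hu _ (hgrid _ (hlev (j + 1) (by omega))) _ (hgrid _ (hlev j (by omega))) (by
      have e : (![-R + ((j + 1 : ℕ) : ℝ) * Δ, w.1, w.2] : Fin 3 → ℝ) - ![-R + (j : ℝ) * Δ, w.1, w.2]
          = Pi.single 0 Δ := by
        ext i; fin_cases i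
        · simp; ring
        · simp
        · simp
      rw [e]
      refine (pi_norm_lt_iff hδ).2 fun i => ?_
      fin_cases i
      · simpa [abs_of_pos hΔp] using hΔδ
      · simpa using hδ
      · simpa using hδ)
    have b2 := (norm_le_pi_norm _ 0).trans_lt b1
    exact lt_of_le_of_lt (le_abs_self _) b2
  rw [abs_le] at a1 a2
  have hfin : |G (x 0) w - f x 0| < ε := by
    rw [abs_lt]
    constructor
    · linarith [a1.1, a1.2, a2.1, a2.2]
    · linarith [a1.1, a1.2, a2.1, a2.2]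
  refine (pi_norm_lt_iff hε).2 fun i => ?_
  rw [Pi.sub_apply, hG1]
  fin_cases i
  · exact hfin
  · show ‖x 1 - f x 1‖ < ε
    rw [hf x 1 (by decide), sub_self, norm_zero]
    exact hε
  · show ‖x 2 - f x 2‖ < ε
    rw [hf x 2 (by decide), sub_self, norm_zero]
    exact hε

lemma coord0_mem (f : (Fin 3 → ℝ) ≃ₜ (Fin 3 → ℝ)) (hf : ∀ x j, j ≠ 0 → f x j = x j) :
    f ∈ cl GB := by
  have hfe : ∀ x, f x = ![f x 0, x 1, x 2] := by
    intro x
    ext i; fin_cases i
    · rfl
    · exact hf x 1 (by decide)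
    · exact hf x 2 (by decide)
  have hcv : ∀ w : ℝ × ℝ, Continuous fun t : ℝ => (![t, w.1, w.2] : Fin 3 → ℝ) := by
    intro w
    refine continuous_pi fun i => ?_
    fin_cases i <;> simp <;> fun_prop
  have hcw : ∀ t : ℝ, Continuous fun w : ℝ × ℝ => (![t, w.1, w.2] : Fin 3 → ℝ) := by
    intro t
    refine continuous_pi fun i => ?_
    fin_cases i <;> simp <;> fun_prop
  have hinj : ∀ w : ℝ × ℝ, Function.Injective fun t => f ![t, w.1, w.2] 0 := by
    intro w t t' h
    have h1 : f ![t, w.1, w.2] = f ![t', w.1, w.2] := by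
      rw [hfe ![t, w.1, w.2], hfe ![t', w.1, w.2]]
      have h' : f ![t, w.1, w.2] 0 = f ![t', w.1, w.2] 0 := h
      rw [h']
      rfl
    have h2 := f.injective h1
    exact congrFun h2 0
  have hdich : ∀ w : ℝ × ℝ, (StrictMono fun t => f ![t, w.1, w.2] 0) ∨
      (StrictAnti fun t => f ![t, w.1, w.2] 0) := fun w =>
    ((continuous_apply 0).comp (f.continuous.comp (hcv w))).strictMono_of_inj (hinj w)
  set u : ℝ × ℝ → ℝ := fun w => f ![1, w.1, w.2] 0 - f ![0, w.1, w.2] 0 with hu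
  have huc : Continuous u :=
    ((continuous_apply 0).comp (f.continuous.comp (hcw 1))).sub
      ((continuous_apply 0).comp (f.continuous.comp (hcw 0)))
  have hu0 : ∀ w, u w ≠ 0 := by
    intro w h
    have h1 : (1 : ℝ) = 0 := hinj w (sub_eq_zero.1 h)
    exact one_ne_zero h1
  have hsign : (∀ w, 0 < u w) ∨ (∀ w, u w < 0) := by
    by_contra hcon
    push Not at hcon
    obtain ⟨⟨w₁, h1⟩, ⟨w₂, h2⟩⟩ := hcon
    obtain ⟨w, -, hw⟩ := isPreconnected_univ.intermediate_value (mem_univ w₁) (mem_univ w₂)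
      huc.continuousOn ⟨h1, h2⟩
    exact hu0 w hw
  rcases hsign with h | h
  · refine incr_mem f hf fun w => ?_
    rcases hdich w with h1 | h1
    · exact h1
    · have h2 : f ![1, w.1, w.2] 0 < f ![0, w.1, w.2] 0 := h1 (show (0:ℝ) < 1 by norm_num)
      have h3 := h w
      rw [hu] at h3
      simp only at h3
      linarith
  · -- reflect
    have hlinref : ∃ ρ ∈ GB, ∀ x, ρ x = ![- x 0, x 1, x 2] := by
      obtain ⟨ρ, hρ, hρ1⟩ := gb_hasLin
        { toFun := fun x : Fin 3 → ℝ => (![- x 0, x 1, x 2] : Fin 3 → ℝ)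
          invFun := fun x : Fin 3 → ℝ => ![- x 0, x 1, x 2]
          map_add' := fun x y => by
            ext i; fin_cases i
            · simp; ring
            · simp
            · simp
          map_smul' := fun t x => by ext i; fin_cases i <;> simp
          left_inv := fun x => by ext i; fin_cases i <;> simp
          right_inv := fun x => by ext i; fin_cases i <;> simp }
      exact ⟨ρ, hρ, hρ1⟩
    obtain ⟨ρ, hρ, hρ1⟩ := hlinref
    have h1 : ρ * f ∈ cl GB := by
      have hρf : ∀ x, (ρ * f) x = ![- f x 0, x 1, x 2] := by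
        intro x
        rw [Homeomorph.mul_apply, hρ1, hf x 1 (by decide), hf x 2 (by decide)]
      refine incr_mem (ρ * f) (fun x j hj => ?_) fun w => ?_
      · rw [hρf]
        fin_cases j
        · exact absurd rfl hj
        · rfl
        · rfl
      · intro t t' htt'
        simp only [hρf]
        show - f ![t, w.1, w.2] 0 < - f ![t', w.1, w.2] 0
        rcases hdich w with h1 | h1
        · have h2 : f ![0, w.1, w.2] 0 < f ![1, w.1, w.2] 0 := h1 (show (0:ℝ) < 1 by norm_num)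
          have h3 := h w
          rw [hu] at h3
          simp only at h3
          linarith
        · have := h1 htt'
          simp only at this
          linarith
    have h2 := (cl GB).mul_mem ((cl GB).inv_mem (le_cl _ hρ)) h1
    rwa [inv_mul_cancel_left] at h2

theorem coord3_le : GA 3 ≤ cl GB := by
  rw [GA, Subgroup.closure_le]
  rintro f ⟨i, hi⟩
  obtain ⟨σ, hσ, hσ1⟩ := gb_hasLin (LinearEquiv.funCongrLeft ℝ ℝ (Equiv.swap (0 : Fin 3) i))
  have e1 : ∀ x k, σ x k = x (Equiv.swap 0 i k) := fun x k => by rw [hσ1]; rfl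
  have e2 : ∀ x k, σ.symm x k = x (Equiv.swap 0 i k) := by
    intro x k
    have h1 := e1 (σ.symm x) (Equiv.swap 0 i k)
    rw [Homeomorph.apply_symm_apply, Equiv.swap_apply_self] at h1
    exact h1.symm
  have h1 : σ * f * σ⁻¹ ∈ cl GB := by
    refine coord0_mem _ fun x j hj => ?_
    rw [Homeomorph.mul_apply, Homeomorph.mul_apply, e1, Homeomorph.inv_apply, hi, e2,
      Equiv.swap_apply_self]
    intro h
    apply hj
    have := congrArg (Equiv.swap (0 : Fin 3) i) h
    rw [Equiv.swap_apply_self, Equiv.swap_apply_right] at this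
    exact this
  have h2 := (cl GB).mul_mem ((cl GB).mul_mem ((cl GB).inv_mem (le_cl _ hσ)) h1) (le_cl _ hσ)
  have h3 : σ⁻¹ * (σ * f * σ⁻¹) * σ = f := by group
  rwa [h3] at h2

end Coord3

end Pool.Agent.CoordMaps
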